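import Mathlib
import Pool.Agent.Work.MP_c5a777_ag.Five.Curve
import Pool.Agent.Work.MP_c5a777_ag.Five.FifthDef
import Pool.Agent.Work.MP_c5a777_ag.Five.Theta

/-! Bundle of small proof modules (one section per former module). -/

section

/-!
# A reduction criterion for an element not to be a norm of degree five
-/

namespace Pool.Agent.Work.MP_c5a777_ag.Five

/-- over a valuation ring a nonzero element of a free module is a nonzero scalar times an
element with a coordinate equal to one -/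
theorem exists_primitive {O T Ω : Type*} [CommRing O] [IsDomain O] [ValuationRing O]
    [CommRing T] [Algebra O T] [Module.Free O T] [CommRing Ω] (θ : T →+* Ω)
    (hθ : ∀ z, θ z = 0 → z ∈ (IsLocalRing.maximalIdeal O).map (algebraMap O T))
    (z : T) (hz : z ≠ 0) : ∃ (a : O) (z' : T), a ≠ 0 ∧ z = a • z' ∧ θ z' ≠ 0 := by
  classical
  set b := Module.Free.chooseBasis O T with hb
  have hsupp : (b.repr z).support.Nonempty := by
    rw [Finsupp.support_nonempty_iff]
    intro h
    exact hz (b.repr.map_eq_zero_iff.1 h)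
  -- a coordinate dividing all the others
  have key : ∀ s : Finset (Module.Free.ChooseBasisIndex O T), s.Nonempty →
      ∃ i ∈ s, ∀ j ∈ s, b.repr z i ∣ b.repr z j := by
    intro s hs
    induction hs using Finset.Nonempty.cons_induction with
    | singleton i => exact ⟨i, by simp, fun j hj => by rw [Finset.mem_singleton.1 hj]⟩
    | cons i s his hs ih =>
      obtain ⟨k, hk, hks⟩ := ih
      rcases ValuationRing.dvd_total (b.repr z i) (b.repr z k) with h | h
      · refine ⟨i, Finset.mem_cons_self _ _, fun j hj => ?_⟩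
        rcases Finset.mem_cons.1 hj with rfl | hj
        · exact dvd_rfl
        · exact h.trans (hks j hj)
      · refine ⟨k, Finset.mem_cons_of_mem hk, fun j hj => ?_⟩
        rcases Finset.mem_cons.1 hj with rfl | hj
        · exact h
        · exact hks j hj
  obtain ⟨i, hi, hdvd⟩ := key _ hsupp
  have hi0 : b.repr z i ≠ 0 := Finsupp.mem_support_iff.1 hi
  have hdvd' : ∀ j, ∃ c, b.repr z j = b.repr z i * c := by
    intro j
    by_cases hj : j ∈ (b.repr z).support
    · exact hdvd j hj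
    · exact ⟨0, by rw [mul_zero]; exact Finsupp.notMem_support_iff.1 hj⟩
  choose c hc using hdvd'
  set z' : T := ∑ j ∈ (b.repr z).support, c j • b j with hz'
  have hrel : z = b.repr z i • z' := by
    conv_lhs => rw [← b.linearCombination_repr z, Finsupp.linearCombination_apply, Finsupp.sum]
    rw [hz', Finset.smul_sum]
    refine Finset.sum_congr rfl fun j _ => ?_
    rw [smul_smul, ← hc]
  have hcoord : b.repr z' i = 1 := by
    have h1 : b.repr z i * b.repr z' i = b.repr z i * 1 := by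
      rw [mul_one]
      conv_rhs => rw [hrel]
      rw [map_smul, Finsupp.smul_apply, smul_eq_mul]
    exact mul_left_cancel₀ hi0 h1
  refine ⟨b.repr z i, z', hi0, hrel, ?_⟩
  intro h0
  have h1 := hθ z' h0
  have h2 : z' ∈ (IsLocalRing.maximalIdeal O • ⊤ : Submodule O T) := by
    rw [Ideal.smul_top_eq_map]
    exact h1
  have h3 : b.coord i z' ∈ Submodule.map (b.coord i)
      (IsLocalRing.maximalIdeal O • ⊤ : Submodule O T) := Submodule.mem_map_of_mem h2
  rw [Submodule.map_smul''] at h3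
  have h4 : b.coord i z' ∈ IsLocalRing.maximalIdeal O := by
    have h5 : (IsLocalRing.maximalIdeal O) • (Submodule.map (b.coord i) ⊤) ≤
        (IsLocalRing.maximalIdeal O : Ideal O) • (⊤ : Ideal O) :=
      Submodule.smul_mono le_rfl le_top
    have h6 := h5 h3
    rwa [smul_eq_mul, Ideal.mul_top] at h6
  rw [Module.Basis.coord_apply, hcoord] at h4
  exact (Ideal.ne_top_iff_one _).1 (IsLocalRing.maximalIdeal.isMaximal O).ne_top h4

theorem no_norm {O T Ω F : Type*} [CommRing O] [IsDomain O] [ValuationRing O] [CommRing T]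
    [Algebra O T] [Module.Free O T] [CommRing Ω] [IsDomain Ω] [Field F]
    (θ : T →+* Ω)
    (hθ : ∀ z, θ z = 0 → z ∈ (IsLocalRing.maximalIdeal O).map (algebraMap O T))
    (σ : T →ₐ[O] T) (τ : Ω →+* Ω) (hτ : ∀ z, θ (σ z) = τ (θ z))
    (hτi : Function.Injective τ)
    (ord : Ω → ℕ) (hmul : ∀ a b, a ≠ 0 → b ≠ 0 → ord (a * b) = ord a + ord b)
    (hord : ∀ a, ord (τ a) = ord a)
    (ι : T →+* F) (hι : Function.Injective ι) (s : F →+* F) (hs : ∀ z, ι (σ z) = s (ι z))
    (f : T) (hf : θ f ≠ 0) (h5 : ¬ 5 ∣ ord (θ f)) (z1 z2 : T) (hz1 : z1 ≠ 0) (hz2 : z2 ≠ 0)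
    (γ : F) (hγ : γ = ι z1 / ι z2) :
    γ * s γ * s (s γ) * s (s (s γ)) * s (s (s (s γ))) ≠ ι f := by
  intro hN
  have : IsDomain T := hι.isDomain ι
  have hσ0 : ∀ z, z ≠ 0 → σ z ≠ 0 := by
    intro z hz h
    apply hz
    apply hι
    rw [map_zero]
    apply s.injective
    rw [← hs, h, map_zero, map_zero]
  set N : T → T := fun z => z * σ z * σ (σ z) * σ (σ (σ z)) * σ (σ (σ (σ z))) with hNdef
  set M : Ω → Ω := fun z => z * τ z * τ (τ z) * τ (τ (τ z)) * τ (τ (τ (τ z))) with hMdef
  have hN0 : ∀ z, z ≠ 0 → N z ≠ 0 := by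
    intro z hz
    simp only [hNdef]
    exact mul_ne_zero (mul_ne_zero (mul_ne_zero (mul_ne_zero hz (hσ0 _ hz))
      (hσ0 _ (hσ0 _ hz))) (hσ0 _ (hσ0 _ (hσ0 _ hz)))) (hσ0 _ (hσ0 _ (hσ0 _ (hσ0 _ hz))))
  have hτ0 : ∀ z, z ≠ 0 → τ z ≠ 0 := by
    intro z hz h
    apply hz
    apply hτi
    rw [h, map_zero]
  have hM0 : ∀ z, z ≠ 0 → M z ≠ 0 := by
    intro z hz
    simp only [hMdef]
    exact mul_ne_zero (mul_ne_zero (mul_ne_zero (mul_ne_zero hz (hτ0 _ hz))
      (hτ0 _ (hτ0 _ hz))) (hτ0 _ (hτ0 _ (hτ0 _ hz)))) (hτ0 _ (hτ0 _ (hτ0 _ (hτ0 _ hz))))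
  have hMord : ∀ z, z ≠ 0 → ord (M z) = 5 * ord z := by
    intro z hz
    have t1 := hτ0 _ hz
    have t2 := hτ0 _ t1
    have t3 := hτ0 _ t2
    have t4 := hτ0 _ t3
    simp only [hMdef]
    rw [hmul _ _ (mul_ne_zero (mul_ne_zero (mul_ne_zero hz t1) t2) t3) t4,
      hmul _ _ (mul_ne_zero (mul_ne_zero hz t1) t2) t3, hmul _ _ (mul_ne_zero hz t1) t2,
      hmul _ _ hz t1]
    simp only [hord]
    ring
  have hθN : ∀ z, θ (N z) = M (θ z) := by
    intro z
    simp only [hNdef, hMdef, map_mul, hτ]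
  have hNsmul : ∀ (a : O) z, N (a • z) = a ^ 5 • N z := by
    intro a z
    simp only [hNdef, Algebra.smul_def, map_mul, map_pow, AlgHom.commutes]
    ring
  have hpow5 : ∀ c : Ω, c ≠ 0 → ord (c ^ 5) = 5 * ord c := by
    intro c hc
    have e1 : c ^ 5 = c * c * c * c * c := by ring
    rw [e1, hmul _ _ (mul_ne_zero (mul_ne_zero (mul_ne_zero hc hc) hc) hc) hc,
      hmul _ _ (mul_ne_zero (mul_ne_zero hc hc) hc) hc, hmul _ _ (mul_ne_zero hc hc) hc,
      hmul _ _ hc hc]
    ring
  -- clear denominators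
  have hmain : N z1 = f * N z2 := by
    apply hι
    have hn2 : ι (N z2) ≠ 0 := fun h => hN0 z2 hz2 (hι (by rw [h, map_zero]))
    have e1 : γ * s γ * s (s γ) * s (s (s γ)) * s (s (s (s γ))) = ι (N z1) / ι (N z2) := by
      rw [hγ]
      simp only [hNdef, map_mul, map_div₀, hs]
      simp only [div_mul_div_comm]
    rw [hN, eq_div_iff hn2] at e1
    rw [← e1, map_mul ι f]
  obtain ⟨a1, y1, ha1, hy1, ht1⟩ := exists_primitive θ hθ z1 hz1
  obtain ⟨a2, y2, ha2, hy2, ht2⟩ := exists_primitive θ hθ z2 hz2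
  rw [hy1, hy2, hNsmul, hNsmul, mul_smul_comm] at hmain
  have htf : ∀ (a : O) (x y : T), a ≠ 0 → a • x = a • y → x = y := by
    intro a x y ha hxy
    exact smul_right_injective T ha hxy
  apply h5
  rcases ValuationRing.dvd_total a1 a2 with ⟨c, hc⟩ | ⟨c, hc⟩
  · have h1 : N y1 = c ^ 5 • (f * N y2) := by
      apply htf (a1 ^ 5) _ _ (pow_ne_zero 5 ha1)
      rw [hmain, hc, mul_pow, smul_smul]
    have h2 : M (θ y1) = (θ (algebraMap O T c)) ^ 5 * (θ f * M (θ y2)) := by
      rw [← hθN, h1, Algebra.smul_def, map_mul, map_mul, hθN, map_pow, map_pow]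
    have hc0 : θ (algebraMap O T c) ≠ 0 := by
      intro h
      rw [h] at h2
      apply hM0 _ ht1
      rw [h2]; ring
    have h3 : 5 * ord (θ y1) = 5 * ord (θ (algebraMap O T c)) +
        (ord (θ f) + 5 * ord (θ y2)) := by
      rw [← hMord _ ht1, h2, hmul _ _ (pow_ne_zero 5 hc0) (mul_ne_zero hf (hM0 _ ht2)),
        hmul _ _ hf (hM0 _ ht2), hpow5 _ hc0, hMord _ ht2]
    omega
  · have h1 : c ^ 5 • N y1 = f * N y2 := by
      apply htf (a2 ^ 5) _ _ (pow_ne_zero 5 ha2)
      rw [← hmain, hc, mul_pow, smul_smul]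
    have h2 : (θ (algebraMap O T c)) ^ 5 * M (θ y1) = θ f * M (θ y2) := by
      rw [← hθN, ← hθN, ← map_mul θ f, ← h1, Algebra.smul_def, map_mul θ (algebraMap O T (c ^ 5)),
      map_pow, map_pow]
    have hc0 : θ (algebraMap O T c) ≠ 0 := by
      intro h
      rw [h] at h2
      apply mul_ne_zero hf (hM0 _ ht2)
      rw [← h2]; ring
    have h3 : 5 * ord (θ (algebraMap O T c)) + 5 * ord (θ y1) =
        ord (θ f) + 5 * ord (θ y2) := by
      rw [← hMord _ ht1, ← hpow5 _ hc0, ← hmul _ _ (pow_ne_zero 5 hc0) (hM0 _ ht1), h2,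
        hmul _ _ hf (hM0 _ ht2), hMord _ ht2]
    omega

end Pool.Agent.Work.MP_c5a777_ag.Five

end

section

/-!
# If the cyclic algebra (a, b) of degree five is split, then b is a norm
-/

namespace Pool.Agent.Work.MP_c5a777_ag.Five

open Matrix Polynomial

/-- five eigenvectors with distinct eigenvalues: a vector with the first eigenvalue is a
multiple of the first eigenvector -/
private theorem eig_line {F : Type*} [Field F] (A : Matrix (Fin 5) (Fin 5) F)
    (q : Fin 5 → F) (hq : Function.Injective q) (f : Fin 5 → Fin 5 → F)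
    (hf : ∀ j, f j ≠ 0) (hAf : ∀ j, A *ᵥ f j = q j • f j) (u : Fin 5 → F)
    (hu : A *ᵥ u = q 0 • u) : ∃ γ : F, u = γ • f 0 := by
  have hli : LinearIndependent F f := by
    refine Module.End.eigenvectors_linearIndependent' (Matrix.mulVecLin A) q hq _ ?_
    intro j
    rw [Module.End.hasEigenvector_iff, Module.End.mem_eigenspace_iff]
    exact ⟨by simpa using hAf j, hf j⟩
  have hspan : ⊤ ≤ Submodule.span F (Set.range f) := by
    rw [hli.span_eq_top_of_card_eq_finrank (by simp)]
  have hw : u ∈ Submodule.span F (Set.range f) := hspan trivial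
  rw [Submodule.mem_span_range_iff_exists_fun] at hw
  obtain ⟨c, hc⟩ := hw
  have h1 : A *ᵥ u = ∑ j, (c j * q j) • f j := by
    rw [← hc, Matrix.mulVec_sum]
    refine Finset.sum_congr rfl fun j _ => ?_
    rw [Matrix.mulVec_smul, hAf, smul_smul]
  have h2 : ∑ j, (c j * (q j - q 0)) • f j = 0 := by
    have h3 : A *ᵥ u - q 0 • u = 0 := by rw [hu, sub_self]
    rw [h1, ← hc, Finset.smul_sum, ← Finset.sum_sub_distrib] at h3
    rw [← h3]
    refine Finset.sum_congr rfl fun j _ => ?_
    rw [smul_smul, ← sub_smul]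
    congr 1
    ring
  have h4 := Fintype.linearIndependent_iff.1 hli _ h2
  have h5 : ∀ j, j ≠ 0 → c j = 0 := by
    intro j hj
    exact (mul_eq_zero.1 (h4 j)).resolve_right
      (sub_ne_zero.2 fun h => hj (hq h))
  refine ⟨c 0, ?_⟩
  rw [← hc, Finset.sum_eq_single 0 (fun j _ hj => by rw [h5 j hj, zero_smul])
    (fun h => absurd (Finset.mem_univ _) h)]

/-- an eigenvector -/
private theorem eig_exists {F : Type*} [Field F] (A : Matrix (Fin 5) (Fin 5) F) (w p a : F)
    (hw : IsPrimitiveRoot w 5) (hp : p ^ 5 = a) (hA : A ^ 5 = Matrix.scalar (Fin 5) a) :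
    ∃ (i : ℕ) (e : Fin 5 → F), e ≠ 0 ∧ A *ᵥ e = (w ^ i * p) • e := by
  by_contra hcon
  push Not at hcon
  have key : ∀ (n : ℕ) (v : Fin 5 → F), v ≠ 0 →
      (aeval A (∏ i ∈ Finset.range n, (X - C (w ^ i * p)) : F[X])) *ᵥ v ≠ 0 := by
    intro n
    induction n with
    | zero => intro v hv; simpa using hv
    | succ n ih =>
      intro v hv h0
      rw [Finset.prod_range_succ, map_mul, ← Matrix.mulVec_mulVec] at h0
      refine ih _ ?_ h0
      intro h1
      apply hcon n v hv
      rw [map_sub, aeval_X, aeval_C, Matrix.sub_mulVec, sub_eq_zero] at h1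
      rw [h1, Algebra.algebraMap_eq_smul_one, Matrix.smul_mulVec, Matrix.one_mulVec]
  have h1 := key 5 1 (by
    intro h
    have := congrFun h 0
    simp at this)
  apply h1
  rw [← X_pow_sub_C_eq_prod hw (by norm_num) hp, map_sub, map_pow, aeval_X, aeval_C, hA]
  have : (algebraMap F (Matrix (Fin 5) (Fin 5) F)) a = Matrix.scalar (Fin 5) a := rfl
  rw [this, sub_self, Matrix.zero_mulVec]

/-- item F6 -/
theorem norm_of_matrix_five {L F : Type*} [Field L] [Field F] [Algebra L F]
    (w : L) (hw : IsPrimitiveRoot w 5) (a b : L) (ha : a ≠ 0) (hb : b ≠ 0)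
    (p : F) (hp : p ^ 5 = algebraMap L F a) (σ : F ≃ₐ[L] F)
    (hσ : σ p = algebraMap L F w * p) (hσ5 : ∀ z, σ (σ (σ (σ (σ z)))) = z)
    (U V : Matrix (Fin 5) (Fin 5) L) (hU : U ^ 5 = Matrix.scalar (Fin 5) a)
    (hV : V ^ 5 = Matrix.scalar (Fin 5) b) (hVU : V * U = w • (U * V)) :
    ∃ γ : F, algebraMap L F b = γ * σ γ * σ (σ γ) * σ (σ (σ γ)) * σ (σ (σ (σ γ))) := by
  classical
  set φ := algebraMap L F with hφ
  have hinj : Function.Injective φ := φ.injective
  set ω : F := φ w with hω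
  have hωp : IsPrimitiveRoot ω 5 := hw.map_of_injective hinj
  have hω5 : ω ^ 5 = 1 := hωp.pow_eq_one
  have hω0 : ω ≠ 0 := hωp.ne_zero (by norm_num)
  have ha' : φ a ≠ 0 := fun h => ha (hinj (by rw [h, map_zero]))
  have hb' : φ b ≠ 0 := fun h => hb (hinj (by rw [h, map_zero]))
  have hp0 : p ≠ 0 := by
    intro h
    apply ha'
    rw [← hp, h]; ring
  set A : Matrix (Fin 5) (Fin 5) F := U.map φ with hA
  set B : Matrix (Fin 5) (Fin 5) F := V.map φ with hB
  have hAe : A = φ.mapMatrix U := rfl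
  have hBe : B = φ.mapMatrix V := rfl
  have hsc : ∀ c : L, φ.mapMatrix (Matrix.scalar (Fin 5) c) = Matrix.scalar (Fin 5) (φ c) := by
    intro c
    ext i j
    simp [Matrix.scalar_apply, Matrix.diagonal_apply, apply_ite φ]
  have hA5 : A ^ 5 = Matrix.scalar (Fin 5) (φ a) := by
    rw [hAe, ← map_pow, hU, hsc]
  have hB5 : B ^ 5 = Matrix.scalar (Fin 5) (φ b) := by
    rw [hBe, ← map_pow, hV, hsc]
  have hscv : ∀ (c : F) (v : Fin 5 → F), Matrix.scalar (Fin 5) c *ᵥ v = c • v := by
    intro c v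
    ext i
    simp [Matrix.scalar_apply, Matrix.mulVec_diagonal]
  have hBA : B * A = ω • (A * B) := by
    rw [hAe, hBe, ← map_mul, hVU, ← map_mul]
    ext i j
    rw [RingHom.mapMatrix_apply, Matrix.map_apply, Matrix.smul_apply, Matrix.smul_apply,
      RingHom.mapMatrix_apply, Matrix.map_apply, smul_eq_mul, smul_eq_mul, map_mul]
  -- B is injective
  have hB5v : ∀ v : Fin 5 → F, B *ᵥ (B *ᵥ (B *ᵥ (B *ᵥ (B *ᵥ v)))) = φ b • v := by
    intro v
    rw [← hscv, ← hB5]
    simp only [Matrix.mulVec_mulVec]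
    congr 1
    noncomm_ring
  have hBinj : ∀ v : Fin 5 → F, B *ᵥ v = 0 → v = 0 := by
    intro v hv
    have h1 := hB5v v
    rw [hv] at h1
    simp only [Matrix.mulVec_zero] at h1
    exact (smul_eq_zero.1 h1.symm).resolve_left hb'
  -- B shifts the eigenvalues
  have hAB : ∀ (v : Fin 5 → F) (q : F), A *ᵥ v = q • v →
      A *ᵥ (B *ᵥ v) = (ω ^ 4 * q) • (B *ᵥ v) := by
    intro v q hv
    have h1 : A * B = (ω ^ 4) • (B * A) := by
      rw [hBA, smul_smul]
      have : ω ^ 4 * ω = 1 := by rw [← hω5]; ring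
      rw [this, one_smul]
    rw [Matrix.mulVec_mulVec, h1, Matrix.smul_mulVec, ← Matrix.mulVec_mulVec, hv,
      Matrix.mulVec_smul, smul_smul]
  -- an eigenvector for p
  obtain ⟨e, he, hAe'⟩ : ∃ e : Fin 5 → F, e ≠ 0 ∧ A *ᵥ e = p • e := by
    obtain ⟨i, e, he, hi⟩ := eig_exists A ω p (φ a) hωp hp hA5
    have key : ∀ (i : ℕ) (e : Fin 5 → F), e ≠ 0 → A *ᵥ e = (ω ^ i * p) • e →
        ∃ e : Fin 5 → F, e ≠ 0 ∧ A *ᵥ e = p • e := by
      intro i
      induction i with
      | zero => intro e he hi; exact ⟨e, he, by simpa using hi⟩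
      | succ i ih =>
        intro e he hi
        refine ih (B *ᵥ e) (fun h => he (hBinj _ h)) ?_
        rw [hAB _ _ hi]
        congr 1
        calc ω ^ 4 * (ω ^ (i + 1) * p) = ω ^ 5 * (ω ^ i * p) := by ring
          _ = ω ^ i * p := by rw [hω5, one_mul]
    exact key i e he hi
  -- the five eigenvectors
  let f : ℕ → Fin 5 → F := fun k => Nat.rec e (fun _ v => B *ᵥ v) k
  have hf0 : f 0 = e := rfl
  have hfs : ∀ k, f (k + 1) = B *ᵥ f k := fun k => rfl
  have hfne : ∀ k, f k ≠ 0 := by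
    intro k
    induction k with
    | zero => exact he
    | succ k ih => intro h; exact ih (hBinj _ h)
  have hfA : ∀ k, A *ᵥ f k = (ω ^ (4 * k) * p) • f k := by
    intro k
    induction k with
    | zero => rw [hf0, mul_zero, pow_zero, one_mul]; exact hAe'
    | succ k ih =>
      rw [hfs, hAB _ _ ih]
      congr 1
      ring
  have hqinj : Function.Injective fun k : Fin 5 => ω ^ (4 * (k : ℕ)) * p := by
    intro i j hij
    have h1 : ω ^ (4 * (i : ℕ)) = ω ^ (4 * (j : ℕ)) := mul_right_cancel₀ hp0 hij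
    have h2 : (ω ^ 4) ^ (i : ℕ) = (ω ^ 4) ^ (j : ℕ) := by rw [← pow_mul, ← pow_mul, h1]
    have h3 : IsPrimitiveRoot (ω ^ 4) 5 := hωp.pow_of_coprime 4 (by norm_num)
    exact Fin.ext (h3.pow_inj i.2 j.2 h2)
  -- the semilinear map
  have hσA : ∀ v : Fin 5 → F, (fun i => σ ((A *ᵥ v) i)) = A *ᵥ (fun i => σ (v i)) := by
    intro v
    funext i
    simp only [Matrix.mulVec, dotProduct, map_sum, map_mul, hA, Matrix.map_apply]
    refine Finset.sum_congr rfl fun j _ => ?_
    rw [hφ, σ.commutes]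
  have hσB : ∀ v : Fin 5 → F, (fun i => σ ((B *ᵥ v) i)) = B *ᵥ (fun i => σ (v i)) := by
    intro v
    funext i
    simp only [Matrix.mulVec, dotProduct, map_sum, map_mul, hB, Matrix.map_apply]
    refine Finset.sum_congr rfl fun j _ => ?_
    rw [hφ, σ.commutes]
  set e1 : Fin 5 → F := fun i => σ (e i) with he1
  have hAe1 : A *ᵥ e1 = (ω * p) • e1 := by
    rw [he1, ← hσA, hAe']
    funext i
    simp [hσ, hω]
  have hg : A *ᵥ (B *ᵥ e1) = p • (B *ᵥ e1) := by
    rw [hAB e1 _ hAe1]
    congr 1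
    calc ω ^ 4 * (ω * p) = ω ^ 5 * p := by ring
      _ = p := by rw [hω5, one_mul]
  obtain ⟨γ, hγ⟩ := eig_line A (fun k : Fin 5 => ω ^ (4 * (k : ℕ)) * p) hqinj
    (fun k => f k) (fun k => hfne k) (fun k => hfA k) (B *ᵥ e1) (by simpa using hg)
  have hγ' : B *ᵥ e1 = γ • e := hγ
  refine ⟨γ, ?_⟩
  set e2 : Fin 5 → F := fun i => σ (e1 i) with he2
  set e3 : Fin 5 → F := fun i => σ (e2 i) with he3
  set e4 : Fin 5 → F := fun i => σ (e3 i) with he4
  have k1 : B *ᵥ e2 = σ γ • e1 := by
    rw [he2, ← hσB, hγ']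
    funext i
    simp [he1]
  have k2 : B *ᵥ e3 = σ (σ γ) • e2 := by
    rw [he3, ← hσB, k1]
    funext i
    simp [he2]
  have k3 : B *ᵥ e4 = σ (σ (σ γ)) • e3 := by
    rw [he4, ← hσB, k2]
    funext i
    simp [he3]
  have k4 : B *ᵥ e = σ (σ (σ (σ γ))) • e4 := by
    have h1 : (fun i => σ (e4 i)) = e := by
      funext i
      simp [he4, he3, he2, he1, hσ5]
    rw [← h1, ← hσB, k3]
    funext i
    simp [he4]
  have k5 := hB5v e
  rw [k4, Matrix.mulVec_smul, k3, smul_smul, Matrix.mulVec_smul, k2, smul_smul,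
    Matrix.mulVec_smul, k1, smul_smul, Matrix.mulVec_smul, hγ', smul_smul] at k5
  obtain ⟨i, hi⟩ := Function.ne_iff.1 he
  have k6 := congrFun k5 i
  simp only [Pi.smul_apply, smul_eq_mul] at k6
  have k7 := mul_right_cancel₀ hi k6
  rw [← k7]
  ring

end Pool.Agent.Work.MP_c5a777_ag.Five

end

section

namespace Pool.Agent.Work.MP_c5a777_ag.Five

/-- item F7 -/
theorem exists_val : ∃ O : ValuationSubring ℂ, O.valuation (2 : ℂ) < 1 := by
  have hc2 : (((2 : (⊥ : Subring ℂ)) : (⊥ : Subring ℂ)) : ℂ) = 2 := rfl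
  have key := Ideal.image_subset_nonunits_valuationSubring (K := ℂ) (A := (⊥ : Subring ℂ))
    (Ideal.span {(2 : (⊥ : Subring ℂ))}) (by
      intro h
      rw [Ideal.span_singleton_eq_top] at h
      obtain ⟨u, hu⟩ := h
      have h2 : (2 : (⊥ : Subring ℂ)) * (↑u⁻¹ : (⊥ : Subring ℂ)) = 1 := by
        rw [← hu]; simp
      obtain ⟨n, hn⟩ := Subring.mem_bot.mp (↑u⁻¹ : (⊥ : Subring ℂ)).2
      have h3 : (2 : ℂ) * (n : ℂ) = 1 := by
        have := congrArg (Subring.subtype (⊥ : Subring ℂ)) h2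
        rw [map_mul, map_one] at this
        rw [hn]
        exact this
      have h4 : (2 : ℤ) * n = 1 := by exact_mod_cast h3
      omega)
  obtain ⟨O, hle, hO⟩ := key
  refine ⟨O, ?_⟩
  have h2 : (2 : ℂ) ∈ O.nonunits := by
    apply hO
    exact ⟨2, Ideal.subset_span rfl, hc2⟩
  exact h2

/-- item F7 -/
theorem val_facts (O : ValuationSubring ℂ) (h2 : O.valuation (2 : ℂ) < 1) (e : ℂ)
    (he : e ^ 2 + e = 1) : O.valuation e = 1 ∧ O.valuation (5 : ℂ) = 1 ∧
      O.valuation (10 * e + 5) = 1 ∧ O.valuation (5 * e - 3) = 1 ∧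
      O.valuation (-8 - 5 * e) = 1 := by
  have hprod : O.valuation e * O.valuation (e + 1) = 1 := by
    rw [← map_mul, show e * (e + 1) = 1 by linear_combination he, map_one]
  have hle : O.valuation e ≤ 1 := by
    by_contra h
    rw [not_le] at h
    have h1 : O.valuation (1 : ℂ) < O.valuation e := by rwa [map_one]
    have h3 : O.valuation (e + 1) = O.valuation e := Valuation.map_add_eq_of_lt_left _ h1
    rw [h3] at hprod
    exact absurd hprod (ne_of_gt (one_lt_mul'' h h))
  have hle' : O.valuation (e + 1) ≤ 1 :=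
    (O.valuation.map_add e 1).trans (max_le hle (le_of_eq (map_one _)))
  have h1 : O.valuation e = 1 := by
    by_contra h
    have := mul_lt_mul'' (lt_of_le_of_ne hle h) (lt_of_le_of_ne hle' (by
      intro h'; rw [h', mul_one] at hprod; exact h hprod)) zero_le zero_le
    rw [hprod, one_mul] at this
    exact lt_irrefl _ this
  have h1' : O.valuation (e + 1) = 1 := by rwa [h1, one_mul] at hprod
  have h5 : O.valuation (5 : ℂ) = 1 := by
    have h4 : O.valuation (4 : ℂ) < O.valuation (1 : ℂ) := by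
      rw [show (4 : ℂ) = 2 * 2 by norm_num, map_mul, map_one]
      exact mul_lt_one_of_lt_of_le h2 h2.le
    rw [show (5 : ℂ) = 4 + 1 by norm_num, Valuation.map_add_eq_of_lt_right _ h4, map_one]
  have hpow : ∀ z : ℂ, ∀ n : ℕ, n ≠ 0 → O.valuation (z ^ n) = 1 → O.valuation z = 1 := by
    intro z n hn hz
    rw [map_pow] at hz
    exact (pow_eq_one_iff_of_nonneg zero_le hn).mp hz
  refine ⟨h1, h5, ?_, ?_, ?_⟩
  · apply hpow _ 2 (by norm_num)
    rw [show (10 * e + 5) ^ 2 = 5 ^ 3 by linear_combination 100 * he, map_pow, h5, one_pow]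
  · rw [show 5 * e - 3 = e ^ 5 by
      linear_combination (-(e ^ 3) + e ^ 2 - 2 * e + 3) * he, map_pow, h1, one_pow]
  · rw [show -8 - 5 * e = (-(e + 1)) ^ 5 by
      linear_combination (e ^ 3 + 4 * e ^ 2 + 7 * e + 7) * he, map_pow, Valuation.map_neg, h1', one_pow]

/-- item F7 -/
theorem val_root (O : ValuationSubring ℂ) (z : ℂ) (hz : z ^ 5 = 1) : O.valuation z = 1 := by
  have : O.valuation z ^ 5 = 1 := by rw [← map_pow, hz, map_one]
  exact (pow_eq_one_iff_of_nonneg zero_le (by norm_num)).mp this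

end Pool.Agent.Work.MP_c5a777_ag.Five

end

section

/-!
# Horizontal valuations
-/

set_option autoImplicit false

namespace Pool.Agent.Work.MP_c5a777_ag.Five

namespace Horiz

variable {L Γ : Type*} [Field L] [LinearOrderedCommGroupWithZero Γ] (v : Valuation L Γ)

theorem mul_le {x y : L} (hx : v x ≤ 1) (hy : v y ≤ 1) : v (x * y) ≤ 1 := by
  rw [map_mul]; exact mul_le_one' hx hy

theorem mul_lt {x y : L} (hx : v x ≤ 1) (hy : v y < 1) : v (x * y) < 1 := by
  rw [map_mul]; exact lt_of_le_of_lt (mul_le_of_le_one_left' hx) hy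

theorem mul_lt' {x y : L} (hx : v x < 1) (hy : v y ≤ 1) : v (x * y) < 1 := by
  rw [mul_comm]; exact mul_lt v hy hx

theorem pow_le {x : L} (hx : v x ≤ 1) (n : ℕ) : v (x ^ n) ≤ 1 := by
  rw [map_pow]; exact pow_le_one' hx n

theorem pow_lt {x : L} (hx : v x < 1) (n : ℕ) : v (x ^ (n + 1)) < 1 := by
  rw [pow_succ]; exact mul_lt v (pow_le v hx.le n) hx

theorem of_pow_lt {x : L} {n : ℕ} (hx : v (x ^ n) < 1) : v x < 1 := by
  rw [map_pow] at hx
  by_contra h
  push Not at h
  exact absurd hx (not_lt.2 (one_le_pow_of_one_le' h n))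

theorem of_pow_le {x : L} {n : ℕ} (hn : n ≠ 0) (hx : v (x ^ n) ≤ 1) : v x ≤ 1 := by
  rw [map_pow] at hx
  by_contra h
  push Not at h
  exact absurd hx (not_le.2 (one_lt_pow₀ h hn))

/-- a unit plus a small element is a unit -/
theorem unit_add {x y : L} (hx : v x = 1) (hy : v y < 1) : v (x + y) = 1 := by
  rw [v.map_add_eq_of_lt_left (by rw [hx]; exact hy), hx]

theorem pow_eq_one_val {x : L} {n : ℕ} (hn : n ≠ 0) (h : v x ^ n = 1) : v x = 1 :=
  (pow_eq_one_iff.mp h).resolve_right hn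

/-- The integral case with `v (x + E⁴) < 1`. -/
theorem case_a (E U x y l : L) (hE : E ^ 2 + E = 1) (hvE : v E = 1) (hU : v U = 1)
    (hx : v x ≤ 1) (ha : v (x + E ^ 4) < 1) (hb : v (y + E ^ 3 * x) < 1)
    (hl : v (l ^ 5 - U * gq x y) < 1) :
    ∃ r : L, v (U - r ^ 5) < 1 := by
  have hE0 : E ≠ 0 := by rintro rfl; simp at hvE
  have hn : ∀ n : ℕ, v (E ^ n) = 1 := fun n => by rw [map_pow, hvE, one_pow]
  have hg : v (gq x y - E ^ 10) < 1 := by
    have e : gq x y - E ^ 10 = (x + 1) * (y + E ^ 3 * x) +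
        (-((1 + E ^ 3) * x) + (E ^ 7 + E ^ 4 - E ^ 3)) * (x + E ^ 4) := by
      unfold gq
      linear_combination (-(E ^ 7 * (E ^ 2 + 1))) * hE
    rw [e]
    refine v.map_add_lt (mul_lt v (v.map_add_le hx (map_one v).le) hb) (mul_lt v ?_ ha)
    refine v.map_add_le ?_ ?_
    · rw [Valuation.map_neg]
      exact mul_le v (v.map_add_le (map_one v).le (hn 3).le) hx
    · exact v.map_sub_le (v.map_add_le (hn 7).le (hn 4).le) (hn 3).le
  refine ⟨l / E ^ 2, ?_⟩
  have e : U - (l / E ^ 2) ^ 5 = -(U * (gq x y - E ^ 10) + (l ^ 5 - U * gq x y)) / E ^ 10 := by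
    field_simp
    ring
  rw [e, map_div₀, hn 10, div_one, Valuation.map_neg]
  exact v.map_add_lt (mul_lt v hU.le hg) hl

/-- The integral case with `x + E⁴` and `gq x y` units. -/
theorem case_b (E U x y l : L) (hU : v U = 1)
    (ha : v (x + E ^ 4) = 1) (hg : v (gq x y) = 1)
    (hb : v ((y + E ^ 3 * x) ^ 5 - gq x y * (x + E ^ 4) ^ 5) < 1)
    (hl : v (l ^ 5 - U * gq x y) < 1) :
    ∃ r : L, v (U - r ^ 5) < 1 := by
  have ha0 : x + E ^ 4 ≠ 0 := by intro h; rw [h] at ha; simp at ha
  set m := (y + E ^ 3 * x) / (x + E ^ 4) with hm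
  have h1 : v (m ^ 5 - gq x y) < 1 := by
    have e : m ^ 5 - gq x y =
        ((y + E ^ 3 * x) ^ 5 - gq x y * (x + E ^ 4) ^ 5) / (x + E ^ 4) ^ 5 := by
      rw [hm]; field_simp
    rw [e, map_div₀, map_pow, ha, one_pow, div_one]; exact hb
  have h2 : v m = 1 := by
    apply pow_eq_one_val v (n := 5) (by norm_num)
    rw [← map_pow]
    have e : m ^ 5 = gq x y + (m ^ 5 - gq x y) := by ring
    rw [e]; exact unit_add v hg h1
  have hm0 : m ≠ 0 := by intro h; rw [h] at h2; simp at h2
  refine ⟨l / m, ?_⟩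
  have e : U - (l / m) ^ 5 = (U * (m ^ 5 - gq x y) - (l ^ 5 - U * gq x y)) / m ^ 5 := by
    field_simp
    ring
  rw [e, map_div₀, map_pow, h2, one_pow, div_one]
  exact v.map_sub_lt (mul_lt v hU.le h1) hl

/-- comparison of fifth powers -/
theorem case_c (c E U W x l : L) (hc : c = E ^ 5) (hvc : v c = 1) (hU : v U = 1)
    (hW : v (W - c) < 1) (hne : W * l ^ 5 - U * x ^ 5 ≠ 0) :
    (∃ k : L, v (W * l ^ 5 - U * x ^ 5) = v k ^ 5) ∨ ∃ r : L, v (U - r ^ 5) < 1 := by
  have hvW : v W = 1 := by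
    have e : W = c + (W - c) := by ring
    rw [e]; exact unit_add v hvc hW
  have h1 : v (W * l ^ 5) = v l ^ 5 := by rw [map_mul, hvW, one_mul, map_pow]
  have h2 : v (U * x ^ 5) = v x ^ 5 := by rw [map_mul, hU, one_mul, map_pow]
  rcases lt_trichotomy (v l) (v x) with h | h | h
  · left
    refine ⟨x, ?_⟩
    rw [← h2]
    apply v.map_sub_eq_of_lt_right
    rw [h1, h2]
    exact pow_lt_pow_left₀ h zero_le (by norm_num)
  · by_cases h3 : v (W * l ^ 5 - U * x ^ 5) = v x ^ 5
    · left; exact ⟨x, h3⟩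
    · right
      have h4 : v (W * l ^ 5 - U * x ^ 5) < v x ^ 5 := by
        apply lt_of_le_of_ne _ h3
        apply v.map_sub_le
        · rw [h1, h]
        · rw [h2]
      have hx0 : x ≠ 0 := by
        intro hx0
        have h6 : v x ^ 5 = 0 := by rw [hx0, map_zero, zero_pow (by norm_num)]
        rw [h6] at h4
        exact absurd h4 (not_lt.2 zero_le)
      have hvx : v x ≠ 0 := (Valuation.ne_zero_iff v).mpr hx0
      have hlx : v (l / x) = 1 := by rw [map_div₀, h, div_self hvx]
      have h5 : v (W * (l / x) ^ 5 - U) < 1 := by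
        have e : W * (l / x) ^ 5 - U = (W * l ^ 5 - U * x ^ 5) / x ^ 5 := by
          field_simp
        rw [e, map_div₀, map_pow]
        rw [div_lt_one₀ (zero_lt_iff.2 (pow_ne_zero 5 hvx))]
        exact h4
      refine ⟨E * (l / x), ?_⟩
      have e : U - (E * (l / x)) ^ 5 =
          (l / x) ^ 5 * (W - c) - (W * (l / x) ^ 5 - U) := by
        rw [hc]; ring
      rw [e]
      exact v.map_sub_lt (mul_lt v (pow_le v hlx.le 5) hW) h5
  · left
    refine ⟨l, ?_⟩
    rw [← h1]
    apply v.map_sub_eq_of_lt_left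
    rw [h1, h2]
    exact pow_lt_pow_left₀ h zero_le (by norm_num)

/-- the pole case, `v (y)² = v (x)³` -/
theorem case_d (c κ U V x y l : L) (hvc : v c = 1) (hκ : v κ = 1) (hU : v U = 1)
    (hVU : v (V - U) = 1) (hx : 1 < v x) (hxy : v y ^ 2 = v x ^ 3)
    (hrel : κ * l ^ 5 = (V - U) * hk c x y + κ * (U * gq x y)) :
    (∃ k : L, v (hk c x y) = v k ^ 5) ∨ ∃ r : L, v (U - r ^ 5) < 1 := by
  have hvx0 : v x ≠ 0 := (lt_trans zero_lt_one hx).ne'
  have hx0 : x ≠ 0 := (Valuation.ne_zero_iff v).mp hvx0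
  have hvy0 : v y ≠ 0 := by
    intro h
    rw [h, zero_pow (by norm_num)] at hxy
    exact pow_ne_zero 3 hvx0 hxy.symm
  have hy0 : y ≠ 0 := (Valuation.ne_zero_iff v).mp hvy0
  have hκ0 : κ ≠ 0 := by intro h; rw [h] at hκ; simp at hκ
  set n := y / x with hn
  have hn0 : n ≠ 0 := div_ne_zero hy0 hx0
  set p := v n with hp
  have hp0 : p ≠ 0 := (Valuation.ne_zero_iff v).mpr hn0
  have hpx : v x = p ^ 2 := by
    rw [hp, hn, map_div₀, div_pow, hxy]
    rw [eq_div_iff (pow_ne_zero 2 hvx0)]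
    rw [← pow_succ']
  have hpy : v y = p ^ 3 := by
    have h1 : y = n * x := by rw [hn]; field_simp
    rw [h1, map_mul, hpx, ← hp, ← pow_succ']
  have hp1 : 1 < p := by
    by_contra h
    push Not at h
    have : p ^ 2 ≤ 1 := pow_le_one' h 2
    rw [← hpx] at this
    exact absurd hx (not_lt.2 this)
  have hlt : ∀ {a b : ℕ}, a < b → p ^ a < p ^ b := fun h => pow_lt_pow_right₀ hp1 h
  have hvxy : v (x * y) = p ^ 5 := by rw [map_mul, hpx, hpy, ← pow_add]
  have hvx2 : v (x ^ 2) = p ^ 4 := by rw [map_pow, hpx, ← pow_mul]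
  have hg : v (gq x y) = p ^ 5 := by
    have e : gq x y = x * y + (y - x ^ 2) := by unfold gq; ring
    rw [e, ← hvxy]
    apply v.map_add_eq_of_lt_left
    rw [hvxy]
    apply v.map_sub_lt
    · rw [hpy]; exact hlt (by norm_num)
    · rw [hvx2]; exact hlt (by norm_num)
  have hUg : v (κ * (U * gq x y)) = p ^ 5 := by
    rw [map_mul, map_mul, hκ, hU, hg, one_mul, one_mul]
  have hVh : v ((V - U) * hk c x y) = v (hk c x y) := by rw [map_mul, hVU, one_mul]
  have hl : v (κ * l ^ 5) = v l ^ 5 := by rw [map_mul, hκ, one_mul, map_pow]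
  rcases lt_trichotomy (v (hk c x y)) (p ^ 5) with h | h | h
  · right
    have h1 : v (y ^ 2 - x ^ 3) ≤ p ^ 5 := by
      have e : y ^ 2 - x ^ 3 = hk c x y - x * y - c * gq x y := by unfold hk; ring
      rw [e]
      refine v.map_sub_le (v.map_sub_le h.le hvxy.le) ?_
      rw [map_mul, hvc, one_mul, hg]
    have hdiv : ∀ (z w : L) (a b : ℕ), v z ≤ p ^ a → v w = p ^ b → a < b → v (z / w) < 1 := by
      intro z w a b hz hw hab
      rw [map_div₀, hw, div_lt_one₀ (zero_lt_iff.2 (pow_ne_zero b hp0))]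
      exact lt_of_le_of_lt hz (hlt hab)
    have h2 : v ((y ^ 2 - x ^ 3) / x ^ 3) < 1 :=
      hdiv _ _ 5 6 h1 (by rw [map_pow, hpx, ← pow_mul]) (by norm_num)
    set t := y ^ 2 / x ^ 3 with ht
    have h3 : v (t - 1) < 1 := by
      have e : t - 1 = (y ^ 2 - x ^ 3) / x ^ 3 := by rw [ht]; field_simp
      rw [e]; exact h2
    have h4 : v t = 1 := by
      have e : t = 1 + (t - 1) := by ring
      rw [e]; exact unit_add v (map_one v) h3
    have ht0 : t ≠ 0 := by intro h; rw [h] at h4; simp at h4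
    have h5 : v (gq x y / n ^ 5 - 1) < 1 := by
      have e : gq x y / n ^ 5 - 1 =
          -((t - 1) * (1 + t)) / t ^ 2 + x ^ 5 / y ^ 4 - x ^ 7 / y ^ 5 := by
        rw [hn, ht]; unfold gq; field_simp; ring
      rw [e]
      refine v.map_sub_lt (v.map_add_lt ?_ ?_) ?_
      · rw [map_div₀, map_pow, h4, one_pow, div_one, Valuation.map_neg]
        exact mul_lt' v h3 (v.map_add_le (map_one v).le h4.le)
      · exact hdiv _ _ 10 12 (by rw [map_pow, hpx, ← pow_mul]) (by rw [map_pow, hpy, ← pow_mul])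
          (by norm_num)
      · exact hdiv _ _ 14 15 (by rw [map_pow, hpx, ← pow_mul]) (by rw [map_pow, hpy, ← pow_mul])
          (by norm_num)
    have h6 : v ((V - U) * hk c x y / (κ * n ^ 5)) < 1 := by
      rw [map_div₀, hVh, map_mul, hκ, one_mul, map_pow,
        div_lt_one₀ (zero_lt_iff.2 (pow_ne_zero 5 hp0))]
      exact h
    refine ⟨l / n, ?_⟩
    have e : U - (l / n) ^ 5 =
        -(U * (gq x y / n ^ 5 - 1)) - (V - U) * hk c x y / (κ * n ^ 5) := by
      have h7 : (l / n) ^ 5 = κ * l ^ 5 / (κ * n ^ 5) := by field_simp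
      rw [h7, hrel]
      field_simp
      ring
    rw [e]
    refine v.map_sub_lt ?_ h6
    rw [Valuation.map_neg]
    exact mul_lt v hU.le h5
  · left; exact ⟨n, h⟩
  · left
    refine ⟨l, ?_⟩
    rw [← hl, hrel, ← hVh]
    symm
    apply v.map_add_eq_of_lt_left
    rw [hVh, hUg]
    exact h

/-- the poles with `v (y)² > v (x)³` -/
theorem case_e (c κ U V x y l : L) (hvc : v c = 1) (hκ : v κ = 1) (hU : v U = 1)
    (hVU : v (V - U) = 1) (hy : 1 < v y) (hxy : v x ^ 3 < v y ^ 2)
    (hrel : κ * l ^ 5 = (V - U) * hk c x y + κ * (U * gq x y)) :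
    v (hk c x y) = v l ^ 5 := by
  have hlt : v x < v y := by
    by_contra h
    push Not at h
    have h1 : v y ^ 2 ≤ v x ^ 2 := pow_le_pow_left₀ zero_le h 2
    have h2 : v x ^ 2 ≤ v x ^ 3 := pow_le_pow_right₀ (hy.le.trans h) (by norm_num)
    exact absurd hxy (not_lt.2 (h1.trans h2))
  have hy0 : 0 < v y := lt_trans zero_lt_one hy
  have hyy : v y < v y ^ 2 := by
    have := pow_lt_pow_right₀ hy (show 1 < 2 by norm_num)
    rwa [pow_one] at this
  have hvxy : v (x * y) < v y ^ 2 := by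
    rw [map_mul, sq]
    exact mul_lt_mul_of_pos_right hlt hy0
  have hvx2 : v (x ^ 2) < v y ^ 2 := by
    rw [map_pow]; exact pow_lt_pow_left₀ hlt zero_le (by norm_num)
  have hg : v (gq x y) < v y ^ 2 := by
    unfold gq
    exact v.map_sub_lt (v.map_add_lt hvxy hyy) hvx2
  have hh : v (hk c x y) = v y ^ 2 := by
    have e : hk c x y = y ^ 2 + (x * y - x ^ 3 + c * gq x y) := by unfold hk; ring
    rw [e, ← map_pow]
    apply v.map_add_eq_of_lt_left
    rw [map_pow]
    refine v.map_add_lt (v.map_sub_lt hvxy (by rw [map_pow]; exact hxy)) ?_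
    rw [map_mul, hvc, one_mul]; exact hg
  have hVh : v ((V - U) * hk c x y) = v (hk c x y) := by rw [map_mul, hVU, one_mul]
  have hl : v (κ * l ^ 5) = v l ^ 5 := by rw [map_mul, hκ, one_mul, map_pow]
  rw [← hl, hrel, ← hVh]
  symm
  apply v.map_add_eq_of_lt_left
  rw [hVh, hh, map_mul, map_mul, hκ, hU, one_mul, one_mul]
  exact hg

/-- the poles with `v (y)² < v (x)³` -/
theorem case_f (c κ U V x y l : L) (hvc : v c = 1) (hκ : v κ = 1) (hU : v U = 1)
    (hVU : v (V - U) = 1) (hx : 1 < v x) (hxy : v y ^ 2 < v x ^ 3)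
    (hrel : κ * l ^ 5 = (V - U) * hk c x y + κ * (U * gq x y)) :
    v (hk c x y) = v l ^ 5 := by
  have hx0 : 0 < v x := lt_trans zero_lt_one hx
  have hlt : v y < v x ^ 2 := by
    by_contra h
    push Not at h
    have h1 : (v x ^ 2) ^ 2 ≤ v y ^ 2 := pow_le_pow_left₀ zero_le h 2
    rw [← pow_mul] at h1
    have h2 : v x ^ 3 ≤ v x ^ (2 * 2) := pow_le_pow_right₀ hx.le (by norm_num)
    exact absurd hxy (not_lt.2 (h2.trans h1))
  have hxx : v x ^ 2 < v x ^ 3 := pow_lt_pow_right₀ hx (by norm_num)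
  have hvxy : v (x * y) < v x ^ 3 := by
    rw [map_mul, pow_succ' (v x) 2]
    exact mul_lt_mul_of_pos_left hlt hx0
  have hg : v (gq x y) < v x ^ 3 := by
    unfold gq
    refine v.map_sub_lt (v.map_add_lt hvxy (hlt.trans hxx)) ?_
    rw [map_pow]; exact hxx
  have hh : v (hk c x y) = v x ^ 3 := by
    have e : hk c x y = -x ^ 3 + (y ^ 2 + x * y + c * gq x y) := by unfold hk; ring
    have h1 : v (-x ^ 3) = v x ^ 3 := by rw [Valuation.map_neg, map_pow]
    rw [e, ← h1]
    apply v.map_add_eq_of_lt_left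
    rw [h1]
    refine v.map_add_lt (v.map_add_lt (by rw [map_pow]; exact hxy) hvxy) ?_
    rw [map_mul, hvc, one_mul]; exact hg
  have hVh : v ((V - U) * hk c x y) = v (hk c x y) := by rw [map_mul, hVU, one_mul]
  have hl : v (κ * l ^ 5) = v l ^ 5 := by rw [map_mul, hκ, one_mul, map_pow]
  rw [← hl, hrel, ← hVh]
  symm
  apply v.map_add_eq_of_lt_left
  rw [hVh, hh, map_mul, map_mul, hκ, hU, one_mul, one_mul]
  exact hg

theorem map_nodeCof {R S : Type*} [CommRing R] [CommRing S] (f : R →+* S) (e x y : R) :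
    f (nodeCof e x y) = nodeCof (f e) (f x) (f y) := by
  simp only [nodeCof, map_add, map_sub, map_mul, map_neg, map_pow, map_ofNat]

end Horiz

open Horiz in
theorem horiz {L : Type*} [Field L] [Algebra ℂ L] (A : ValuationSubring L)
    (hC : ∀ z : ℂ, algebraMap ℂ L z ∈ A) (e : ℂ) (he : e ^ 2 + e = 1)
    (U V x y l : L) (hU : A.valuation U = 1) (hV : A.valuation V = 1)
    (hUV : A.valuation (V - U) = 1)
    (hcUV : A.valuation (algebraMap ℂ L (5 * e - 3) * V - algebraMap ℂ L (-8 - 5 * e) * U) = 1)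
    (hrel : algebraMap ℂ L (10 * e + 5) * l ^ 5 = V * hk (algebraMap ℂ L (5 * e - 3)) x y -
      U * hk (algebraMap ℂ L (-8 - 5 * e)) x y)
    (hh : hk (algebraMap ℂ L (5 * e - 3)) x y ≠ 0) :
    (∃ k : L, A.valuation (hk (algebraMap ℂ L (5 * e - 3)) x y) = A.valuation k ^ 5) ∨
      ∃ r : L, A.valuation (U - r ^ 5) < 1 := by
  have hCv : ∀ z : ℂ, z ≠ 0 → A.valuation (algebraMap ℂ L z) = 1 := by
    intro z hz
    apply le_antisymm ((A.valuation_le_one_iff _).mpr (hC z))
    have h1 : A.valuation (algebraMap ℂ L z⁻¹) ≤ 1 := (A.valuation_le_one_iff _).mpr (hC z⁻¹)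
    rw [map_inv₀, map_inv₀] at h1
    have h0 : A.valuation (algebraMap ℂ L z) ≠ 0 := by
      rw [Valuation.ne_zero_iff]
      exact fun h => hz ((map_eq_zero_iff _ (algebraMap ℂ L).injective).mp h)
    exact (inv_le_one₀ (zero_lt_iff.2 h0)).mp h1
  have he0 : e ≠ 0 := by rintro rfl; norm_num at he
  have he5 : e ^ 5 = 5 * e - 3 := by linear_combination (e ^ 3 - e ^ 2 + 2 * e - 3) * he
  have hκsq : (10 * e + 5) ^ 2 = 125 := by linear_combination 100 * he
  have hκne : (10 * e + 5 : ℂ) ≠ 0 := by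
    intro h; rw [h] at hκsq; norm_num at hκsq
  set E := algebraMap ℂ L e with hEdef
  have hE : E ^ 2 + E = 1 := by
    rw [hEdef, ← map_pow, ← map_add, he, map_one]
  have hvE : A.valuation E = 1 := hCv e he0
  have hc5 : algebraMap ℂ L (5 * e - 3) = E ^ 5 := by rw [← he5, map_pow]
  have hcE : algebraMap ℂ L (5 * e - 3) = 5 * E - 3 := by
    rw [map_sub, map_mul, map_ofNat, map_ofNat]
  have hvc : A.valuation (algebraMap ℂ L (5 * e - 3)) = 1 := by
    rw [hc5, map_pow, hvE, one_pow]
  have hκ : A.valuation (algebraMap ℂ L (10 * e + 5)) = 1 := hCv _ hκne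
  have hdiff : algebraMap ℂ L (10 * e + 5) =
      algebraMap ℂ L (5 * e - 3) - algebraMap ℂ L (-8 - 5 * e) := by
    rw [← map_sub]; congr 1; ring
  set c := algebraMap ℂ L (5 * e - 3) with hc
  set c2 := algebraMap ℂ L (-8 - 5 * e) with hc2
  set κ := algebraMap ℂ L (10 * e + 5) with hκdef
  have hrel' : κ * l ^ 5 = (V - U) * hk c x y + κ * (U * gq x y) := by
    rw [hrel, hdiff]; unfold hk; ring
  have hκ0 : κ ≠ 0 := by intro h; rw [h] at hκ; simp at hκ
  by_cases hx : A.valuation x ≤ 1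
  · by_cases hy : A.valuation y ≤ 1
    · -- the integral case
      have hg : A.valuation (gq x y) ≤ 1 := by
        unfold gq
        exact A.valuation.map_sub_le (A.valuation.map_add_le (mul_le _ hx hy) hy) (pow_le _ hx 2)
      have hhle : A.valuation (hk c x y) ≤ 1 := by
        have h1 : A.valuation (y ^ 2 + x * y - x ^ 3) ≤ 1 :=
          A.valuation.map_sub_le (A.valuation.map_add_le (pow_le _ hy 2) (mul_le _ hx hy))
            (pow_le _ hx 3)
        exact A.valuation.map_add_le h1 (mul_le _ hvc.le hg)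
      rcases eq_or_lt_of_le hhle with h | h
      · left; exact ⟨1, by rw [h, map_one, one_pow]⟩
      have hl5 : A.valuation (l ^ 5 - U * gq x y) < 1 := by
        have e1 : l ^ 5 - U * gq x y = (V - U) * hk c x y / κ := by
          rw [eq_div_iff hκ0]; linear_combination hrel'
        rw [e1, map_div₀, hκ, div_one]
        exact mul_lt _ hUV.le h
      have hnode : A.valuation ((y + E ^ 3 * x) ^ 5 - gq x y * (x + E ^ 4) ^ 5) < 1 := by
        rw [node_identity E x y hE, ← hcE]
        apply mul_lt' _ h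
        have hxA : x ∈ A := (A.valuation_le_one_iff _).mp hx
        have hyA : y ∈ A := (A.valuation_le_one_iff _).mp hy
        have hEA : E ∈ A := hC e
        have := map_nodeCof A.subtype (⟨E, hEA⟩ : A) ⟨x, hxA⟩ ⟨y, hyA⟩
        rw [A.valuation_le_one_iff]
        have h2 : nodeCof E x y = ((nodeCof (⟨E, hEA⟩ : A) ⟨x, hxA⟩ ⟨y, hyA⟩ : A) : L) := this.symm
        rw [h2]
        exact Subtype.coe_prop _
      have hale : A.valuation (x + E ^ 4) ≤ 1 :=
        A.valuation.map_add_le hx (pow_le _ hvE.le 4)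
      rcases eq_or_lt_of_le hale with ha | ha
      · rcases eq_or_lt_of_le hg with hg1 | hg1
        · right
          exact case_b _ E U x y l hU ha hg1 hnode hl5
        · -- `gq x y` is small
          have h5 := five_identity c x y
          set W := gq x y + x + 3 * x ^ 2 + c * (1 + x) ^ 2 with hW
          have h1x : A.valuation (1 + x) ≤ 1 := A.valuation.map_add_le (map_one _).le hx
          have h3 : A.valuation (3 : L) ≤ 1 := by
            have := hC 3
            rw [map_ofNat] at this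
            exact (A.valuation_le_one_iff _).mpr this
          have hWle : A.valuation W ≤ 1 :=
            A.valuation.map_add_le (A.valuation.map_add_le (A.valuation.map_add_le hg hx)
              (mul_le _ h3 (pow_le _ hx 2))) (mul_le _ hvc.le (pow_le _ h1x 2))
          have hx5 : A.valuation (x ^ 5) < 1 := by
            have e1 : x ^ 5 = gq x y * W - (1 + x) ^ 2 * hk c x y := by rw [h5]; ring
            rw [e1]
            exact A.valuation.map_sub_lt (mul_lt' _ hg1 hWle) (mul_lt _ (pow_le _ h1x 2) h)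
          have hx1 : A.valuation x < 1 := of_pow_lt _ hx5
          have hWc : A.valuation (W - c) < 1 := by
            have e1 : W - c = gq x y + x * (1 + 3 * x + c * (2 + x)) := by rw [hW]; ring
            rw [e1]
            refine A.valuation.map_add_lt hg1 (mul_lt' _ hx1 ?_)
            have h2 : A.valuation (2 : L) ≤ 1 := by
              have := hC 2
              rw [map_ofNat] at this
              exact (A.valuation_le_one_iff _).mpr this
            exact A.valuation.map_add_le (A.valuation.map_add_le (map_one _).le (mul_le _ h3 hx))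
              (mul_le _ hvc.le (A.valuation.map_add_le h2 hx))
          have hkey : hk c x y * ((V - U) * W + κ * (U * (1 + x) ^ 2)) =
              κ * (W * l ^ 5 - U * x ^ 5) := by
            linear_combination (-W) * hrel' + (κ * U) * h5
          have hunit : A.valuation ((V - U) * W + κ * (U * (1 + x) ^ 2)) = 1 := by
            have e1 : (V - U) * W + κ * (U * (1 + x) ^ 2) =
                (c * V - c2 * U) + ((V - U) * (W - c) + κ * (U * (x * (2 + x)))) := by
              rw [hdiff]; ring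
            rw [e1]
            apply unit_add _ hcUV
            refine A.valuation.map_add_lt (mul_lt _ hUV.le hWc) (mul_lt _ hκ.le
              (mul_lt _ hU.le (mul_lt' _ hx1 ?_)))
            have h2 : A.valuation (2 : L) ≤ 1 := by
              have := hC 2
              rw [map_ofNat] at this
              exact (A.valuation_le_one_iff _).mpr this
            exact A.valuation.map_add_le h2 hx
          have hval : A.valuation (hk c x y) = A.valuation (W * l ^ 5 - U * x ^ 5) := by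
            have := congrArg A.valuation hkey
            rwa [map_mul, hunit, mul_one, map_mul, hκ, one_mul] at this
          have hne : W * l ^ 5 - U * x ^ 5 ≠ 0 := by
            intro h0
            rw [h0, map_zero, Valuation.zero_iff] at hval
            exact hh hval
          rw [hval]
          exact case_c _ c E U W x l hc5 hvc hU hWc hne
      · right
        have hb : A.valuation (y + E ^ 3 * x) < 1 := by
          apply of_pow_lt _ (n := 5)
          have e1 : (y + E ^ 3 * x) ^ 5 = ((y + E ^ 3 * x) ^ 5 - gq x y * (x + E ^ 4) ^ 5) +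
              gq x y * (x + E ^ 4) ^ 5 := by ring
          rw [e1]
          exact A.valuation.map_add_lt hnode (mul_lt _ hg (pow_lt _ ha 4))
        exact case_a _ E U x y l hE hvE hU hx ha hb hl5
    · left
      push Not at hy
      refine ⟨l, case_e _ c κ U V x y l hvc hκ hU hUV hy ?_ hrel'⟩
      exact lt_of_le_of_lt (pow_le_one' hx 3) (one_lt_pow₀ hy (by norm_num))
  · push Not at hx
    rcases lt_trichotomy (A.valuation y ^ 2) (A.valuation x ^ 3) with h | h | h
    · left; exact ⟨l, case_f _ c κ U V x y l hvc hκ hU hUV hx h hrel'⟩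
    · exact case_d _ c κ U V x y l hvc hκ hU hUV hx h hrel'
    · left
      refine ⟨l, case_e _ c κ U V x y l hvc hκ hU hUV ?_ h hrel'⟩
      by_contra hy
      push Not at hy
      have h1 : A.valuation y ^ 2 ≤ 1 := pow_le_one' hy 2
      have h2 : 1 < A.valuation x ^ 3 := one_lt_pow₀ hx (by norm_num)
      exact absurd (h.trans_le h1) (not_lt.2 h2.le)

end Pool.Agent.Work.MP_c5a777_ag.Five

end

section

/-!
Bilinearity, symmetry and the Steinberg relation for the tame symbol modulo fifth powers.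
-/

set_option autoImplicit false
set_option linter.unusedSectionVars false
set_option linter.unusedVariables false

namespace Pool.Agent.Work.MP_c5a777_ag.Five

section F1

variable {L : Type*} [Field L] (A : ValuationSubring L)

namespace TL

theorem pi_lt {π : A} (hπ : Irreducible π) : A.valuation (π : L) < 1 := by
  rw [← A.valuation_lt_one_iff, IsLocalRing.mem_maximalIdeal]
  exact hπ.not_isUnit

theorem pi_ne {π : A} (hπ : Irreducible π) : ((π : A) : L) ≠ 0 := by
  intro h
  apply hπ.ne_zero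
  exact Subtype.ext h

theorem unit_ne (u : Aˣ) : ((u : A) : L) ≠ 0 := by
  intro h
  apply u.ne_zero
  exact Subtype.ext h

theorem res_ne (u : Aˣ) : IsLocalRing.residue A (u : A) ≠ 0 :=
  (u.isUnit.map (IsLocalRing.residue A)).ne_zero

theorem zpow_val_inj {π : A} (hπ : Irreducible π) {m n : ℤ}
    (h : A.valuation (π : L) ^ m = A.valuation (π : L) ^ n) : m = n := by
  have hp0 : A.valuation (π : L) ≠ 0 := (Valuation.ne_zero_iff _).mpr (pi_ne A hπ)
  have hp1 := pi_lt A hπ
  rcases lt_trichotomy m n with h1 | h1 | h1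
  · exact absurd h (zpow_lt_zpow_right_of_lt_one₀ (zero_lt_iff.mpr hp0) hp1 h1).ne'
  · exact h1
  · exact absurd h (zpow_lt_zpow_right_of_lt_one₀ (zero_lt_iff.mpr hp0) hp1 h1).ne

theorem val_dec {π : A} (u : Aˣ) (m : ℤ) :
    A.valuation (((u : A) : L) * ((π : A) : L) ^ m) = A.valuation (π : L) ^ m := by
  rw [map_mul, A.valuation_unit u, one_mul, map_zpow₀]

theorem dec_unique {π : A} (hπ : Irreducible π) {u u' : Aˣ} {m m' : ℤ}
    (h : ((u : A) : L) * ((π : A) : L) ^ m = ((u' : A) : L) * ((π : A) : L) ^ m') :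
    m = m' ∧ u = u' := by
  have h1 : m = m' := by
    apply zpow_val_inj A hπ
    rw [← val_dec A u m, h, val_dec]
  refine ⟨h1, ?_⟩
  subst h1
  have h2 := mul_right_cancel₀ (zpow_ne_zero m (pi_ne A hπ)) h
  exact Units.ext (Subtype.ext h2)

theorem dec_exists [IsDiscreteValuationRing A] {π : A} (hπ : Irreducible π) {a : L}
    (ha : a ≠ 0) : ∃ (u : Aˣ) (m : ℤ), a = ((u : A) : L) * ((π : A) : L) ^ m := by
  rcases A.mem_or_inv_mem a with h | h
  · have hx : (⟨a, h⟩ : A) ≠ 0 := by
      intro h0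
      exact ha (congrArg Subtype.val h0)
    obtain ⟨n, u, hu⟩ := IsDiscreteValuationRing.eq_unit_mul_pow_irreducible hx hπ
    refine ⟨u, n, ?_⟩
    have := congrArg Subtype.val hu
    rw [zpow_natCast]
    simpa using this
  · have hx : (⟨a⁻¹, h⟩ : A) ≠ 0 := by
      intro h0
      exact inv_ne_zero ha (congrArg Subtype.val h0)
    obtain ⟨n, u, hu⟩ := IsDiscreteValuationRing.eq_unit_mul_pow_irreducible hx hπ
    refine ⟨u⁻¹, -n, ?_⟩
    have h1 : a⁻¹ = ((u : A) : L) * ((π : A) : L) ^ n := by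
      have := congrArg Subtype.val hu
      simpa using this
    have h2 : (((u⁻¹ : Aˣ) : A) : L) = (((u : A) : L))⁻¹ := by
      have h3 : ((u : A) : L) * (((u⁻¹ : Aˣ) : A) : L) = 1 := by
        exact congrArg Subtype.val (u.mul_inv)
      exact eq_inv_of_mul_eq_one_right h3
    rw [h2, zpow_neg, zpow_natCast, ← mul_inv, ← h1, inv_inv]

theorem neg_one_fifth {F : Type*} [Field F] (k : ℤ) : (((-1 : F)) ^ k) ^ 5 = (-1) ^ k := by
  rcases Int.even_or_odd k with h | h
  · rw [h.neg_one_zpow, one_pow]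
  · rw [h.neg_one_zpow]; norm_num

theorem res_eq {u u' : A} (h : A.valuation ((u : L) - (u' : L)) < 1) :
    IsLocalRing.residue A u = IsLocalRing.residue A u' := by
  rw [← sub_eq_zero, ← map_sub, IsLocalRing.residue_eq_zero_iff, A.valuation_lt_one_iff]
  simpa using h

theorem val_inv_unit (u : Aˣ) : (((u⁻¹ : Aˣ) : A) : L) = (((u : A) : L))⁻¹ := by
  have h3 : ((u : A) : L) * (((u⁻¹ : Aˣ) : A) : L) = 1 := by
    exact congrArg Subtype.val (u.mul_inv)
  exact eq_inv_of_mul_eq_one_right h3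

theorem res_inv_unit (u : Aˣ) :
    IsLocalRing.residue A ((u⁻¹ : Aˣ) : A) = (IsLocalRing.residue A (u : A))⁻¹ := by
  have h3 : IsLocalRing.residue A (u : A) * IsLocalRing.residue A ((u⁻¹ : Aˣ) : A) = 1 := by
    rw [← map_mul, u.mul_inv, map_one]
  exact eq_inv_of_mul_eq_one_right h3

end TL

open TL

variable [IsDiscreteValuationRing A]

theorem tf_mul_left {a a' b : L} (ha : a ≠ 0) (ha' : a' ≠ 0) (hb : b ≠ 0)
    (h : TameFifth A a b) (h' : TameFifth A a' b) : TameFifth A (a * a') b := by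
  intro π s w m n hπ hs hw
  obtain ⟨u1, m1, h1⟩ := dec_exists A hπ ha
  obtain ⟨u2, m2, h2⟩ := dec_exists A hπ ha'
  obtain ⟨r1, hr1⟩ := h π u1 w m1 n hπ h1 hw
  obtain ⟨r2, hr2⟩ := h' π u2 w m2 n hπ h2 hw
  have hdec : ((s : A) : L) * ((π : A) : L) ^ m =
      (((u1 * u2 : Aˣ) : A) : L) * ((π : A) : L) ^ (m1 + m2) := by
    rw [← hs, h1, h2, zpow_add₀ (pi_ne A hπ)]
    push_cast
    ring
  obtain ⟨hm, hsu⟩ := dec_unique A hπ hdec
  refine ⟨r1 * r2, ?_⟩
  have hw0 := res_ne A w
  rw [mul_pow, hr1, hr2, hm, hsu, Units.val_mul, map_mul, mul_zpow, add_mul,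
    zpow_add₀ (by norm_num : (-1 : IsLocalRing.ResidueField A) ≠ 0), neg_add,
    zpow_add₀ hw0]
  ring

theorem tf_symm {a b : L} (ha : a ≠ 0) (hb : b ≠ 0) (h : TameFifth A a b) :
    TameFifth A b a := by
  intro π s w m n hπ hs hw
  obtain ⟨r, hr⟩ := h π w s n m hπ hw hs
  refine ⟨r⁻¹, ?_⟩
  rw [inv_pow, hr, mul_inv, mul_inv, ← zpow_neg, ← zpow_neg, ← zpow_neg, neg_neg]
  have e : (-1 : IsLocalRing.ResidueField A) ^ (-(n * m)) = (-1) ^ (m * n) := by
    rw [zpow_neg, mul_comm n m]
    rcases Int.even_or_odd (m * n) with h | h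
    · rw [h.neg_one_zpow, inv_one]
    · rw [h.neg_one_zpow]; norm_num
  rw [e]
  ring

theorem tf_inv_left {a b : L} (ha : a ≠ 0) (hb : b ≠ 0) (h : TameFifth A a b) :
    TameFifth A a⁻¹ b := by
  intro π s w m n hπ hs hw
  have h1 : a = (((s⁻¹ : Aˣ) : A) : L) * ((π : A) : L) ^ (-m) := by
    rw [val_inv_unit, zpow_neg, ← mul_inv, ← hs, inv_inv]
  obtain ⟨r, hr⟩ := h π s⁻¹ w (-m) n hπ h1 hw
  refine ⟨r⁻¹, ?_⟩
  rw [inv_pow, hr, res_inv_unit, mul_inv, mul_inv, inv_zpow, inv_inv, neg_neg, ← zpow_neg,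
    ← zpow_neg]
  congr 2
  congr 1
  ring

theorem tf_pow_five {a b : L} (ha : a ≠ 0) (hb : b ≠ 0) : TameFifth A (a ^ 5) b := by
  intro π s w m n hπ hs hw
  obtain ⟨u, k, h1⟩ := dec_exists A hπ ha
  have hdec : ((s : A) : L) * ((π : A) : L) ^ m =
      (((u ^ 5 : Aˣ) : A) : L) * ((π : A) : L) ^ (k * 5) := by
    rw [← hs, h1, mul_pow, ← zpow_natCast (((π : A) : L) ^ k), ← zpow_mul]
    push_cast
    ring
  obtain ⟨hm, hsu⟩ := dec_unique A hπ hdec
  refine ⟨(-1) ^ (k * n) * (IsLocalRing.residue A (u : A)) ^ n *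
        (IsLocalRing.residue A (w : A)) ^ (-k), ?_⟩
  rw [mul_pow, mul_pow, hm, hsu, Units.val_pow_eq_pow_val, map_pow]
  congr 1
  · congr 1
    · rw [← zpow_natCast, ← zpow_mul]
      congr 1
      push_cast
      ring
    · rw [← zpow_natCast, ← zpow_natCast, ← zpow_mul, ← zpow_mul, mul_comm]
  · rw [← zpow_natCast, ← zpow_mul]
    congr 1
    push_cast
    ring

theorem tf_self {a : L} (ha : a ≠ 0) : TameFifth A a a := by
  intro π s w m n hπ hs hw
  obtain ⟨hm, hsu⟩ := dec_unique A hπ (hs.symm.trans hw)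
  subst hm
  subst hsu
  refine ⟨(-1) ^ (m * m), ?_⟩
  rw [neg_one_fifth, mul_assoc, ← zpow_add₀ (res_ne A s), add_neg_cancel, zpow_zero, mul_one]

theorem tf_unit_fifth {a b : L} (hb : b ≠ 0) (hv : A.valuation a = 1) (r : L)
    (hr : A.valuation (a - r ^ 5) < 1) : TameFifth A a b := by
  intro π s w m n hπ hs hw
  have hm : m = 0 := by
    apply zpow_val_inj A hπ
    rw [zpow_zero, ← hv, hs, val_dec]
  subst hm
  rw [zpow_zero, mul_one] at hs
  have hr1 : A.valuation r ≤ 1 := by
    by_contra hc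
    push Not at hc
    have h1 : 1 < A.valuation (r ^ 5) := by
      rw [map_pow]
      exact one_lt_pow' hc (by norm_num)
    have h2 : A.valuation (a - r ^ 5) = A.valuation (r ^ 5) := by
      exact Valuation.map_sub_eq_of_lt_right _ (by rw [hv]; exact h1)
    rw [h2] at hr
    exact absurd hr (not_lt.2 h1.le)
  have hrA : r ∈ A := A.mem_of_valuation_le_one r hr1
  refine ⟨(IsLocalRing.residue A ⟨r, hrA⟩) ^ n, ?_⟩
  have h3 : IsLocalRing.residue A (s : A) = IsLocalRing.residue A ((⟨r, hrA⟩ : A) ^ 5) := by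
    apply res_eq
    rw [← hs]
    simpa using hr
  rw [h3, map_pow, zero_mul, zpow_zero, neg_zero, zpow_zero, one_mul, mul_one,
    ← zpow_natCast, ← zpow_natCast, ← zpow_mul, ← zpow_mul, mul_comm]

theorem exp_five {π : A} (hπ : Irreducible π) {k : L} (hk : k ≠ 0) (n : ℤ)
    (h : A.valuation (π : L) ^ n = A.valuation k ^ 5) : ∃ q : ℤ, n = q * 5 := by
  obtain ⟨u, q, hq⟩ := dec_exists A hπ hk
  refine ⟨q, zpow_val_inj A hπ ?_⟩
  rw [h, hq, val_dec, ← zpow_natCast, ← zpow_mul]
  norm_num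

theorem tf_unit_pow {a b k : L} (hb : b ≠ 0) (hv : A.valuation a = 1)
    (hk : A.valuation b = A.valuation k ^ 5) : TameFifth A a b := by
  intro π s w m n hπ hs hw
  have hm : m = 0 := by
    apply zpow_val_inj A hπ
    rw [zpow_zero, ← hv, hs, val_dec]
  subst hm
  have hk0 : k ≠ 0 := by
    rintro rfl
    rw [map_zero, zero_pow (by norm_num)] at hk
    exact (Valuation.ne_zero_iff _).mpr hb hk
  obtain ⟨q, hq⟩ := exp_five A hπ hk0 n (by rw [← hk, hw, val_dec])
  refine ⟨(IsLocalRing.residue A (s : A)) ^ q, ?_⟩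
  rw [zero_mul, zpow_zero, neg_zero, zpow_zero, one_mul, mul_one, hq, ← zpow_natCast,
    ← zpow_mul]
  norm_num

theorem tf_steinberg {a b : L} (ha : a ≠ 0) (hb : b ≠ 0) (h : a + b = 1) :
    TameFifth A a b := by
  intro π s w m n hπ hs hw
  have hp0 : A.valuation (π : L) ≠ 0 := (Valuation.ne_zero_iff _).mpr (pi_ne A hπ)
  have hp1 := pi_lt A hπ
  have hb' : b = 1 - a := by rw [← h]; ring
  have ha' : a = 1 - b := by rw [← h]; ring
  have hva : A.valuation a = A.valuation (π : L) ^ m := by rw [hs, val_dec]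
  have hvb : A.valuation b = A.valuation (π : L) ^ n := by rw [hw, val_dec]
  rcases lt_trichotomy (A.valuation a) 1 with h1 | h1 | h1
  · -- v(a) > 0 : b is a 1-unit
    have h2 : A.valuation b = 1 := by
      rw [hb']
      have : A.valuation (1 - a) = A.valuation (1 : L) :=
        Valuation.map_sub_eq_of_lt_left _ (by rw [map_one]; exact h1)
      rw [this, map_one]
    have hn : n = 0 := by
      apply zpow_val_inj A hπ
      rw [zpow_zero, ← hvb, h2]
    subst hn
    rw [zpow_zero, mul_one] at hw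
    have h3 : IsLocalRing.residue A (w : A) = 1 := by
      rw [← map_one (IsLocalRing.residue A)]
      apply res_eq
      rw [← hw, hb']
      have e : (1 - a) - ((1 : A) : L) = -a := by push_cast; ring
      rw [e, Valuation.map_neg]
      exact h1
    refine ⟨1, ?_⟩
    rw [h3, mul_zero, zpow_zero, zpow_zero, one_zpow]
    norm_num
  · -- v(a) = 0
    have hm : m = 0 := by
      apply zpow_val_inj A hπ
      rw [zpow_zero, ← hva, h1]
    subst hm
    rw [zpow_zero, mul_one] at hs
    have h2 : A.valuation b ≤ 1 := by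
      rw [hb']
      refine (Valuation.map_sub _ _ _).trans ?_
      rw [map_one, h1, max_self]
    rcases h2.lt_or_eq with h4 | h4
    · have h3 : IsLocalRing.residue A (s : A) = 1 := by
        rw [← map_one (IsLocalRing.residue A)]
        apply res_eq
        rw [← hs]
        have e : a - ((1 : A) : L) = -b := by rw [ha']; push_cast; ring
        rw [e, Valuation.map_neg]
        exact h4
      refine ⟨1, ?_⟩
      rw [h3, zero_mul, zpow_zero, one_zpow, neg_zero, zpow_zero]
      norm_num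
    · have hn : n = 0 := by
        apply zpow_val_inj A hπ
        rw [zpow_zero, ← hvb, h4]
      subst hn
      refine ⟨1, ?_⟩
      rw [zero_mul, zpow_zero, zpow_zero, neg_zero, zpow_zero]
      norm_num
  · -- v(a) < 0
    have h2 : A.valuation b = A.valuation a := by
      rw [hb']
      exact Valuation.map_sub_eq_of_lt_right _ (by rw [map_one]; exact h1)
    have hmn : n = m := by
      apply zpow_val_inj A hπ
      rw [← hvb, h2, hva]
    subst hmn
    have h3 : IsLocalRing.residue A (w : A) = -IsLocalRing.residue A (s : A) := by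
      rw [← map_neg]
      apply res_eq
      have hpn : ((π : A) : L) ^ n ≠ 0 := zpow_ne_zero n (pi_ne A hπ)
      have e : ((w : A) : L) - ((-(s : A) : A) : L) = (((π : A) : L) ^ n)⁻¹ := by
        have e2 : (((w : A) : L) + ((s : A) : L)) * ((π : A) : L) ^ n = 1 := by
          rw [add_mul, ← hw, ← hs, add_comm, h]
        push_cast
        rw [sub_neg_eq_add]
        exact eq_inv_of_mul_eq_one_left e2
      rw [e, map_inv₀, map_zpow₀, ← hva]
      exact inv_lt_one_of_one_lt₀ h1
    refine ⟨(-1) ^ (n * n) * (-1) ^ (-n), ?_⟩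
    have hs0 := res_ne A s
    have e3 : (-IsLocalRing.residue A (s : A)) ^ (-n) =
        (-1) ^ (-n) * (IsLocalRing.residue A (s : A)) ^ (-n) := by
      rw [← mul_zpow, neg_one_mul]
    rw [h3, e3, mul_pow, neg_one_fifth, neg_one_fifth]
    have e4 : (IsLocalRing.residue A (s : A)) ^ n * (IsLocalRing.residue A (s : A)) ^ (-n) = 1 := by
      rw [← zpow_add₀ hs0, add_neg_cancel, zpow_zero]
    calc (-1 : IsLocalRing.ResidueField A) ^ (n * n) * (-1) ^ (-n)
        = (-1) ^ (n * n) * (-1) ^ (-n) *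
          ((IsLocalRing.residue A (s : A)) ^ n * (IsLocalRing.residue A (s : A)) ^ (-n)) := by
          rw [e4, mul_one]
      _ = _ := by ring

/-- consequences -/
theorem tf_mul_right {a b b' : L} (ha : a ≠ 0) (hb : b ≠ 0) (hb' : b' ≠ 0)
    (h : TameFifth A a b) (h' : TameFifth A a b') : TameFifth A a (b * b') :=
  tf_symm A (mul_ne_zero hb hb') ha
    (tf_mul_left A hb hb' ha (tf_symm A ha hb h) (tf_symm A ha hb' h'))

theorem tf_inv_right {a b : L} (ha : a ≠ 0) (hb : b ≠ 0) (h : TameFifth A a b) :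
    TameFifth A a b⁻¹ :=
  tf_symm A (inv_ne_zero hb) ha (tf_inv_left A hb ha (tf_symm A ha hb h))

end F1

end Pool.Agent.Work.MP_c5a777_ag.Five

end

section

/-!
The symbol `(g, (1 + x)² h_c)` is unramified at every discrete valuation ring.
-/

namespace Pool.Agent.Work.MP_c5a777_ag.Five

namespace GH

section val

variable {L : Type*} [Field L] (A : ValuationSubring L)

theorem sm_add {a b : L} (ha : A.valuation a < 1) (hb : A.valuation b < 1) :
    A.valuation (a + b) < 1 := A.valuation.map_add_lt ha hb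

theorem sm_neg {a : L} (ha : A.valuation a < 1) : A.valuation (-a) < 1 := by
  rwa [Valuation.map_neg]

theorem sm_sub {a b : L} (ha : A.valuation a < 1) (hb : A.valuation b < 1) :
    A.valuation (a - b) < 1 := by
  rw [sub_eq_add_neg]; exact sm_add A ha (sm_neg A hb)

theorem sm_mem {a : L} (ha : A.valuation a < 1) : a ∈ A := A.mem_of_valuation_le_one a ha.le

theorem sm_mul_left {a b : L} (ha : a ∈ A) (hb : A.valuation b < 1) :
    A.valuation (a * b) < 1 := by
  rw [map_mul]
  exact lt_of_le_of_lt (mul_le_of_le_one_left' ((A.valuation_le_one_iff a).mpr ha)) hb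

theorem sm_mul_right {a b : L} (ha : A.valuation a < 1) (hb : b ∈ A) :
    A.valuation (a * b) < 1 := by
  rw [mul_comm]; exact sm_mul_left A hb ha

theorem sm_pow {a : L} (ha : A.valuation a < 1) {n : ℕ} (hn : n ≠ 0) :
    A.valuation (a ^ n) < 1 := by
  obtain ⟨k, rfl⟩ := Nat.exists_eq_succ_of_ne_zero hn
  rw [pow_succ]
  exact sm_mul_left A (pow_mem (sm_mem A ha) k) ha

theorem sm_of_pow {a : L} {n : ℕ} (ha : A.valuation (a ^ n) < 1) : A.valuation a < 1 := by
  rw [map_pow] at ha
  by_contra h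
  push Not at h
  exact absurd ha (not_lt.2 (one_le_pow_of_one_le' h n))

theorem un_add {a b : L} (ha : A.valuation a = 1) (hb : A.valuation b < 1) :
    A.valuation (a + b) = 1 := by
  rw [A.valuation.map_add_eq_of_lt_left (by rw [ha]; exact hb), ha]

theorem un_ne {a : L} (ha : A.valuation a = 1) : a ≠ 0 := by
  rintro rfl; simp at ha

theorem un_of_pow {a : L} {n : ℕ} (hn : n ≠ 0) (h : A.valuation (a ^ n) = 1) :
    A.valuation a = 1 := by
  rw [map_pow] at h
  exact (pow_eq_one_iff.mp h).resolve_right hn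

theorem sm_inv {a : L} (ha : 1 < A.valuation a) : A.valuation a⁻¹ < 1 := by
  rw [map_inv₀]
  exact inv_lt_one_of_one_lt₀ ha

theorem one_add_ne {s : L} (hs : A.valuation s < 1) : (1 : L) + s ≠ 0 :=
  un_ne A (un_add A (map_one _) hs)

variable [IsDiscreteValuationRing A]

theorem tf_one_unit {s b : L} (hs : A.valuation s < 1) (hb : b ≠ 0) :
    TameFifth A (1 + s) b := by
  apply tf_unit_fifth A hb (un_add A (map_one _) hs) 1
  have e : (1 : L) + s - 1 ^ 5 = s := by ring
  rw [e]; exact hs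

theorem approx_left {a a' s b : L} (ha' : a' ≠ 0) (hs : A.valuation s < 1) (hb : b ≠ 0)
    (e : a = a' * (1 + s)) (hT : TameFifth A a' b) : TameFifth A a b := by
  rw [e]
  exact tf_mul_left A ha' (one_add_ne A hs) hb hT (tf_one_unit A hs hb)

theorem approx_right {a b b' s : L} (ha : a ≠ 0) (hs : A.valuation s < 1) (hb' : b' ≠ 0)
    (e : b = b' * (1 + s)) (hT : TameFifth A a b') : TameFifth A a b := by
  rw [e]
  exact tf_mul_right A ha hb' (one_add_ne A hs) hT
    (tf_symm A (one_add_ne A hs) ha (tf_one_unit A hs ha))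

/-- `T(z (1 + s), z² (1 + t))` is trivial -/
theorem approx_sq {z s t a b : L} (hz : z ≠ 0) (hs : A.valuation s < 1)
    (ht : A.valuation t < 1) (ea : a = z * (1 + s)) (eb : b = z ^ 2 * (1 + t)) :
    TameFifth A a b := by
  have hz2 : z ^ 2 ≠ 0 := pow_ne_zero 2 hz
  have hb : b ≠ 0 := by rw [eb]; exact mul_ne_zero hz2 (one_add_ne A ht)
  apply approx_left A hz hs hb ea
  apply approx_right A hz ht hz2 eb
  rw [pow_two]
  exact tf_mul_right A hz hz hz (tf_self A hz) (tf_self A hz)

/-- `x` has a pole and `v(y)² < v(x)³` -/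
theorem case_iii (k x y : L) (hk1 : k ∈ A) (hg : gq x y ≠ 0) (hx : 1 < A.valuation x)
    (hlt : A.valuation y ^ 2 < A.valuation x ^ 3) :
    TameFifth A (gq x y) ((1 + x) ^ 2 * hk k x y) := by
  have hx0 : x ≠ 0 := by rintro rfl; simp at hx
  have hvx0 : 0 < A.valuation x := lt_trans zero_lt_one hx
  have hc : A.valuation x⁻¹ < 1 := sm_inv A hx
  have ha : A.valuation (y ^ 2 / x ^ 3) < 1 := by
    rw [map_div₀, map_pow, map_pow]
    exact (div_lt_one₀ (pow_pos hvx0 3)).mpr hlt
  have hb : A.valuation (y / x ^ 2) < 1 := by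
    apply sm_of_pow A (n := 2)
    have e : (y / x ^ 2) ^ 2 = (y ^ 2 / x ^ 3) * x⁻¹ := by field_simp
    rw [e]
    exact sm_mul_left A (sm_mem A ha) hc
  set a := y ^ 2 / x ^ 3 with hadef
  set b := y / x ^ 2 with hbdef
  set c := x⁻¹ with hcdef
  have hw : A.valuation (a + b + k * (b + b * c - c)) < 1 :=
    sm_add A (sm_add A ha hb) (sm_mul_left A hk1
      (sm_sub A (sm_add A hb (sm_mul_left A (sm_mem A hb) hc)) hc))
  have hs : A.valuation ((2 * c + c ^ 2) - (1 + c) ^ 2 * (a + b + k * (b + b * c - c))) < 1 := by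
    have h2 : (2 : L) ∈ A := ofNat_mem A 2
    refine sm_sub A (sm_add A (sm_mul_left A h2 hc) (sm_pow A hc two_ne_zero))
      (sm_mul_left A (pow_mem (add_mem (one_mem A) (sm_mem A hc)) 2) hw)
  apply approx_right A hg hs (b' := (-x) ^ 5) (pow_ne_zero 5 (neg_ne_zero.mpr hx0))
  · rw [hadef, hbdef, hcdef]
    unfold hk gq
    field_simp
    ring
  · exact tf_symm A (pow_ne_zero 5 (neg_ne_zero.mpr hx0)) hg
      (tf_pow_five A (neg_ne_zero.mpr hx0) hg)

/-- `x` has a pole and `v(y)² = v(x)³` -/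
theorem case_iv (k x y : L) (hk1 : k ∈ A) (hH : (1 + x) ^ 2 * hk k x y ≠ 0)
    (hx : 1 < A.valuation x) (heq : A.valuation y ^ 2 = A.valuation x ^ 3) :
    TameFifth A (gq x y) ((1 + x) ^ 2 * hk k x y) := by
  have hx0 : x ≠ 0 := by rintro rfl; simp at hx
  have hvx0 : 0 < A.valuation x := lt_trans zero_lt_one hx
  have hy0 : y ≠ 0 := by
    rintro rfl
    rw [map_zero, zero_pow two_ne_zero] at heq
    exact (pow_pos hvx0 3).ne heq
  have hc : A.valuation x⁻¹ < 1 := sm_inv A hx
  have hr : A.valuation (x ^ 3 / y ^ 2) = 1 := by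
    rw [map_div₀, map_pow, map_pow, heq]
    exact div_self (pow_pos hvx0 3).ne'
  have hr' : A.valuation (y ^ 2 / x ^ 3) = 1 := by
    rw [map_div₀, map_pow, map_pow, heq]
    exact div_self (pow_pos hvx0 3).ne'
  have hm : A.valuation (x / y) < 1 := by
    apply sm_of_pow A (n := 2)
    have e : (x / y) ^ 2 = (x ^ 3 / y ^ 2) * x⁻¹ := by field_simp
    rw [e]
    exact sm_mul_left A ((A.valuation_le_one_iff _).mp hr.le) hc
  have hb : A.valuation (y / x ^ 2) < 1 := by
    have e : y / x ^ 2 = (y ^ 2 / x ^ 3) * (x / y) := by field_simp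
    rw [e]
    exact sm_mul_left A ((A.valuation_le_one_iff _).mp hr'.le) hm
  have hn0 : y / x ≠ 0 := div_ne_zero hy0 hx0
  set c := x⁻¹ with hcdef
  set ρ := x ^ 3 / y ^ 2 with hρdef
  set τ := y ^ 2 / x ^ 3 with hτdef
  set m := x / y with hmdef
  set b := y / x ^ 2 with hbdef
  have hρA : ρ ∈ A := (A.valuation_le_one_iff _).mp hr.le
  have hτA : τ ∈ A := (A.valuation_le_one_iff _).mp hr'.le
  have hcm : A.valuation (c - m) < 1 := sm_sub A hc hm
  have hg1 : gq x y = (y / x) ^ 5 * (ρ ^ 2 * (1 + (c - m))) := by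
    rw [hρdef, hcdef, hmdef]
    unfold gq
    field_simp
    ring
  have hd : A.valuation (b + k * (b + b * c - c)) < 1 :=
    sm_add A hb (sm_mul_left A hk1
      (sm_sub A (sm_add A hb (sm_mul_left A (sm_mem A hb) hc)) hc))
  have hH1 : (1 + x) ^ 2 * hk k x y =
      x ^ 5 * ((1 + c) ^ 2 * ((τ - 1) + (b + k * (b + b * c - c)))) := by
    rw [hτdef, hcdef, hbdef]
    unfold hk gq
    field_simp
    ring
  have hthA : τ - 1 ∈ A := sub_mem hτA (one_mem A)
  rcases eq_or_lt_of_le ((A.valuation_le_one_iff _).mpr hthA) with h1 | h1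
  · -- `τ - 1` is a unit
    have hu1 : A.valuation (ρ ^ 2 * (1 + (c - m))) = 1 := by
      rw [map_mul, map_pow, hr, one_pow, one_mul]
      exact un_add A (map_one _) hcm
    have hvH : A.valuation ((1 + x) ^ 2 * hk k x y) = A.valuation x ^ 5 := by
      rw [hH1, map_mul, map_mul, map_pow, map_pow, un_add A (map_one _) hc,
        un_add A h1 hd, one_pow, one_mul, mul_one]
    rw [hg1]
    exact tf_mul_left A (pow_ne_zero 5 hn0) (un_ne A hu1) hH (tf_pow_five A hn0 hH)
      (tf_unit_pow A hH hu1 hvH)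
  · -- `τ = 1` modulo the maximal ideal
    have hρ1 : A.valuation (ρ - 1) < 1 := by
      have e : ρ - 1 = -(ρ * (τ - 1)) := by
        rw [hρdef, hτdef]; field_simp; ring
      rw [e]
      exact sm_neg A (sm_mul_left A hρA h1)
    have hs : A.valuation ((ρ - 1) * (ρ + 1) + ρ ^ 2 * (c - m)) < 1 :=
      sm_add A (sm_mul_right A hρ1 (add_mem hρA (one_mem A)))
        (sm_mul_left A (pow_mem hρA 2) hcm)
    apply approx_left A (pow_ne_zero 5 hn0) hs hH
    · rw [hg1]; ring
    · exact tf_pow_five A hn0 hH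

/-- `y` has a pole and `v(x)³ < v(y)²` -/
theorem case_ii (k x y : L) (hk1 : k ∈ A) (hg : gq x y ≠ 0)
    (hH : (1 + x) ^ 2 * hk k x y ≠ 0) (hx1 : 1 + x ≠ 0)
    (hy : 1 < A.valuation y) (hlt : A.valuation x ^ 3 < A.valuation y ^ 2) :
    TameFifth A (gq x y) ((1 + x) ^ 2 * hk k x y) := by
  have hy0 : y ≠ 0 := by rintro rfl; simp at hy
  have hvy0 : 0 < A.valuation y := lt_trans zero_lt_one hy
  have hb : A.valuation y⁻¹ < 1 := sm_inv A hy
  have hc : A.valuation (x ^ 3 / y ^ 2) < 1 := by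
    rw [map_div₀, map_pow, map_pow]
    exact (div_lt_one₀ (pow_pos hvy0 2)).mpr hlt
  have ha : A.valuation (x / y) < 1 := by
    apply sm_of_pow A (n := 3)
    have e : (x / y) ^ 3 = (x ^ 3 / y ^ 2) * y⁻¹ := by field_simp
    rw [e]
    exact sm_mul_left A (sm_mem A hc) hb
  have hz0 : y * (1 + x) ≠ 0 := mul_ne_zero hy0 hx1
  have hw : A.valuation (x / y - x ^ 3 / y ^ 2 + k * (x / y + y⁻¹ - (x / y) ^ 2)) < 1 :=
    sm_add A (sm_sub A ha hc) (sm_mul_left A hk1
      (sm_sub A (sm_add A ha hb) (sm_pow A ha two_ne_zero)))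
  have hH1 : (1 + x) ^ 2 * hk k x y = (y * (1 + x)) ^ 2 *
      (1 + (x / y - x ^ 3 / y ^ 2 + k * (x / y + y⁻¹ - (x / y) ^ 2))) := by
    unfold hk gq
    field_simp
    ring
  have hg1 : gq x y = (y * (1 + x)) * (1 + -(x ^ 2 / (y * (1 + x)))) := by
    unfold gq
    field_simp
    ring
  by_cases hcase : A.valuation (x / (1 + x)) ≤ 1
  · -- the easy case
    have hs : A.valuation (-(x ^ 2 / (y * (1 + x)))) < 1 := by
      have e : x ^ 2 / (y * (1 + x)) = (x / (1 + x)) * (x / y) := by field_simp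
      rw [e]
      exact sm_neg A (sm_mul_left A ((A.valuation_le_one_iff _).mp hcase) ha)
    exact approx_sq A hz0 hs hw hg1 hH1
  · -- `x = -1` modulo the maximal ideal
    have hxle : A.valuation x ≤ 1 := by
      by_contra hxgt
      push Not at hxgt
      apply hcase
      have hx0 : x ≠ 0 := by rintro rfl; simp at hxgt
      have e : x / (1 + x) = (1 + x⁻¹)⁻¹ := by
        rw [← inv_div]
        congr 1
        field_simp
        ring
      rw [e, map_inv₀, un_add A (map_one _) (sm_inv A hxgt), inv_one]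
    have hxA : x ∈ A := (A.valuation_le_one_iff _).mp hxle
    have h1x : A.valuation (1 + x) < 1 := by
      have hle : A.valuation (1 + x) ≤ 1 :=
        (A.valuation_le_one_iff _).mpr (add_mem (one_mem A) hxA)
      rcases eq_or_lt_of_le hle with h | h
      · exfalso
        apply hcase
        rw [map_div₀, h, div_one]
        exact hxle
      · exact h
    have hx2 : A.valuation ((1 - x) * (1 + x)) < 1 :=
      sm_mul_left A (sub_mem (one_mem A) hxA) h1x
    rcases lt_trichotomy (A.valuation (y * (1 + x))) 1 with hz | hz | hz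
    · -- `z` small
      have e1 : gq x y = -1 + (y * (1 + x) + (1 - x) * (1 + x)) := by unfold gq; ring
      have hsm := sm_add A hz hx2
      apply tf_unit_fifth A hH _ (-1)
      · have e2 : gq x y - (-1) ^ 5 = y * (1 + x) + (1 - x) * (1 + x) := by
          unfold gq; ring
        rw [e2]; exact hsm
      · rw [e1]
        apply un_add A _ hsm
        rw [Valuation.map_neg, map_one]
    · -- `z` a unit
      set z := y * (1 + x) with hzdef
      have hzA : z ∈ A := (A.valuation_le_one_iff _).mp hz.le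
      have hgA : gq x y ∈ A := by
        have e : gq x y = z - x ^ 2 := by rw [hzdef]; unfold gq; ring
        rw [e]
        exact sub_mem hzA (pow_mem hxA 2)
      rcases eq_or_lt_of_le ((A.valuation_le_one_iff _).mpr hgA) with h1 | h1
      · apply tf_unit_pow A hH h1 (k := 1)
        rw [hH1, map_mul, map_pow, hz, one_pow, one_mul, un_add A (map_one _) hw,
          map_one, one_pow]
      · apply tf_symm A hH hg
        have hz1 : A.valuation (z - 1) < 1 := by
          have e : z - 1 = gq x y - (1 - x) * (1 + x) := by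
            rw [hzdef]; unfold gq; ring
          rw [e]
          exact sm_sub A h1 hx2
        apply tf_unit_fifth A hg _ 1
        · have e : (1 + x) ^ 2 * hk k x y - 1 ^ 5 = (z + 1) * (z - 1) + z ^ 2 *
              (x / y - x ^ 3 / y ^ 2 + k * (x / y + y⁻¹ - (x / y) ^ 2)) := by
            rw [hH1]; ring
          rw [e]
          exact sm_add A (sm_mul_left A (add_mem hzA (one_mem A)) hz1)
            (sm_mul_left A (pow_mem hzA 2) hw)
        · rw [hH1, map_mul, map_pow, hz, one_pow, one_mul, un_add A (map_one _) hw]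
    · -- `z` has a pole
      have hs : A.valuation (-(x ^ 2 / (y * (1 + x)))) < 1 := by
        have e : x ^ 2 / (y * (1 + x)) = x ^ 2 * (y * (1 + x))⁻¹ := div_eq_mul_inv _ _
        rw [e]
        exact sm_neg A (sm_mul_left A (pow_mem hxA 2) (sm_inv A hz))
      exact approx_sq A hz0 hs hw hg1 hH1

/-- `x` and `y` are integral -/
theorem case_i (e k x y : L) (heA : e ∈ A) (he1 : A.valuation e = 1)
    (hk1 : k = 5 * e - 3) (he : e ^ 2 + e = 1)
    (hg : gq x y ≠ 0) (hH : (1 + x) ^ 2 * hk k x y ≠ 0)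
    (hx : x ∈ A) (hy : y ∈ A) :
    TameFifth A (gq x y) ((1 + x) ^ 2 * hk k x y) := by
  have hkA : k ∈ A := by
    rw [hk1]; exact sub_mem (mul_mem (ofNat_mem A 5) heA) (ofNat_mem A 3)
  have h1x : 1 + x ∈ A := add_mem (one_mem A) hx
  have hgA : gq x y ∈ A :=
    sub_mem (add_mem (mul_mem hx hy) hy) (pow_mem hx 2)
  have hhA : hk k x y ∈ A :=
    add_mem (sub_mem (add_mem (pow_mem hy 2) (mul_mem hx hy))
      (pow_mem hx 3)) (mul_mem hkA hgA)
  have h5 : k = e ^ 5 := by
    rw [hk1]; linear_combination (-e ^ 3 + e ^ 2 - 2 * e + 3) * he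
  have hvk : A.valuation k = 1 := by rw [h5, map_pow, he1, one_pow]
  have gid : gq x y - (-1) ^ 5 = (1 + x) * (y + (1 - x)) := by unfold gq; ring
  have gsm : A.valuation (1 + x) < 1 → A.valuation (gq x y - (-1) ^ 5) < 1 := by
    intro h
    rw [gid]
    exact sm_mul_right A h (add_mem hy (sub_mem (one_mem A) hx))
  rcases eq_or_lt_of_le ((A.valuation_le_one_iff _).mpr hgA) with hg1 | hg1
  · -- `g` is a unit
    rcases eq_or_lt_of_le ((A.valuation_le_one_iff _).mpr h1x) with hx1 | hx1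
    · rcases eq_or_lt_of_le ((A.valuation_le_one_iff _).mpr hhA) with hh1 | hh1
      · apply tf_unit_pow A hH hg1 (k := 1)
        rw [map_mul, map_pow, hx1, hh1, one_pow, one_mul, map_one, one_pow]
      · have hid := node_identity e x y he
        rw [← hk1] at hid
        have hcof : nodeCof e x y ∈ A := by
          unfold nodeCof
          repeat' first
            | exact hx
            | exact hy
            | exact heA
            | exact (one_mem A)
            | apply add_mem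
            | apply sub_mem
            | apply mul_mem
            | apply neg_mem
            | apply pow_mem
            | exact ofNat_mem A _
        have hsm : A.valuation ((y + e ^ 3 * x) ^ 5 - gq x y * (x + e ^ 4) ^ 5) < 1 := by
          rw [hid]; exact sm_mul_right A hh1 hcof
        have hxe : x + e ^ 4 ∈ A := add_mem hx (pow_mem heA 4)
        rcases eq_or_lt_of_le ((A.valuation_le_one_iff _).mpr hxe) with h1 | h1
        · have h0 := un_ne A h1
          apply tf_unit_fifth A hH hg1 ((y + e ^ 3 * x) / (x + e ^ 4))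
          have e1 : gq x y - ((y + e ^ 3 * x) / (x + e ^ 4)) ^ 5 =
              -(((y + e ^ 3 * x) ^ 5 - gq x y * (x + e ^ 4) ^ 5) / (x + e ^ 4) ^ 5) := by
            field_simp
            ring
          rw [e1, Valuation.map_neg, map_div₀, map_pow _ (x + e ^ 4), h1, one_pow, div_one]
          exact hsm
        · have h2 : A.valuation (y + e ^ 3 * x) < 1 := by
            apply sm_of_pow A (n := 5)
            have e1 : (y + e ^ 3 * x) ^ 5 =
              ((y + e ^ 3 * x) ^ 5 - gq x y * (x + e ^ 4) ^ 5) +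
                gq x y * (x + e ^ 4) ^ 5 := by ring
            rw [e1]
            exact sm_add A hsm (sm_mul_left A hgA (sm_pow A h1 (by norm_num)))
          apply tf_unit_fifth A hH hg1 (e ^ 2)
          have e1 : gq x y - (e ^ 2) ^ 5 = (y + e ^ 3 * x) * (1 + x) +
              (x + e ^ 4) * (-x + e ^ 4 - e ^ 3 - e ^ 3 * (x - e ^ 4)) := by
            unfold gq
            linear_combination (-e ^ 7 * (e ^ 2 + 1)) * he
          rw [e1]
          refine sm_add A (sm_mul_right A h2 h1x) (sm_mul_right A h1 ?_)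
          repeat' first
            | exact hx
            | exact heA
            | apply add_mem
            | apply sub_mem
            | apply mul_mem
            | apply neg_mem
            | apply pow_mem
    · exact tf_unit_fifth A hH hg1 (-1) (gsm hx1)
  · -- `g` is small
    have hx1 : A.valuation (1 + x) = 1 := by
      rcases eq_or_lt_of_le ((A.valuation_le_one_iff _).mpr h1x) with h | h
      · exact h
      · exfalso
        have h2 := sm_sub A hg1 (gsm h)
        have e1 : gq x y - (gq x y - (-1) ^ 5) = -1 := by ring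
        rw [e1, Valuation.map_neg, map_one] at h2
        exact lt_irrefl _ h2
    have hid := five_identity k x y
    set W := gq x y + x + 3 * x ^ 2 + k * (1 + x) ^ 2 with hWdef
    have hWA : W ∈ A :=
      add_mem (add_mem (add_mem hgA hx)
        (mul_mem (ofNat_mem A 3) (pow_mem hx 2))) (mul_mem hkA (pow_mem h1x 2))
    have hgW : A.valuation (gq x y * W) < 1 := sm_mul_right A hg1 hWA
    rcases eq_or_lt_of_le ((A.valuation_le_one_iff _).mpr hhA) with hh1 | hh1
    · apply tf_symm A hH hg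
      apply tf_unit_fifth A hg _ (-x)
      · have e1 : (1 + x) ^ 2 * hk k x y - (-x) ^ 5 = gq x y * W := by
          rw [hid]; ring
        rw [e1]; exact hgW
      · rw [map_mul, map_pow, hx1, hh1, one_pow, one_mul]
    · have hHsm : A.valuation ((1 + x) ^ 2 * hk k x y) < 1 :=
        sm_mul_left A (pow_mem h1x 2) hh1
      have hxsm : A.valuation x < 1 := by
        apply sm_of_pow A (n := 5)
        have e1 : x ^ 5 = gq x y * W - (1 + x) ^ 2 * hk k x y := by
          rw [hid]; ring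
        rw [e1]
        exact sm_sub A hgW hHsm
      have hWk : A.valuation (W - e ^ 5) < 1 := by
        have e1 : W - e ^ 5 = gq x y + x + (3 * x + k * (2 + x)) * x := by
          rw [hWdef, ← h5]; ring
        rw [e1]
        exact sm_add A (sm_add A hg1 hxsm) (sm_mul_left A
          (add_mem (mul_mem (ofNat_mem A 3) hx)
            (mul_mem hkA (add_mem (ofNat_mem A 2) hx))) hxsm)
      have hW1 : A.valuation W = 1 := by
        have e1 : W = e ^ 5 + (W - e ^ 5) := by ring
        rw [e1]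
        apply un_add A _ hWk
        rw [map_pow, he1, one_pow]
      have hW0 := un_ne A hW1
      set H := (1 + x) ^ 2 * hk k x y with hHdef
      have hTW : TameFifth A W H := tf_unit_fifth A hH hW1 e hWk
      have hgW0 : gq x y * W ≠ 0 := mul_ne_zero hg hW0
      have key : TameFifth A (gq x y * W) H := by
        by_cases hx0 : x = 0
        · have e1 : H = gq x y * W := by rw [hid, hx0]; ring
          rw [← e1]
          exact tf_self A hH
        · have hnx : -x ≠ 0 := neg_ne_zero.mpr hx0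
          have h1 : gq x y * W / H ≠ 0 := div_ne_zero hgW0 hH
          have h2 : (-x) ^ 5 / H ≠ 0 := div_ne_zero (pow_ne_zero 5 hnx) hH
          have st := tf_steinberg A h1 h2 (by
            field_simp
            rw [hid]; ring)
          -- remove the fifth power
          have t1 : TameFifth A (gq x y * W / H) ((-x)⁻¹ ^ 5) :=
            tf_symm A (pow_ne_zero 5 (inv_ne_zero hnx)) h1
              (tf_pow_five A (inv_ne_zero hnx) h1)
          have t2 := tf_mul_right A h1 h2 (pow_ne_zero 5 (inv_ne_zero hnx)) st t1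
          have e2 : (-x) ^ 5 / H * (-x)⁻¹ ^ 5 = H⁻¹ := by
            field_simp
          rw [e2] at t2
          have t3 := tf_inv_right A h1 (inv_ne_zero hH) t2
          rw [inv_inv] at t3
          have t4 := tf_mul_left A h1 hH hH t3 (tf_self A hH)
          have e3 : gq x y * W / H * H = gq x y * W := by field_simp
          rwa [e3] at t4
      have t5 := tf_mul_left A hgW0 (inv_ne_zero hW0) hH key (tf_inv_left A hW0 hH hTW)
      have e4 : gq x y * W * W⁻¹ = gq x y := by field_simp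
      rwa [e4] at t5

end val

end GH

/-- the symbol `(g, (1 + x)² h_c)` is unramified when `c = e⁵`, `e² + e = 1` -/
theorem tame_g_h {L : Type*} [Field L] [Algebra ℂ L] (A : ValuationSubring L)
    [IsDiscreteValuationRing A] (hC : ∀ z : ℂ, algebraMap ℂ L z ∈ A) (e : ℂ)
    (he : e ^ 2 + e = 1) (x y : L) (hg : gq x y ≠ 0)
    (hh : hk (algebraMap ℂ L (5 * e - 3)) x y ≠ 0) (hx : 1 + x ≠ 0) :
    TameFifth A (gq x y) ((1 + x) ^ 2 * hk (algebraMap ℂ L (5 * e - 3)) x y) := by
  have hH : (1 + x) ^ 2 * hk (algebraMap ℂ L (5 * e - 3)) x y ≠ 0 :=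
    mul_ne_zero (pow_ne_zero 2 hx) hh
  by_cases hcase : A.valuation x ≤ 1 ∧ A.valuation y ≤ 1
  · have he0 : e ≠ 0 := by rintro rfl; norm_num at he
    have he1 : A.valuation (algebraMap ℂ L e) = 1 := by
      apply le_antisymm ((A.valuation_le_one_iff _).mpr (hC e))
      have h1 := (A.valuation_le_one_iff _).mpr (hC e⁻¹)
      rw [map_inv₀, map_inv₀] at h1
      exact (inv_le_one₀ (zero_lt_iff.mpr
        ((Valuation.ne_zero_iff _).mpr (by simpa using he0)))).mp h1
    apply GH.case_i A (algebraMap ℂ L e) _ x y (hC e) he1 _ _ hg hH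
      ((A.valuation_le_one_iff _).mp hcase.1) ((A.valuation_le_one_iff _).mp hcase.2)
    · rw [map_sub, map_mul, map_ofNat, map_ofNat]
    · rw [← map_pow, ← map_add, he, map_one]
  · rcases lt_trichotomy (A.valuation y ^ 2) (A.valuation x ^ 3) with h | h | h
    · apply GH.case_iii A _ x y (hC _) hg _ h
      by_contra hx1
      push Not at hx1
      have hy1 : 1 < A.valuation y := by
        by_contra hy1
        push Not at hy1
        exact hcase ⟨hx1, hy1⟩
      have h1 : A.valuation x ^ 3 ≤ 1 := pow_le_one' hx1 3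
      have h2 : 1 ≤ A.valuation y ^ 2 := one_le_pow_of_one_le' hy1.le 2
      exact absurd h (not_lt.2 (h1.trans h2))
    · apply GH.case_iv A _ x y (hC _) hH _ h
      by_contra hx1
      push Not at hx1
      have h1 : A.valuation y ^ 2 ≤ 1 := by rw [h]; exact pow_le_one' hx1 3
      apply hcase ⟨hx1, _⟩
      by_contra hy1
      push Not at hy1
      exact absurd h1 (not_le.2 (one_lt_pow₀ hy1 two_ne_zero))
    · apply GH.case_ii A _ x y (hC _) hg hH hx _ h
      by_contra hy1
      push Not at hy1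
      have hx1 : 1 < A.valuation x := by
        by_contra hx1
        push Not at hx1
        exact hcase ⟨hx1, hy1⟩
      have h1 : A.valuation y ^ 2 ≤ 1 := pow_le_one' hy1 2
      exact absurd h (not_lt.2 (h1.trans (one_lt_pow₀ hx1 three_ne_zero).le))

end Pool.Agent.Work.MP_c5a777_ag.Five

end

section

/-!
The symbol `(t, h_c)` is unramified.
-/

open Polynomial

namespace Pool.Agent.Work.MP_c5a777_ag.Five

section

variable {L : Type*} [Field L] (A : ValuationSubring L) [IsDiscreteValuationRing A]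

open TL

theorem tf_trick {a b g : L} (ha : a ≠ 0) (hb : b ≠ 0) (hg : g ≠ 0)
    (h : TameFifth A a b) (h' : TameFifth A g (b / a)) : TameFifth A (a * g) (b * g) := by
  intro π s w m n hπ hs hw
  obtain ⟨u1, m1, h1⟩ := dec_exists A hπ ha
  obtain ⟨w1, n1, h2⟩ := dec_exists A hπ hb
  obtain ⟨k, j, h3⟩ := dec_exists A hπ hg
  have hp := pi_ne A hπ
  have hu1 := unit_ne A u1
  have hba : b / a = (((w1 * u1⁻¹ : Aˣ) : A) : L) * ((π : A) : L) ^ (n1 - m1) := by
    rw [h1, h2, zpow_sub₀ hp, Units.val_mul]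
    push_cast
    rw [val_inv_unit]
    field_simp
  obtain ⟨r1, hr1⟩ := h π u1 w1 m1 n1 hπ h1 h2
  obtain ⟨r2, hr2⟩ := h' π k (w1 * u1⁻¹) j (n1 - m1) hπ h3 hba
  have hd1 : ((s : A) : L) * ((π : A) : L) ^ m =
      (((u1 * k : Aˣ) : A) : L) * ((π : A) : L) ^ (m1 + j) := by
    rw [← hs, h1, h3, zpow_add₀ hp]
    push_cast
    ring
  have hd2 : ((w : A) : L) * ((π : A) : L) ^ n =
      (((w1 * k : Aˣ) : A) : L) * ((π : A) : L) ^ (n1 + j) := by
    rw [← hw, h2, h3, zpow_add₀ hp]
    push_cast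
    ring
  obtain ⟨hm, hsu⟩ := dec_unique A hπ hd1
  obtain ⟨hn, hwu⟩ := dec_unique A hπ hd2
  refine ⟨r1 * r2 * (-1) ^ j, ?_⟩
  have e1 := res_ne A u1
  have e2 := res_ne A w1
  have e3 := res_ne A k
  have en : (-1 : IsLocalRing.ResidueField A) ≠ 0 := by norm_num
  rw [mul_pow, mul_pow, hr1, hr2, neg_one_fifth, hm, hsu, hn, hwu]
  simp only [Units.val_mul, map_mul, mul_zpow, res_inv_unit]
  generalize IsLocalRing.residue A (u1 : A) = x at *
  generalize IsLocalRing.residue A (w1 : A) = y at *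
  generalize IsLocalRing.residue A (k : A) = t at *
  have hsgn : (-1 : IsLocalRing.ResidueField A) ^ (m1 * n1) * (-1) ^ (j * (n1 - m1)) *
      (-1) ^ j = (-1) ^ ((m1 + j) * (n1 + j)) := by
    have h4 : (m1 + j) * (n1 + j) = (m1 * n1 + j * (n1 - m1) + j) + (2 * (j * m1) +
      j * (j - 1)) := by ring
    have h5 : Even (2 * (j * m1)) := even_two_mul _
    have h6 : Even (j * (j - 1)) := Int.even_mul_pred_self j
    rw [h4, zpow_add₀ en (m1 * n1 + j * (n1 - m1) + j), zpow_add₀ en (2 * (j * m1)),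
      h5.neg_one_zpow, h6.neg_one_zpow, zpow_add₀ en (m1 * n1 + j * (n1 - m1)),
      zpow_add₀ en (m1 * n1)]
    ring
  rw [← hsgn]
  have ex : x ^ (n1 + j) = x ^ n1 * x ^ j := zpow_add₀ e1 _ _
  have et : t ^ (n1 + j) = t ^ (n1 - m1) * t ^ (m1 + j) := by
    rw [← zpow_add₀ e3]; congr 1; ring
  have ey : y ^ (-(m1 + j)) = y ^ (-m1) * y ^ (-j) := by
    rw [← zpow_add₀ e2]; congr 1; ring
  have et2 : t ^ (-(m1 + j)) = (t ^ (m1 + j))⁻¹ := zpow_neg _ _
  have ex2 : x⁻¹ ^ (-j) = x ^ j := by rw [inv_zpow', neg_neg]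
  rw [ex, et, ey, et2, ex2]
  have ht0 : t ^ (m1 + j) ≠ 0 := zpow_ne_zero _ e3
  field_simp

theorem tf_div_left {a a' b : L} (ha : a ≠ 0) (ha' : a' ≠ 0) (hb : b ≠ 0)
    (h : TameFifth A a b) (h' : TameFifth A a' b) : TameFifth A (a / a') b := by
  rw [div_eq_mul_inv]
  exact tf_mul_left A ha (inv_ne_zero ha') hb h (tf_inv_left A ha' hb h')

theorem tf_div_right {a b b' : L} (ha : a ≠ 0) (hb : b ≠ 0) (hb' : b' ≠ 0)
    (h : TameFifth A a b) (h' : TameFifth A a b') : TameFifth A a (b / b') :=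
  tf_symm A (div_ne_zero hb hb') ha (tf_div_left A hb hb' ha (tf_symm A ha hb h)
    (tf_symm A ha hb' h'))

variable [Algebra ℂ L] (hC : ∀ z : ℂ, algebraMap ℂ L z ∈ A)

include hC

omit [IsDiscreteValuationRing A] in
theorem cval {z : ℂ} (hz : z ≠ 0) : A.valuation (algebraMap ℂ L z) = 1 := by
  have h1 : A.valuation (algebraMap ℂ L z) ≤ 1 := A.valuation_le_one ⟨_, hC z⟩
  have h2 : A.valuation (algebraMap ℂ L z⁻¹) ≤ 1 := A.valuation_le_one ⟨_, hC z⁻¹⟩
  apply le_antisymm h1
  have h3 : algebraMap ℂ L z * algebraMap ℂ L z⁻¹ = 1 := by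
    rw [← map_mul, mul_inv_cancel₀ hz, map_one]
  have h4 : A.valuation (algebraMap ℂ L z) * A.valuation (algebraMap ℂ L z⁻¹) = 1 := by
    rw [← map_mul, h3, map_one]
  rw [← h4]
  exact mul_le_of_le_one_right' h2

/-- a unit congruent to a nonzero constant has trivial symbols -/
theorem tf_const {a b : L} (hb : b ≠ 0) (z : ℂ) (hz : z ≠ 0)
    (h : A.valuation (a - algebraMap ℂ L z) < 1) : TameFifth A a b := by
  obtain ⟨r, hr⟩ := IsAlgClosed.exists_pow_nat_eq z (n := 5) (by norm_num)
  have hv : A.valuation a = 1 := by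
    have e : a = algebraMap ℂ L z + (a - algebraMap ℂ L z) := by ring
    rw [e]
    exact GH.un_add A (cval A hC hz) h
  refine tf_unit_fifth A hb hv (algebraMap ℂ L r) ?_
  rw [← map_pow, hr]
  exact h

theorem tf_const' {b : L} (hb : b ≠ 0) (z : ℂ) (hz : z ≠ 0) :
    TameFifth A (algebraMap ℂ L z) b :=
  tf_const A hC hb z hz (by rw [sub_self, map_zero]; exact zero_lt_one)

omit [IsDiscreteValuationRing A] in
/-- a nonzero polynomial in `t` is a unit when `t` is residually transcendental -/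
theorem pol_unit (t : L) (ht : ∀ z : ℂ, A.valuation (t - algebraMap ℂ L z) = 1) :
    ∀ (n : ℕ) (p : ℂ[X]), p.natDegree = n → p ≠ 0 → A.valuation (aeval t p) = 1 := by
  intro n
  induction n with
  | zero =>
    intro p hp hp0
    rw [eq_C_of_natDegree_eq_zero hp, aeval_C]
    apply cval A hC
    intro h
    apply hp0
    rw [eq_C_of_natDegree_eq_zero hp, h, C_0]
  | succ n ih =>
    intro p hp hp0
    have hd : p.degree ≠ 0 := by
      intro h
      have := natDegree_eq_zero_iff_degree_le_zero.2 h.le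
      omega
    obtain ⟨r, hr⟩ := IsAlgClosed.exists_root p hd
    obtain ⟨q, hq⟩ := dvd_iff_isRoot.2 hr
    have hq0 : q ≠ 0 := by rintro rfl; rw [mul_zero] at hq; exact hp0 hq
    have hqd : q.natDegree = n := by
      have := congrArg natDegree hq
      rw [natDegree_mul (X_sub_C_ne_zero r) hq0, natDegree_X_sub_C, hp] at this
      omega
    rw [hq, map_mul, map_sub, aeval_X, aeval_C, map_mul, ht r, ih q hqd hq0, one_mul]

theorem tf_hpm (e : ℂ) (he : e ^ 2 + e = 1) (x y : L) (hg : gq x y ≠ 0)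
    (hp : hk (algebraMap ℂ L (5 * e - 3)) x y ≠ 0)
    (hm : hk (algebraMap ℂ L (-8 - 5 * e)) x y ≠ 0) (hx : 1 + x ≠ 0) :
    TameFifth A (hk (algebraMap ℂ L (5 * e - 3)) x y)
      (hk (algebraMap ℂ L (-8 - 5 * e)) x y) := by
  have hδ : 10 * e + 5 ≠ 0 := by
    intro h
    have h1 : (10 * e + 5) ^ 2 = 125 := by linear_combination 100 * he
    rw [h] at h1; norm_num at h1
  have h1 := tame_g_h A hC e he x y hg hp hx
  have e2 : 5 * (-1 - e) - 3 = -8 - 5 * e := by ring
  have h2 := tame_g_h A hC (-1 - e) (by linear_combination he) x y hg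
    (by rw [e2]; exact hm) hx
  rw [e2] at h2
  have hsub : hk (algebraMap ℂ L (5 * e - 3)) x y - hk (algebraMap ℂ L (-8 - 5 * e)) x y =
      algebraMap ℂ L (10 * e + 5) * gq x y := by
    have e3 : algebraMap ℂ L (10 * e + 5) = algebraMap ℂ L (5 * e - 3) -
        algebraMap ℂ L (-8 - 5 * e) := by
      rw [← map_sub]; congr 1; ring
    rw [e3]
    unfold hk; ring
  set P := hk (algebraMap ℂ L (5 * e - 3)) x y with hP
  set M := hk (algebraMap ℂ L (-8 - 5 * e)) x y with hM
  set g := gq x y with hg'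
  set D := algebraMap ℂ L (10 * e + 5) with hD
  have hD0 : D ≠ 0 := by
    rw [hD, Ne, map_eq_zero_iff _ (algebraMap ℂ L).injective]; exact hδ
  have hr0 : (1 + x) ^ 2 ≠ 0 := pow_ne_zero 2 hx
  have hst : TameFifth A (P / (D * g)) (-M / (D * g)) := by
    apply tf_steinberg A
    · exact div_ne_zero hp (mul_ne_zero hD0 hg)
    · exact div_ne_zero (neg_ne_zero.2 hm) (mul_ne_zero hD0 hg)
    · rw [← add_div, ← sub_eq_add_neg, hsub]
      exact div_self (mul_ne_zero hD0 hg)
  have hPg : P / g ≠ 0 := div_ne_zero hp hg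
  have hMg : M / g ≠ 0 := div_ne_zero hm hg
  have hneg : TameFifth A (P / g) (M / g) := by
    have h3 : TameFifth A (D * (P / (D * g))) (-M / (D * g)) :=
      tf_mul_left A hD0 (div_ne_zero hp (mul_ne_zero hD0 hg))
        (div_ne_zero (neg_ne_zero.2 hm) (mul_ne_zero hD0 hg))
        (tf_const' A hC (div_ne_zero (neg_ne_zero.2 hm) (mul_ne_zero hD0 hg)) _ hδ) hst
    have e4 : D * (P / (D * g)) = P / g := by field_simp
    rw [e4] at h3
    have hc : algebraMap ℂ L (-(10 * e + 5)) = -D := by rw [map_neg]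
    have h4 : TameFifth A (P / g) ((-D) * (-M / (D * g))) := by
      refine tf_mul_right A hPg (neg_ne_zero.2 hD0)
        (div_ne_zero (neg_ne_zero.2 hm) (mul_ne_zero hD0 hg)) ?_ h3
      rw [← hc]
      exact tf_symm A (by rw [hc]; exact neg_ne_zero.2 hD0) hPg
        (tf_const' A hC hPg _ (neg_ne_zero.2 hδ))
    have e5 : (-D) * (-M / (D * g)) = M / g := by field_simp
    rwa [e5] at h4
  have hq : TameFifth A g ((M / g) / (P / g)) := by
    have h5 := tf_div_right A hg (mul_ne_zero hr0 hm) (mul_ne_zero hr0 hp) h2 h1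
    have e6 : (1 + x) ^ 2 * M / ((1 + x) ^ 2 * P) = (M / g) / (P / g) := by field_simp
    rwa [e6] at h5
  have h6 := tf_trick A hPg hMg hg hneg hq
  rwa [div_mul_cancel₀ _ hg, div_mul_cancel₀ _ hg] at h6

theorem tame_main (e : ℂ) (he : e ^ 2 + e = 1) (t x y l : L) (ht : t ≠ 0) (hV : Vt t ≠ 0)
    (hg : gq x y ≠ 0) (hp : hk (algebraMap ℂ L (5 * e - 3)) x y ≠ 0)
    (hm : hk (algebraMap ℂ L (-8 - 5 * e)) x y ≠ 0) (hx : 1 + x ≠ 0) (hl : l ≠ 0)
    (hrel : algebraMap ℂ L (10 * e + 5) * l ^ 5 =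
      algebraMap ℂ L (5 * e - 3) * t * hk (algebraMap ℂ L (-8 - 5 * e)) x y -
      algebraMap ℂ L (-8 - 5 * e) * Vt t * hk (algebraMap ℂ L (5 * e - 3)) x y) :
    TameFifth A t (hk (algebraMap ℂ L (5 * e - 3)) x y) := by
  have hδ : 10 * e + 5 ≠ 0 := by
    intro h
    have h1 : (10 * e + 5) ^ 2 = 125 := by linear_combination 100 * he
    rw [h] at h1; norm_num at h1
  have hcc : (5 * e - 3) * (-8 - 5 * e) = -1 := by linear_combination (-25) * he
  have hc0 : 5 * e - 3 ≠ 0 := by
    intro h; rw [h, zero_mul] at hcc; norm_num at hcc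
  have hc'0 : -8 - 5 * e ≠ 0 := by
    intro h; rw [h, mul_zero] at hcc; norm_num at hcc
  have hPM := tf_hpm A hC e he x y hg hp hm hx
  set P := hk (algebraMap ℂ L (5 * e - 3)) x y with hP
  set M := hk (algebraMap ℂ L (-8 - 5 * e)) x y with hM
  set D := algebraMap ℂ L (10 * e + 5) with hD
  set c := algebraMap ℂ L (5 * e - 3) with hc
  set c' := algebraMap ℂ L (-8 - 5 * e) with hc'
  have hD0 : D ≠ 0 := by
    rw [hD, Ne, map_eq_zero_iff _ (algebraMap ℂ L).injective]; exact hδ
  have hcL : c ≠ 0 := by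
    rw [hc, Ne, map_eq_zero_iff _ (algebraMap ℂ L).injective]; exact hc0
  have hc'L : c' ≠ 0 := by
    rw [hc', Ne, map_eq_zero_iff _ (algebraMap ℂ L).injective]; exact hc'0
  -- the case where the symbols of `V` are trivial
  have caseV : (∀ b : L, b ≠ 0 → TameFifth A (Vt t) b) → TameFifth A t P := by
    intro hVb
    set κ := D * l ^ 5 with hκ
    have hκ0 : κ ≠ 0 := mul_ne_zero hD0 (pow_ne_zero 5 hl)
    have hκb : ∀ b : L, b ≠ 0 → TameFifth A κ b := fun b hb =>
      tf_mul_left A hD0 (pow_ne_zero 5 hl) hb (tf_const' A hC hb _ hδ)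
        (tf_pow_five A hl hb)
    have ha0 : c' * Vt t * P ≠ 0 := mul_ne_zero (mul_ne_zero hc'L hV) hp
    have hb0 : c * t * M ≠ 0 := mul_ne_zero (mul_ne_zero hcL ht) hm
    have hst : TameFifth A (c * t * M / κ) (-(c' * Vt t * P) / κ) := by
      apply tf_steinberg A
      · exact div_ne_zero hb0 hκ0
      · exact div_ne_zero (neg_ne_zero.2 ha0) hκ0
      · rw [← add_div, ← sub_eq_add_neg, ← hrel]
        exact div_self hκ0
    have hna : -(c' * Vt t * P) ≠ 0 := neg_ne_zero.2 ha0
    have h1 : TameFifth A (c * t * M) (-(c' * Vt t * P) / κ) := by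
      have := tf_mul_left A hκ0 (div_ne_zero hb0 hκ0) (div_ne_zero hna hκ0)
        (hκb _ (div_ne_zero hna hκ0)) hst
      rwa [mul_div_cancel₀ _ hκ0] at this
    have h2 : TameFifth A (c * t * M) (-(c' * Vt t * P)) := by
      have := tf_mul_right A hb0 hκ0 (div_ne_zero hna hκ0)
        (tf_symm A hκ0 hb0 (hκb _ hb0)) h1
      rwa [mul_div_cancel₀ _ hκ0] at this
    -- remove `-c' V`
    have hcV : algebraMap ℂ L (-(-8 - 5 * e)) * Vt t ≠ 0 := by
      rw [map_neg]; exact mul_ne_zero (neg_ne_zero.2 hc'L) hV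
    have h3 : ∀ b : L, b ≠ 0 → TameFifth A (algebraMap ℂ L (-(-8 - 5 * e)) * Vt t) b :=
      fun b hb => tf_mul_left A (by rw [map_neg]; exact neg_ne_zero.2 hc'L) hV hb
        (tf_const' A hC hb _ (neg_ne_zero.2 hc'0)) (hVb b hb)
    have h4 : TameFifth A (c * t * M) P := by
      have := tf_div_right A hb0 hna hcV h2 (tf_symm A hcV hb0 (h3 _ hb0))
      have e1 : -(c' * Vt t * P) / (algebraMap ℂ L (-(-8 - 5 * e)) * Vt t) = P := by
        rw [map_neg, ← hc']
        field_simp
      rwa [e1] at this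
    -- remove `M` and `c`
    have h5 := tf_div_left A hb0 hm hp h4 (tf_symm A hp hm hPM)
    rw [mul_div_assoc, div_self hm, mul_one] at h5
    have h6 := tf_div_left A (mul_ne_zero hcL ht) hcL hp h5 (tf_const' A hC hp _ hc0)
    rwa [mul_div_cancel_left₀ _ hcL] at h6
  have h2A : algebraMap ℂ L 2 = 2 := map_ofNat _ _
  have hn : ∀ n : ℕ, (n : L) ∈ A := fun n => natCast_mem A n
  have h2mem : (2 : L) ∈ A := by rw [← h2A]; exact hC 2
  rcases lt_trichotomy (A.valuation t) 1 with hlt | heq | hgt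
  · -- `t` is small
    apply caseV
    intro b hb
    refine tf_const A hC hb (-2) (by norm_num) ?_
    have htA : t ∈ A := A.mem_of_valuation_le_one t hlt.le
    have e1 : Vt t - algebraMap ℂ L (-2) =
        t * (1 + (t - 2) * (-8 + 24 * t - 32 * t ^ 2 + 16 * t ^ 3)) := by
      rw [map_neg, h2A]
      unfold Vt; ring
    rw [e1]
    refine GH.sm_mul_right A hlt ?_
    have n8 : (8 : L) ∈ A := by exact_mod_cast hn 8
    have n24 : (24 : L) ∈ A := by exact_mod_cast hn 24
    have n32 : (32 : L) ∈ A := by exact_mod_cast hn 32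
    have n16 : (16 : L) ∈ A := by exact_mod_cast hn 16
    exact add_mem A.one_mem (mul_mem (sub_mem htA h2mem) (add_mem (sub_mem (add_mem
      (neg_mem n8) (mul_mem n24 htA)) (mul_mem n32 (pow_mem htA 2)))
      (mul_mem n16 (pow_mem htA 3))))
  · -- `t` is a unit
    by_cases hz : ∃ z : ℂ, A.valuation (t - algebraMap ℂ L z) < 1
    · obtain ⟨z, hz⟩ := hz
      refine tf_const A hC hp z ?_ hz
      rintro rfl
      rw [map_zero, sub_zero, heq] at hz
      exact lt_irrefl _ hz
    · push Not at hz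
      have hz' : ∀ z : ℂ, A.valuation (t - algebraMap ℂ L z) = 1 := fun z =>
        le_antisymm (A.valuation.map_sub_le heq.le (A.valuation_le_one ⟨_, hC z⟩)) (hz z)
      have key : ∀ p : ℂ[X], p.eval 0 ≠ 0 → A.valuation (aeval t p) = 1 := fun p hp =>
        pol_unit A hC t hz' _ p rfl (by rintro rfl; simp at hp)
      have a1 : aeval t (Vt X : ℂ[X]) = Vt t := by
        unfold Vt
        simp only [map_mul, map_sub, map_pow, aeval_X, map_one, map_ofNat]
      have a0 : (Vt X : ℂ[X]).eval 0 = -2 := by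
        unfold Vt
        simp
      have u1 : A.valuation (Vt t) = 1 := by
        rw [← a1]; exact key _ (by rw [a0]; norm_num)
      have u2 : A.valuation (-(c' * Vt t) - -(c * t)) = 1 := by
        have e1 : aeval t (-(C (-8 - 5 * e) * Vt X) - -(C (5 * e - 3) * X) : ℂ[X]) =
            -(c' * Vt t) - -(c * t) := by
          rw [map_sub, map_neg, map_neg, map_mul, map_mul, a1, aeval_C, aeval_C, aeval_X]
        rw [← e1]
        apply key
        simp only [eval_sub, eval_neg, eval_mul, eval_C, eval_X, a0, mul_zero, neg_zero, sub_zero]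
        intro h
        apply hc'0
        linear_combination (1 / 2) * h
      have u3 : A.valuation (c * -(c' * Vt t) - c' * -(c * t)) = 1 := by
        have hccL : c * c' = -1 := by
          rw [hc, hc', ← map_mul, hcc, map_neg, map_one]
        have e2 : c * -(c' * Vt t) - c' * -(c * t) = aeval t (Vt X - X : ℂ[X]) := by
          rw [map_sub, a1, aeval_X]
          linear_combination (t - Vt t) * hccL
        rw [e2]
        apply key
        simp [a0]
      have hvc : A.valuation c = 1 := cval A hC hc0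
      have hvc' : A.valuation c' = 1 := cval A hC hc'0
      have h := horiz A hC e he (-(c * t)) (-(c' * Vt t)) x y l
        (by rw [Valuation.map_neg, map_mul, hvc, heq, one_mul])
        (by rw [Valuation.map_neg, map_mul, hvc', u1, one_mul]) u2 u3
        (by rw [← hD, hrel]; ring) hp
      rcases h with ⟨k, hk'⟩ | ⟨r, hr⟩
      · exact tf_unit_pow A hp heq hk'
      · have hU : TameFifth A (-(c * t)) P :=
          tf_unit_fifth A hp (by rw [Valuation.map_neg, map_mul, hvc, heq, one_mul]) r hr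
        have hcn : algebraMap ℂ L (-(5 * e - 3)) = -c := by rw [map_neg]
        have h7 := tf_div_left A (neg_ne_zero.2 (mul_ne_zero hcL ht))
          (by rw [hcn]; exact neg_ne_zero.2 hcL) hp hU
          (tf_const' A hC hp _ (neg_ne_zero.2 hc0))
        have e3 : -(c * t) / algebraMap ℂ L (-(5 * e - 3)) = t := by
          rw [hcn]; field_simp
        rwa [e3] at h7
  · -- `t` is large
    apply caseV
    intro b hb
    have hs : A.valuation t⁻¹ < 1 := GH.sm_inv A hgt
    have hsA : t⁻¹ ∈ A := A.mem_of_valuation_le_one _ hs.le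
    have e1 : Vt t = t ^ 5 * ((1 - 2 * t⁻¹) * (t⁻¹ - 2) ^ 4) := by
      unfold Vt
      field_simp
    have hW : (1 - 2 * t⁻¹) * (t⁻¹ - 2) ^ 4 ≠ 0 := by
      intro h
      rw [e1, h, mul_zero] at hV
      exact hV rfl
    rw [e1]
    refine tf_mul_left A (pow_ne_zero 5 ht) hW hb (tf_pow_five A ht hb)
      (tf_const A hC hb 16 (by norm_num) ?_)
    have h16 : algebraMap ℂ L 16 = 16 := map_ofNat _ _
    generalize t⁻¹ = s at *
    have e2 : (1 - 2 * s) * (s - 2) ^ 4 - algebraMap ℂ L 16 =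
        s * (-2 * (s - 2) ^ 4 + (s ^ 3 - 8 * s ^ 2 + 24 * s - 32)) := by
      rw [h16]; ring
    rw [e2]
    refine GH.sm_mul_right A hs ?_
    have n8 : (8 : L) ∈ A := by exact_mod_cast hn 8
    have n24 : (24 : L) ∈ A := by exact_mod_cast hn 24
    have n32 : (32 : L) ∈ A := by exact_mod_cast hn 32
    exact add_mem (mul_mem (neg_mem h2mem) (pow_mem (sub_mem hsA h2mem) 4))
      (sub_mem (add_mem (sub_mem (pow_mem hsA 3) (mul_mem n8 (pow_mem hsA 2)))
        (mul_mem n24 hsA)) n32)

end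

end Pool.Agent.Work.MP_c5a777_ag.Five

end

section

/-!
Equivariance of the reduction, and the order of vanishing of `h_c`.
-/

open Polynomial

namespace Pool.Agent.Work.MP_c5a777_ag.Five

theorem expand_X_sub_one (R : Type*) [CommRing R] :
    expand R 5 (X - 1 : R[X]) = X ^ 5 - 1 := by simp

theorem map_X_five_sub_one {R : Type*} [CommRing R] (f : R →+* R) :
    mapRingHom f (X ^ 5 - 1 : R[X]) = X ^ 5 - 1 := by simp

section Tau

variable (k : Type*) [Field k] (z : k)

/-- `u ↦ z u` on `k[u]` -/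
noncomputable def tau0 : k[X] →+* k[X] := eval₂RingHom (C : k →+* k[X]) (C z * X : k[X])

/-- `u ↦ z u` on `k[u][r][v]` -/
noncomputable def tau : k[X][X][X] →+* k[X][X][X] := mapRingHom (mapRingHom (tau0 k z))

theorem tau0_X : tau0 k z X = C z * X := by
  unfold tau0; simp

theorem tau0_C (a : k) : tau0 k z (C a) = C a := by
  unfold tau0; simp

theorem tau0_inj (hz : z ≠ 0) : Function.Injective (tau0 k z) := by
  rw [injective_iff_map_eq_zero]
  intro p hp
  change p.comp (C z * X) = 0 at hp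
  rcases comp_eq_zero_iff.1 hp with h | ⟨-, h⟩
  · exact h
  · exfalso
    have h1 := congrArg natDegree h
    rw [natDegree_C, natDegree_C_mul_X z hz] at h1
    norm_num at h1

theorem tau_inj (hz : z ≠ 0) : Function.Injective (tau k z) :=
  map_injective _ (map_injective _ (tau0_inj k z hz))

theorem tau_ord (hz : z ≠ 0) (p : k[X][X][X]) :
    rootMultiplicity 1 (tau k z p) = rootMultiplicity 1 p := by
  have h := eq_rootMultiplicity_map (p := p) (f := mapRingHom (tau0 k z))
    (map_injective _ (tau0_inj k z hz)) 1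
  rw [map_one] at h
  exact h.symm

theorem tau_C (p : k[X][X]) : tau k z (C p) = C (mapRingHom (tau0 k z) p) := by
  unfold tau
  rw [coe_mapRingHom, map_C]

theorem tau_X : tau k z X = X := by
  unfold tau
  rw [coe_mapRingHom, map_X]

theorem tau_u : tau k z (C (C X)) = C (C (C z * X)) := by
  rw [tau_C, coe_mapRingHom, map_C, tau0_X]

theorem tau_const (a : k) : tau k z (C (C (C a))) = C (C (C a)) := by
  rw [tau_C, coe_mapRingHom, map_C, tau0_C]

theorem tau_u_five (hz : z ^ 5 = 1) : tau0 k z (X ^ 5) = X ^ 5 := by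
  rw [map_pow, tau0_X, mul_pow, ← C_pow, hz, C_1, one_mul]

theorem tau_s (hz : z ^ 5 = 1) : tau k z (C (C (X ^ 10) * X ^ 5)) = C (C (X ^ 10) * X ^ 5) := by
  rw [tau_C]
  congr 1
  have h10 : (X ^ 10 : k[X]) = X ^ 5 * X ^ 5 := by ring
  rw [map_mul, coe_mapRingHom, map_C, Polynomial.map_pow, map_X, h10, map_mul,
    tau_u_five k z hz]

theorem tau_rho (hz : z ^ 5 = 1) : tau k z (expand _ 5 (rho1 k) * X) =
    expand _ 5 (rho1 k) * X := by
  have h1 : expand (k[X][X]) 5 (rho1 k) = (X ^ 5 - 1) * C (X ^ 2 * C (X ^ 5)) := by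
    have h0 : expand (k[X][X]) 5 (X - 1) = X ^ 5 - 1 := expand_X_sub_one _
    unfold rho1
    rw [map_mul, h0, expand_C]
  rw [h1]
  have h2 : mapRingHom (tau0 k z) (X ^ 2 * C (X ^ 5)) = X ^ 2 * C (X ^ 5) := by
    rw [map_mul, coe_mapRingHom, map_C, Polynomial.map_pow, map_X, tau_u_five k z hz]
  have h3 : tau k z (X ^ 5 - 1) = X ^ 5 - 1 := map_X_five_sub_one _
  rw [map_mul, map_mul, h3, tau_X, tau_C, h2]

end Tau

theorem sB_u {O : Type*} [CommRing O] (z : O) :
    sB O z (bu O) = algebraMap O (B3 O) z * bu O :=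
  evB_u (algebraMap O (B3 O)) (algebraMap O (B3 O) z * bu O) (bs O) (bw O)
theorem sB_s {O : Type*} [CommRing O] (z : O) : sB O z (bs O) = bs O :=
  evB_s (algebraMap O (B3 O)) (algebraMap O (B3 O) z * bu O) (bs O) (bw O)
theorem sB_w {O : Type*} [CommRing O] (z : O) : sB O z (bw O) = bw O :=
  evB_w (algebraMap O (B3 O)) (algebraMap O (B3 O) z * bu O) (bs O) (bw O)

section Equiv

variable {O : Type*} [CommRing O] [IsDomain O] [ValuationRing O]
variable (c d : O) (h2 : (2 : O) ∈ IsLocalRing.maximalIdeal O) (z : O) (hz : z ^ 5 = 1)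

include hz in
theorem res_five : (IsLocalRing.residue O z) ^ 5 = 1 := by
  rw [← map_pow, hz, map_one]

theorem th5_alg (a : O) : th5 O (algebraMap O (B3 O) a) =
    C (C (C (IsLocalRing.residue O a))) := by
  change expand _ 5 (th1 O _) = _
  rw [th1_alg, expand_C]

theorem th5_u : th5 O (bu O) = C (C X) := by
  change expand _ 5 (th1 O _) = _
  rw [th1_u, expand_C]

theorem th5_s : th5 O (bs O) = C (C (X ^ 10) * X ^ 5) := by
  change expand _ 5 (th1 O _) = _
  rw [th1_s, expand_C]

theorem th5_w : th5 O (bw O) = X ^ 5 - 1 := by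
  change expand _ 5 (th1 O _) = _
  rw [th1_w]
  exact expand_X_sub_one _

include hz in
theorem th5_hom_eq : (th5 O).comp (sB O z : B3 O →+* B3 O) =
    (tau (IsLocalRing.ResidueField O) (IsLocalRing.residue O z)).comp (th5 O) := by
  have hz' := res_five z hz
  refine B3_hom_ext (O := O) (S := (IsLocalRing.ResidueField O)[X][X][X]) ?_ ?_ ?_ ?_
  · intro a
    change th5 O (sB O z (algebraMap O (B3 O) a)) = tau _ _ (th5 O _)
    rw [(sB O z).commutes, th5_alg, tau_const]
  · change th5 O (sB O z (bu O)) = tau _ _ (th5 O _)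
    rw [sB_u, th5_u, tau_u, map_mul, th5_alg, th5_u, ← C_mul, ← C_mul]
  · change th5 O (sB O z (bs O)) = tau _ _ (th5 O _)
    rw [sB_s, th5_s, tau_s _ _ hz']
  · change th5 O (sB O z (bw O)) = tau _ _ (th5 O _)
    rw [sB_w, th5_w]
    exact (map_X_five_sub_one _).symm

theorem theta_equiv (x : TT O c d) : theta c d h2 (sT O c d z hz x) =
    tau (IsLocalRing.ResidueField O) (IsLocalRing.residue O z) (theta c d h2 x) := by
  have hz' := res_five z hz
  have h : ∀ p : (B3 O)[X], theta c d h2 (sT O c d z hz (AdjoinRoot.mk _ p)) =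
    tau (IsLocalRing.ResidueField O) (IsLocalRing.residue O z)
      (theta c d h2 (AdjoinRoot.mk _ p)) := by
    intro p
    induction p using Polynomial.induction_on' with
    | add p q hp hq => simp only [map_add, hp, hq]
    | monomial n a =>
      rw [← C_mul_X_pow_eq_monomial]
      simp only [map_mul, map_pow, AdjoinRoot.mk_C, AdjoinRoot.mk_X]
      rw [sT_of, sT_root, theta_root, theta_of, theta_of]
      congr 1
      · exact RingHom.congr_fun (th5_hom_eq z hz) a
      · rw [tau_rho _ _ hz']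
  induction x using AdjoinRoot.induction_on with
  | ih p => exact h p

end Equiv

section Ord

theorem X_five_factor (R : Type*) [CommRing R] :
    (X ^ 5 - 1 : R[X]) = (X ^ 4 + X ^ 3 + X ^ 2 + X + 1) * (X - C 1) := by
  rw [C_1]; ring

/-- the order of vanishing at one of `w³ Q` with `w = X⁵ - 1` -/
theorem ord_cube {R : Type*} [CommRing R] [IsDomain R] (h5 : (5 : R) ≠ 0) (Q : R[X])
    (hQ : Q.eval 1 ≠ 0) :
    rootMultiplicity 1 ((X ^ 5 - 1) ^ 3 * Q) = 3 ∧ (X ^ 5 - 1) ^ 3 * Q ≠ 0 := by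
  have h1 : ((X ^ 5 - 1) ^ 3 * Q : R[X]) =
      ((X ^ 4 + X ^ 3 + X ^ 2 + X + 1) ^ 3 * Q) * (X - C 1) ^ 3 := by
    rw [X_five_factor]; ring
  have h2 : ((X ^ 4 + X ^ 3 + X ^ 2 + X + 1) ^ 3 * Q : R[X]).eval 1 ≠ 0 := by
    have : ((X ^ 4 + X ^ 3 + X ^ 2 + X + 1) ^ 3 * Q : R[X]).eval 1 = 5 ^ 3 * Q.eval 1 := by
      simp only [eval_mul, eval_pow, eval_add, eval_X, eval_one]
      norm_num
    rw [this]
    exact mul_ne_zero (pow_ne_zero _ h5) hQ
  have h3 : ((X ^ 4 + X ^ 3 + X ^ 2 + X + 1) ^ 3 * Q : R[X]) ≠ 0 := by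
    intro h; rw [h] at h2; simp at h2
  rw [h1]
  refine ⟨?_, mul_ne_zero h3 (pow_ne_zero _ (X_sub_C_ne_zero 1))⟩
  rw [rootMultiplicity_mul_X_sub_C_pow h3, rootMultiplicity_eq_zero h2]

theorem pHp_ord {R : Type*} [CommRing R] [IsDomain R] (h5 : (5 : R) ≠ 0) (c s : R)
    (hc : c ≠ 0) (hs : s ≠ 0) (hs1 : 1 - s ≠ 0) :
    rootMultiplicity 1 (pHp (C c) (C s) (X ^ 5 - 1 : R[X])) = 3 ∧
      pHp (C c) (C s) (X ^ 5 - 1 : R[X]) ≠ 0 := by
  have h1 : pHp (C c) (C s) (X ^ 5 - 1 : R[X]) = (X ^ 5 - 1) ^ 3 *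
      (C s ^ 2 * (X ^ 5 - 1) ^ 2 * (1 + (X ^ 5 - 1)) + C c * (C s * ((1 - C s) ^ 2 -
        C s * (1 - C s) * (X ^ 5 - 1) + C s * (X ^ 5 - 1) ^ 2))) := by
    unfold pHp; ring
  rw [h1]
  apply ord_cube h5
  have h2 : (C s ^ 2 * (X ^ 5 - 1) ^ 2 * (1 + (X ^ 5 - 1)) + C c * (C s * ((1 - C s) ^ 2 -
        C s * (1 - C s) * (X ^ 5 - 1) + C s * (X ^ 5 - 1) ^ 2)) : R[X]).eval 1 =
        c * (s * (1 - s) ^ 2) := by
    simp only [eval_mul, eval_pow, eval_add, eval_sub, eval_X, eval_one, eval_C]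
    ring
  rw [h2]
  exact mul_ne_zero hc (mul_ne_zero hs (pow_ne_zero _ hs1))

variable {O : Type*} [CommRing O] [IsDomain O] [ValuationRing O]
variable (c d : O) (h2 : (2 : O) ∈ IsLocalRing.maximalIdeal O)

theorem five_ne (k : Type*) [Field k] (h2 : (2 : k) = 0) : (5 : k) ≠ 0 := by
  have h : (5 : k) = 2 * 2 + 1 := by norm_num
  rw [h, h2]
  simp

theorem theta_HP (hc : IsUnit c) :
    rootMultiplicity 1 (theta c d h2 (AdjoinRoot.of _ (HP O c))) = 3 ∧
      theta c d h2 (AdjoinRoot.of _ (HP O c)) ≠ 0 := by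
  have h0 : IsLocalRing.residue O 2 = 0 := (IsLocalRing.residue_eq_zero_iff _).2 h2
  rw [map_ofNat] at h0
  have h5 := five_ne (IsLocalRing.ResidueField O) h0
  have h5' : (5 : (IsLocalRing.ResidueField O)[X][X]) ≠ 0 := by
    have : (5 : (IsLocalRing.ResidueField O)[X][X]) = C (C 5) := by
      rw [map_ofNat, map_ofNat]
    rw [this, Ne, C_eq_zero, C_eq_zero]
    exact h5
  have hc' : (C (C (IsLocalRing.residue O c)) : (IsLocalRing.ResidueField O)[X][X]) ≠ 0 := by
    rw [Ne, C_eq_zero, C_eq_zero]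
    exact (hc.map (IsLocalRing.residue O)).ne_zero
  have hs : (C (X ^ 10) * X ^ 5 : (IsLocalRing.ResidueField O)[X][X]) ≠ 0 :=
    mul_ne_zero (by rw [Ne, C_eq_zero]; exact pow_ne_zero _ X_ne_zero)
      (pow_ne_zero _ X_ne_zero)
  have hs1 : (1 - C (X ^ 10) * X ^ 5 : (IsLocalRing.ResidueField O)[X][X]) ≠ 0 := by
    intro h
    have h3 := congrArg natDegree (sub_eq_zero.1 h)
    rw [natDegree_one, natDegree_C_mul_X_pow] at h3
    · norm_num at h3
    · exact pow_ne_zero _ X_ne_zero
  have h3 : theta c d h2 (AdjoinRoot.of _ (HP O c)) =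
      pHp (C (C (C (IsLocalRing.residue O c)))) (C (C (X ^ 10) * X ^ 5)) (X ^ 5 - 1) := by
    unfold theta
    rw [AdjoinRoot.lift_of]
    have hm := map_pHp (S' := (IsLocalRing.ResidueField O)[X][X][X]) (th5 O)
      (algebraMap O (B3 O) c) (bs O) (bw O)
    rw [th5_alg, th5_s, th5_w] at hm
    exact hm
  rw [h3]
  exact pHp_ord h5' _ _ hc' hs hs1

end Ord

end Pool.Agent.Work.MP_c5a777_ag.Five

end
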