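import Mathlib
import Pool.Agent.Work.MP_c5a777_ag.Ident2

/-! Bundle of small proof modules (one section per former module). -/

section

/-!
# The key valuation lemma for the cubic surface `x³ + b y³ + c z³ + d w³ = 0`, `b c d = 1`
-/

set_option autoImplicit false

namespace Pool.Agent.Work.MP_c5a777_ag

namespace KeyVal

section ident

variable {L : Type*} [CommRing L]

theorem ident_aux (w C D M X : L) (hω : w ^ 2 + w + 1 = 0)
    (hM : M ^ 3 + (X + C + D) * C * D = 0) :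
    (C - w ^ 2 * D - (1 - w) * M) * (C - w ^ 2 * D - w * (1 - w) * M) *
      (C - w ^ 2 * D - w ^ 2 * (1 - w) * M) = (C - w * D) ^ 3 + (1 - w) ^ 3 * X * C * D := by
  linear_combination (-1*w^3 + 3*w^4 - 3*w^5 + w^6) * hM +
    (2*C*D*M*w^2 - 2*C*D*M*w^3 - 1*C*D*X + 4*C*D*X*w - 6*C*D*X*w^2 + 4*C*D*X*w^3 - 1*C*D*X*w^4
      - 3*C*D^2*w^2 + 4*C*D^2*w^3 - 1*C*D^2*w^4 + C*M^2*w - 2*C*M^2*w^2 + C*M^2*w^3 + 3*C^2*D*w
      - 6*C^2*D*w^2 + 4*C^2*D*w^3 - 1*C^2*D*w^4 - 1*C^2*M + C^2*M*w - 1*D*M^2*w^3 + 2*D*M^2*w^4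
      - 1*D*M^2*w^5 - 1*D^2*M*w^4 + D^2*M*w^5 + D^3*w^3 - 1*D^3*w^4) * hω

theorem ident (ω b c d x y z w : L) (hω : ω ^ 2 + ω + 1 = 0) (hbcd : b * c * d = 1)
    (hx : x ^ 3 + b * y ^ 3 + c * z ^ 3 + d * w ^ 3 = 0) :
    (c * z ^ 3 - ω ^ 2 * (d * w ^ 3) - (1 - ω) * (y * z * w)) *
      (c * z ^ 3 - ω ^ 2 * (d * w ^ 3) - ω * (1 - ω) * (y * z * w)) *
      (c * z ^ 3 - ω ^ 2 * (d * w ^ 3) - ω ^ 2 * (1 - ω) * (y * z * w)) =
    (c * z ^ 3 - ω * (d * w ^ 3)) ^ 3 + c * d * ((1 - ω) * (x * z * w)) ^ 3 := by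
  have hM : (y * z * w) ^ 3 + (x ^ 3 + c * z ^ 3 + d * w ^ 3) * (c * z ^ 3) * (d * w ^ 3) = 0 := by
    linear_combination (c * z ^ 3 * (d * w ^ 3)) * hx - (y * z * w) ^ 3 * hbcd
  have := ident_aux ω (c * z ^ 3) (d * w ^ 3) (y * z * w) (x ^ 3) hω hM
  rw [this]
  ring

end ident

variable {L Γ : Type*} [Field L] [LinearOrderedCommGroupWithZero Γ] (v : Valuation L Γ)

theorem kv_mul_le {x y : L} (hx : v x ≤ 1) (hy : v y ≤ 1) : v (x * y) ≤ 1 := by
  rw [map_mul]; exact mul_le_one' hx hy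

theorem kv_mul_lt {x y : L} (hx : v x ≤ 1) (hy : v y < 1) : v (x * y) < 1 := by
  rw [map_mul]; exact lt_of_le_of_lt (mul_le_of_le_one_left' hx) hy

theorem kv_cube_lt {x : L} (hx : v x < 1) : v (x ^ 3) < 1 := by
  have h : x ^ 3 = x ^ 2 * x := by ring
  rw [h]
  apply kv_mul_lt v _ hx
  rw [map_pow]
  exact pow_le_one' hx.le 2

theorem kv_of_cube_lt {x : L} (hx : v (x ^ 3) < 1) : v x < 1 := by
  rw [map_pow] at hx
  by_contra h
  push Not at h
  exact absurd hx (not_lt.2 (one_le_pow_of_one_le' h 3))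

/-- a unit plus a small element is a unit -/
theorem kv_unit_add {x y : L} (hx : v x = 1) (hy : v y < 1) : v (x + y) = 1 := by
  rw [v.map_add_eq_of_lt_left (by rw [hx]; exact hy), hx]

theorem kv_pow_eq_one {x : L} {n : ℕ} (hn : n ≠ 0) (h : v x ^ n = 1) : v x = 1 :=
  (pow_eq_one_iff.mp h).resolve_right hn

/-- The normalised case. -/
theorem key_norm (ω : L) (hω : ω ^ 2 + ω + 1 = 0) (h3 : v (3 : L) = 1)
    (b c d x y z w : L) (hb : v b = 1) (hc : v c = 1)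
    (hd : v d = 1) (hbcd : b * c * d = 1)
    (hx : x ^ 3 + b * y ^ 3 + c * z ^ 3 + d * w ^ 3 = 0)
    (hnc : ∀ r : L, v r ≤ 1 → ¬ v (b - r ^ 3) < 1)
    (hf : c * z ^ 3 - ω ^ 2 * (d * w ^ 3) - (1 - ω) * (y * z * w) ≠ 0)
    (hx1 : v x ≤ 1) (hy1 : v y ≤ 1) (hz1 : v z ≤ 1) (hw1 : v w ≤ 1)
    (hone : v x = 1 ∨ v y = 1 ∨ v z = 1 ∨ v w = 1) :
    ∃ g : L, g ≠ 0 ∧
      v (c * z ^ 3 - ω ^ 2 * (d * w ^ 3) - (1 - ω) * (y * z * w)) = v g ^ 3 := by
  have hω3 : ω ^ 3 = 1 := by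
    have : ω ^ 3 - 1 = (ω - 1) * (ω ^ 2 + ω + 1) := by ring
    rw [hω, mul_zero] at this
    exact sub_eq_zero.mp this
  have hvω : v ω = 1 := by
    apply kv_pow_eq_one v (n := 3) (by norm_num)
    rw [← map_pow, hω3, map_one]
  have h1ω : v (1 - ω) = 1 := by
    have e : (1 - ω) ^ 2 = -(3 * ω) := by linear_combination hω
    apply kv_pow_eq_one v (n := 2) (by norm_num)
    rw [← map_pow, e, Valuation.map_neg, map_mul, h3, hvω, one_mul]
  have hid := ident ω b c d x y z w hω hbcd hx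
  have hb0 : b ≠ 0 := by rintro rfl; simp at hb
  have hcd : v (c * d) = 1 := by rw [map_mul, hc, hd, one_mul]
  have hbcd' : b * (c * d) = 1 := by rw [← mul_assoc]; exact hbcd
  -- a non-cube fact
  have hncf : ∀ s t : L, v s ≤ 1 → v t = 1 → ¬ v (b * t ^ 3 - s ^ 3) < 1 := by
    intro s t hs ht hlt
    have ht0 : t ≠ 0 := by rintro rfl; simp at ht
    apply hnc (s / t)
    · rw [map_div₀, ht, div_one]; exact hs
    · have e : b - (s / t) ^ 3 = (b * t ^ 3 - s ^ 3) / t ^ 3 := by field_simp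
      rw [e, map_div₀, map_pow, ht, one_pow, div_one]
      exact hlt
  set C := c * z ^ 3 with hC
  set D := d * w ^ 3 with hD
  set M := y * z * w with hM
  set U := C - ω * D with hU
  set V := (1 - ω) * (x * z * w) with hV
  have hvD1 : v D ≤ 1 := by
    rw [hD, map_mul, hd, one_mul, map_pow]; exact pow_le_one' hw1 3
  have hvC1 : v C ≤ 1 := by
    rw [hC, map_mul, hc, one_mul, map_pow]; exact pow_le_one' hz1 3
  have hvM1 : v M ≤ 1 := kv_mul_le v (kv_mul_le v hy1 hz1) hw1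
  have hvU1 : v U ≤ 1 := v.map_sub_le hvC1 (kv_mul_le v hvω.le hvD1)
  have hvV1 : v V ≤ 1 := kv_mul_le v h1ω.le (kv_mul_le v (kv_mul_le v hx1 hz1) hw1)
  have hvf : ∀ u : L, v u = 1 → v (C - ω ^ 2 * D - u * M) ≤ 1 := by
    intro u hu
    refine v.map_sub_le (v.map_sub_le hvC1 (kv_mul_le v ?_ hvD1)) (kv_mul_le v hu.le hvM1)
    rw [map_pow, hvω, one_pow]
  have hf0le := hvf (1 - ω) h1ω
  have hf1le := hvf (ω * (1 - ω)) (by rw [map_mul, hvω, h1ω, one_mul])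
  have hf2le := hvf (ω ^ 2 * (1 - ω)) (by rw [map_mul, map_pow, hvω, h1ω, one_pow, one_mul])
  set f0 := C - ω ^ 2 * D - (1 - ω) * M with hf0
  set f1 := C - ω ^ 2 * D - ω * (1 - ω) * M with hf1
  set f2 := C - ω ^ 2 * D - ω ^ 2 * (1 - ω) * M with hf2
  rcases eq_or_lt_of_le hf0le with h0 | h0
  · exact ⟨1, one_ne_zero, by rw [h0, map_one, one_pow]⟩
  have hsmall : v (U ^ 3 + c * d * V ^ 3) < 1 := by
    rw [← hid]
    have : f0 * f1 * f2 = (f1 * f2) * f0 := by ring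
    rw [this]
    exact kv_mul_lt v (kv_mul_le v hf1le hf2le) h0
  -- U and V are small
  have hV1 : v V < 1 := by
    rcases eq_or_lt_of_le hvV1 with h | h
    · exfalso
      have e1 : b * (U ^ 3 + c * d * V ^ 3) = b * U ^ 3 + V ^ 3 := by
        linear_combination V ^ 3 * hbcd'
      have e2 : v (b * U ^ 3 + V ^ 3) < 1 := by
        rw [← e1]; exact kv_mul_lt v hb.le hsmall
      have hU1 : v U = 1 := by
        have e3 : v (b * U ^ 3) = 1 := by
          have e4 : b * U ^ 3 = -V ^ 3 + (b * U ^ 3 + V ^ 3) := by ring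
          rw [e4]
          apply kv_unit_add v _ e2
          rw [Valuation.map_neg, map_pow, h, one_pow]
        rw [map_mul, hb, one_mul, map_pow] at e3
        exact kv_pow_eq_one v (by norm_num) e3
      apply hncf (-V) U
      · rw [Valuation.map_neg]; exact hvV1
      · exact hU1
      · have : b * U ^ 3 - (-V) ^ 3 = b * U ^ 3 + V ^ 3 := by ring
        rw [this]; exact e2
    · exact h
  have hU1 : v U < 1 := by
    apply kv_of_cube_lt v
    have e : U ^ 3 = (U ^ 3 + c * d * V ^ 3) - c * d * V ^ 3 := by ring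
    rw [e]
    exact v.map_sub_lt hsmall (kv_mul_lt v hcd.le (kv_cube_lt v hV1))
  have hE1 : v (ω * D - M) < 1 := by
    have e : (1 - ω) * (ω * D - M) = f0 - U := by rw [hf0, hU]; ring
    have h : v ((1 - ω) * (ω * D - M)) < 1 := by rw [e]; exact v.map_sub_lt h0 hU1
    rwa [map_mul, h1ω, one_mul] at h
  -- w is a unit
  have hw : v w = 1 := by
    rcases eq_or_lt_of_le hw1 with h | h
    · exact h
    · exfalso
      have hD1 : v D < 1 := kv_mul_lt v hd.le (kv_cube_lt v h)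
      have hC1 : v C < 1 := by
        have e : C = U + ω * D := by rw [hU]; ring
        rw [e]
        exact v.map_add_lt hU1 (kv_mul_lt v hvω.le hD1)
      have hz : v z < 1 := by
        apply kv_of_cube_lt v
        rwa [hC, map_mul, hc, one_mul] at hC1
      have hxy : v (x ^ 3 + b * y ^ 3) < 1 := by
        have e : x ^ 3 + b * y ^ 3 = -(C + D) := by rw [hC, hD]; linear_combination hx
        rw [e, Valuation.map_neg]
        exact v.map_add_lt hC1 hD1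
      rcases eq_or_lt_of_le hy1 with hy | hy
      · apply hncf (-x) y
        · rw [Valuation.map_neg]; exact hx1
        · exact hy
        · have : b * y ^ 3 - (-x) ^ 3 = x ^ 3 + b * y ^ 3 := by ring
          rw [this]; exact hxy
      · have hx2 : v x < 1 := by
          apply kv_of_cube_lt v
          have e : x ^ 3 = (x ^ 3 + b * y ^ 3) - b * y ^ 3 := by ring
          rw [e]
          exact v.map_sub_lt hxy (kv_mul_lt v hb.le (kv_cube_lt v hy))
        rcases hone with h' | h' | h' | h'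
        · exact hx2.ne h'
        · exact hy.ne h'
        · exact hz.ne h'
        · exact h.ne h'
  have hDu : v D = 1 := by rw [hD, map_mul, hd, map_pow, hw, one_pow, one_mul]
  -- f1 and f2 are units
  have h1ωsq : v ((1 - ω) ^ 2) = 1 := by rw [map_pow, h1ω, one_pow]
  have hf1u : v f1 = 1 := by
    have e : f1 = ω * (1 - ω) ^ 2 * D + (U + ω * (1 - ω) * (ω * D - M)) := by
      rw [hf1, hU]; ring
    rw [e]
    apply kv_unit_add v
    · rw [map_mul, map_mul, hvω, h1ωsq, hDu, one_mul, one_mul]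
    · exact v.map_add_lt hU1 (kv_mul_lt v (by rw [map_mul, hvω, h1ω, one_mul]) hE1)
  have hf2u : v f2 = 1 := by
    have e : f2 = -((1 - ω) ^ 2 * D) + (U + ω ^ 2 * (1 - ω) * (ω * D - M)) := by
      rw [hf2, hU]
      linear_combination ((1 - ω) * D * (1 - ω) * 0 + (ω - ω ^ 2) * 0) * hω +
        ((1 - ω) * D) * hω3 * (-1 : L) * (-1 : L) * (-1 : L) + 0 * hω
    rw [e]
    apply kv_unit_add v
    · rw [Valuation.map_neg, map_mul, h1ωsq, hDu, one_mul]
    · refine v.map_add_lt hU1 (kv_mul_lt v ?_ hE1)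
      rw [map_mul, map_pow, hvω, h1ω, one_pow, one_mul]
  have hval : v f0 = v (U ^ 3 + c * d * V ^ 3) := by
    rw [← hid, map_mul, map_mul, hf1u, hf2u, mul_one, mul_one]
  rw [hval]
  have hne : U ^ 3 + c * d * V ^ 3 ≠ 0 := by
    intro h
    rw [h, map_zero] at hval
    exact hf ((Valuation.zero_iff v).mp hval)
  rcases le_total (v V) (v U) with hle | hle
  · have hU0 : U ≠ 0 := by
      rintro hU0
      rw [hU0, map_zero, le_zero_iff, Valuation.zero_iff] at hle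
      apply hne
      rw [hU0, hle]; ring
    refine ⟨U, hU0, ?_⟩
    have e : U ^ 3 + c * d * V ^ 3 = U ^ 3 * (1 + c * d * (V / U) ^ 3) := by
      field_simp
    have hs : v (V / U) ≤ 1 := by
      rw [map_div₀]
      exact div_le_one_of_le₀ hle zero_le
    have hu : v (1 + c * d * (V / U) ^ 3) = 1 := by
      rcases eq_or_lt_of_le (show v (1 + c * d * (V / U) ^ 3) ≤ 1 from
        v.map_add_le (map_one v).le (kv_mul_le v hcd.le
          (by rw [map_pow]; exact pow_le_one' hs 3))) with h | h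
      · exact h
      · exfalso
        apply hncf (-(V / U)) 1
        · rw [Valuation.map_neg]; exact hs
        · exact map_one v
        · have e2 : b * 1 ^ 3 - (-(V / U)) ^ 3 = b * (1 + c * d * (V / U) ^ 3) := by
            linear_combination (-(V / U) ^ 3) * hbcd'
          rw [e2]
          exact kv_mul_lt v hb.le h
    rw [e, map_mul, hu, mul_one, map_pow]
  · have hV0 : V ≠ 0 := by
      rintro hV0
      rw [hV0, map_zero, le_zero_iff, Valuation.zero_iff] at hle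
      apply hne
      rw [hV0, hle]; ring
    refine ⟨V, hV0, ?_⟩
    have e : U ^ 3 + c * d * V ^ 3 = V ^ 3 * ((U / V) ^ 3 + c * d) := by
      field_simp
    have hs : v (U / V) ≤ 1 := by
      rw [map_div₀]
      exact div_le_one_of_le₀ hle zero_le
    have hu : v ((U / V) ^ 3 + c * d) = 1 := by
      rcases eq_or_lt_of_le (show v ((U / V) ^ 3 + c * d) ≤ 1 from
        v.map_add_le (by rw [map_pow]; exact pow_le_one' hs 3) hcd.le) with h | h
      · exact h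
      · exfalso
        have e2 : b * (U / V) ^ 3 - (-1) ^ 3 = b * ((U / V) ^ 3 + c * d) := by
          linear_combination -hbcd'
        have hlt : v (b * (U / V) ^ 3 - (-1) ^ 3) < 1 := by
          rw [e2]; exact kv_mul_lt v hb.le h
        have hu1 : v (U / V) = 1 := by
          have e3 : (U / V) ^ 3 = -(c * d) + ((U / V) ^ 3 + c * d) := by ring
          apply kv_pow_eq_one v (n := 3) (by norm_num)
          rw [← map_pow, e3]
          apply kv_unit_add v _ h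
          rw [Valuation.map_neg]; exact hcd
        exact hncf (-1) (U / V) (by rw [Valuation.map_neg, map_one]) hu1 hlt
    rw [e, map_mul, hu, mul_one, map_pow]

end KeyVal

open KeyVal in
/-- The key valuation lemma. -/
theorem key_valuation {L : Type*} [Field L] (A : ValuationSubring L) (ω : L)
    (hω : ω ^ 2 + ω + 1 = 0) (h3 : A.valuation (3 : L) = 1)
    (b c d x y z w : L) (hb : A.valuation b = 1) (hc : A.valuation c = 1)
    (hd : A.valuation d = 1) (hbcd : b * c * d = 1)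
    (hx : x ^ 3 + b * y ^ 3 + c * z ^ 3 + d * w ^ 3 = 0)
    (hnc : ∀ r : L, A.valuation r ≤ 1 → ¬ A.valuation (b - r ^ 3) < 1)
    (hf : c * z ^ 3 - ω ^ 2 * d * w ^ 3 - (1 - ω) * (y * z * w) ≠ 0) :
    ∃ g : L, g ≠ 0 ∧
      A.valuation (c * z ^ 3 - ω ^ 2 * d * w ^ 3 - (1 - ω) * (y * z * w)) =
        A.valuation g ^ 3 := by
  classical
  set v := A.valuation with hv
  -- the element of largest valuation
  obtain ⟨l, hl, hlx, hly, hlz, hlw⟩ : ∃ l ∈ ({x, y, z, w} : Finset L), v x ≤ v l ∧ v y ≤ v l ∧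
      v z ≤ v l ∧ v w ≤ v l := by
    obtain ⟨l, hl, hmax⟩ := Finset.exists_max_image ({x, y, z, w} : Finset L) (fun t => v t)
      ⟨x, by simp⟩
    exact ⟨l, hl, hmax x (by simp), hmax y (by simp), hmax z (by simp), hmax w (by simp)⟩
  have hl0 : l ≠ 0 := by
    rintro rfl
    rw [map_zero, le_zero_iff, Valuation.zero_iff] at hlx hly hlz hlw
    apply hf
    rw [hly, hlz, hlw]; ring
  have hvl : v l ≠ 0 := (Valuation.ne_zero_iff v).mpr hl0
  have hle : ∀ t, v t ≤ v l → v (t / l) ≤ 1 := by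
    intro t ht
    rw [map_div₀]
    exact div_le_one_of_le₀ ht zero_le
  have hone : v (x / l) = 1 ∨ v (y / l) = 1 ∨ v (z / l) = 1 ∨ v (w / l) = 1 := by
    have h1 : v (l / l) = 1 := by rw [div_self hl0, map_one]
    simp only [Finset.mem_insert, Finset.mem_singleton] at hl
    rcases hl with h | h | h | h
    · left; rw [← h]; exact h1
    · right; left; rw [← h]; exact h1
    · right; right; left; rw [← h]; exact h1
    · right; right; right; rw [← h]; exact h1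
  have hx' : (x / l) ^ 3 + b * (y / l) ^ 3 + c * (z / l) ^ 3 + d * (w / l) ^ 3 = 0 := by
    have : (x / l) ^ 3 + b * (y / l) ^ 3 + c * (z / l) ^ 3 + d * (w / l) ^ 3 =
        (x ^ 3 + b * y ^ 3 + c * z ^ 3 + d * w ^ 3) / l ^ 3 := by
      field_simp
    rw [this, hx, zero_div]
  have hfe : c * (z / l) ^ 3 - ω ^ 2 * (d * (w / l) ^ 3) - (1 - ω) * (y / l * (z / l) * (w / l)) =
      (c * z ^ 3 - ω ^ 2 * d * w ^ 3 - (1 - ω) * (y * z * w)) / l ^ 3 := by
    field_simp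
  have hf' : c * (z / l) ^ 3 - ω ^ 2 * (d * (w / l) ^ 3) -
      (1 - ω) * (y / l * (z / l) * (w / l)) ≠ 0 := by
    rw [hfe]
    exact div_ne_zero hf (pow_ne_zero 3 hl0)
  obtain ⟨g, hg0, hg⟩ := key_norm v ω hω h3 b c d (x / l) (y / l) (z / l) (w / l) hb hc hd hbcd
    hx' hnc hf' (hle x hlx) (hle y hly) (hle z hlz) (hle w hlw) hone
  refine ⟨g * l, mul_ne_zero hg0 hl0, ?_⟩
  rw [hfe, map_div₀, map_pow] at hg
  rw [map_mul, mul_pow, ← hg, div_mul_cancel₀ _ (pow_ne_zero 3 hvl)]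

end Pool.Agent.Work.MP_c5a777_ag

end

section

set_option autoImplicit false

namespace Pool.Agent.Work.MP_c5a777_ag

open Polynomial

/-- All divisors have degree divisible by three. -/
def Good {K : Type*} [Field K] (P : Polynomial K) : Prop := ∀ Q, Q ∣ P → 3 ∣ Q.natDegree

theorem good_dvd {K : Type*} [Field K] {P Q : Polynomial K} (h : P ∣ Q) (hQ : Good Q) :
    Good P := fun R hR => hQ R (hR.trans h)

theorem good_C {K : Type*} [Field K] (a : K) (ha : a ≠ 0) : Good (Polynomial.C a) := by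
  intro Q hQ
  have h1 : IsUnit (Polynomial.C a) := by
    rw [Polynomial.isUnit_C]
    exact isUnit_iff_ne_zero.mpr ha
  have h2 : IsUnit Q := isUnit_of_dvd_unit hQ h1
  rw [Polynomial.natDegree_eq_zero_of_isUnit h2]
  exact dvd_zero 3

theorem good_mul {K : Type*} [Field K] {P Q : Polynomial K} (hP : Good P) (hQ : Good Q)
    (hP0 : P ≠ 0) (hQ0 : Q ≠ 0) : Good (P * Q) := by
  intro R hR
  obtain ⟨R1, R2, h1, h2, h3⟩ := exists_dvd_and_dvd_of_dvd_mul hR
  have hR1 : R1 ≠ 0 := ne_zero_of_dvd_ne_zero hP0 h1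
  have hR2 : R2 ≠ 0 := ne_zero_of_dvd_ne_zero hQ0 h2
  rw [h3, Polynomial.natDegree_mul hR1 hR2]
  exact dvd_add (hP R1 h1) (hQ R2 h2)

theorem good_cubic {K : Type*} [Field K] (u : K) (hu : ∀ b : K, b ^ 3 ≠ u) :
    Good (Polynomial.X ^ 3 - Polynomial.C u) := by
  intro Q hQ
  have hirr : Irreducible (X ^ 3 - C u : K[X]) :=
    X_pow_sub_C_irreducible_of_prime Nat.prime_three hu
  rcases (hirr.dvd_iff).mp hQ with h | h
  · rw [Polynomial.natDegree_eq_zero_of_isUnit h]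
    exact dvd_zero 3
  · rw [← Polynomial.natDegree_eq_of_degree_eq (Polynomial.degree_eq_degree_of_associated h),
      Polynomial.natDegree_X_pow_sub_C]

theorem not_cube (γ : ℂ) (hγ : γ ≠ 0) (b : RatFunc ℂ) :
    b ^ 3 ≠ RatFunc.C γ * (RatFunc.X ^ 3 - 1) := by
  intro h
  have hb : algebraMap ℂ[X] (RatFunc ℂ) b.num / algebraMap ℂ[X] (RatFunc ℂ) b.denom = b :=
    RatFunc.num_div_denom b
  have hd : b.denom ≠ 0 := RatFunc.denom_ne_zero b
  have hd' : algebraMap ℂ[X] (RatFunc ℂ) b.denom ≠ 0 := RatFunc.algebraMap_ne_zero hd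
  have key : b.num ^ 3 = C γ * (X ^ 3 - 1) * b.denom ^ 3 := by
    apply RatFunc.algebraMap_injective ℂ
    simp only [map_mul, map_pow, map_sub, map_one, RatFunc.algebraMap_C, RatFunc.algebraMap_X]
    have h0 : algebraMap ℂ[X] (RatFunc ℂ) b.num = b * algebraMap ℂ[X] (RatFunc ℂ) b.denom :=
      (div_eq_iff hd').mp hb
    rw [← h, h0]
    ring
  have hX : (X ^ 3 - 1 : ℂ[X]) = (X - C 1) * (X ^ 2 + X + 1) := by
    rw [Polynomial.C_1]; ring
  have hq : (X ^ 2 + X + 1 : ℂ[X]).eval 1 ≠ 0 := by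
    simp only [eval_add, eval_pow, eval_X, eval_one]
    norm_num
  have hq0 : (X ^ 2 + X + 1 : ℂ[X]) ≠ 0 := by
    intro h0
    rw [h0] at hq
    simp at hq
  have hl : (X - C 1 : ℂ[X]) ≠ 0 := X_sub_C_ne_zero 1
  have hrhs : C γ * (X ^ 3 - 1) * b.denom ^ 3 ≠ 0 := by
    rw [hX]
    refine mul_ne_zero (mul_ne_zero ?_ (mul_ne_zero hl hq0)) (pow_ne_zero 3 hd)
    simpa using hγ
  have hm := congrArg (Polynomial.rootMultiplicity (1 : ℂ)) key
  rw [rootMultiplicity_mul hrhs] at hm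
  have hn : b.num ≠ 0 := by
    intro h0
    rw [h0] at key
    apply hrhs
    rw [← key]
    simp
  have h1 : (C γ * (X ^ 3 - 1) : ℂ[X]) ≠ 0 := left_ne_zero_of_mul hrhs
  have h2 : (X ^ 3 - 1 : ℂ[X]) ≠ 0 := right_ne_zero_of_mul h1
  rw [rootMultiplicity_mul h1, rootMultiplicity_C] at hm
  have e1 : rootMultiplicity (1 : ℂ) (X ^ 3 - 1 : ℂ[X]) = 1 := by
    rw [hX] at h2 ⊢
    rw [rootMultiplicity_mul h2, rootMultiplicity_X_sub_C_self,
      rootMultiplicity_eq_zero (by simpa [IsRoot] using hq)]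
  have e2 : ∀ p : ℂ[X], p ≠ 0 → rootMultiplicity (1 : ℂ) (p ^ 3) = 3 * rootMultiplicity (1 : ℂ) p := by
    intro p hp
    have h4 : p * p ≠ 0 := mul_ne_zero hp hp
    have h5 : p * p * p ≠ 0 := mul_ne_zero h4 hp
    have h3 : p ^ 3 = p * p * p := by ring
    rw [h3, rootMultiplicity_mul h5, rootMultiplicity_mul h4]
    ring
  rw [e1, e2 _ hn, e2 _ hd] at hm
  omega

end Pool.Agent.Work.MP_c5a777_ag

end

section

/-!
# If the cyclic algebra (a, b) of degree three is split, then b is a norm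
-/

namespace Pool.Agent.Work.MP_c5a777_ag

open Matrix

/-- three eigenvectors with distinct eigenvalues: a vector with the first eigenvalue is a
multiple of the first eigenvector -/
theorem splitNorm_eig {F : Type*} [Field F] (A : Matrix (Fin 3) (Fin 3) F) (x y z : F)
    (hxy : x ≠ y) (hxz : x ≠ z) (hyz : y ≠ z) (e f g w : Fin 3 → F)
    (he : e ≠ 0) (hf : f ≠ 0) (hg : g ≠ 0) (hAe : A *ᵥ e = x • e) (hAf : A *ᵥ f = y • f)
    (hAg : A *ᵥ g = z • g) (hAw : A *ᵥ w = x • w) : ∃ γ : F, w = γ • e := by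
  have hli : LinearIndependent F ![e, f, g] := by
    refine Module.End.eigenvectors_linearIndependent' (Matrix.mulVecLin A) ![x, y, z] ?_ _ ?_
    · intro i j hij
      fin_cases i <;> fin_cases j <;> simp_all
    · intro i
      rw [Module.End.hasEigenvector_iff, Module.End.mem_eigenspace_iff]
      fin_cases i
      · exact ⟨by simpa using hAe, by simpa using he⟩
      · exact ⟨by simpa using hAf, by simpa using hf⟩
      · exact ⟨by simpa using hAg, by simpa using hg⟩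
  have hspan : ⊤ ≤ Submodule.span F (Set.range ![e, f, g]) := by
    rw [hli.span_eq_top_of_card_eq_finrank (by simp)]
  have hw : w ∈ Submodule.span F (Set.range ![e, f, g]) := hspan trivial
  rw [Submodule.mem_span_range_iff_exists_fun] at hw
  obtain ⟨c, hc⟩ := hw
  rw [Fin.sum_univ_three] at hc
  simp only [Matrix.cons_val_zero, Matrix.cons_val_one, Matrix.cons_val_two, Matrix.head_cons,
    Matrix.tail_cons] at hc
  have h1 : A *ᵥ w = (c 0 * x) • e + (c 1 * y) • f + (c 2 * z) • g := by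
    rw [← hc, Matrix.mulVec_add, Matrix.mulVec_add, Matrix.mulVec_smul, Matrix.mulVec_smul,
      Matrix.mulVec_smul, hAe, hAf, hAg, smul_smul, smul_smul, smul_smul]
  have h2 : (c 1 * (y - x)) • f + (c 2 * (z - x)) • g = 0 := by
    have h3 : A *ᵥ w - x • w = 0 := by rw [hAw, sub_self]
    rw [h1, ← hc] at h3
    rw [← h3]
    module
  have h4 := Fintype.linearIndependent_iff.1 hli ![0, c 1 * (y - x), c 2 * (z - x)] (by
    rw [Fin.sum_univ_three]
    simpa using h2)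
  have h5 : c 1 * (y - x) = 0 := by simpa using h4 1
  have h6 : c 2 * (z - x) = 0 := by simpa using h4 2
  have h7 : c 1 = 0 := (mul_eq_zero.1 h5).resolve_right (sub_ne_zero.2 hxy.symm)
  have h8 : c 2 = 0 := (mul_eq_zero.1 h6).resolve_right (sub_ne_zero.2 hxz.symm)
  exact ⟨c 0, by rw [← hc, h7, h8]; simp⟩

theorem norm_of_matrix {L F : Type*} [Field L] [Field F] [Algebra L F]
    (ω : L) (hω : ω ^ 2 + ω + 1 = 0) (h3 : (3 : L) ≠ 0) (a b : L) (ha : a ≠ 0) (hb : b ≠ 0)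
    (p : F) (hp : p ^ 3 = algebraMap L F a) (σ : F ≃ₐ[L] F)
    (hσp : σ p = algebraMap L F ω * p) (hσ3 : ∀ z, σ (σ (σ z)) = z)
    (U V : Matrix (Fin 3) (Fin 3) L) (hU : U ^ 3 = Matrix.scalar (Fin 3) a)
    (hV : V ^ 3 = Matrix.scalar (Fin 3) b) (hVU : V * U = ω • (U * V)) :
    ∃ γ : F, algebraMap L F b = γ * σ γ * σ (σ γ) := by
  classical
  set φ := algebraMap L F with hφ
  have hinj : Function.Injective φ := φ.injective
  set w : F := φ ω with hw
  have hwq : w ^ 2 + w + 1 = 0 := by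
    rw [hw, ← map_pow, ← map_add, ← map_one φ, ← map_add, hω, map_zero]
  have hF3 : (3 : F) ≠ 0 := by
    intro h
    apply h3
    apply hinj
    rw [map_zero, ← h]
    exact map_ofNat φ 3
  have hw3 : w ^ 3 = 1 := by linear_combination (w - 1) * hwq
  have hw0 : w ≠ 0 := by
    intro h; rw [h] at hw3; simp at hw3
  have hw1 : w ≠ 1 := by
    intro h
    rw [h] at hwq
    apply hF3
    linear_combination hwq
  have hw2 : w ^ 2 ≠ 1 := by
    intro h
    apply hw1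
    have : w ^ 3 = w ^ 2 * w := by ring
    rw [hw3, h, one_mul] at this
    exact this.symm
  have ha' : φ a ≠ 0 := fun h => ha (hinj (by rw [h, map_zero]))
  have hb' : φ b ≠ 0 := fun h => hb (hinj (by rw [h, map_zero]))
  have hp0 : p ≠ 0 := by
    intro h
    apply ha'
    rw [← hp, h]; ring
  set A : Matrix (Fin 3) (Fin 3) F := U.map φ with hA
  set B : Matrix (Fin 3) (Fin 3) F := V.map φ with hB
  have hAe : A = φ.mapMatrix U := rfl
  have hBe : B = φ.mapMatrix V := rfl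
  have hA3 : A ^ 3 = (φ a) • (1 : Matrix (Fin 3) (Fin 3) F) := by
    rw [hAe, ← map_pow, hU]
    ext i j
    simp [Matrix.scalar_apply, Matrix.diagonal_apply, Matrix.one_apply, apply_ite φ]
  have hB3 : B ^ 3 = (φ b) • (1 : Matrix (Fin 3) (Fin 3) F) := by
    rw [hBe, ← map_pow, hV]
    ext i j
    simp [Matrix.scalar_apply, Matrix.diagonal_apply, Matrix.one_apply, apply_ite φ]
  have hBA : B * A = w • (A * B) := by
    rw [hAe, hBe, ← map_mul, hVU, ← map_mul]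
    ext i j
    rw [RingHom.mapMatrix_apply, Matrix.map_apply, Matrix.smul_apply, Matrix.smul_apply,
      RingHom.mapMatrix_apply, Matrix.map_apply, smul_eq_mul, smul_eq_mul, map_mul]
  -- B is injective
  have hBinj : ∀ v : Fin 3 → F, B *ᵥ v = 0 → v = 0 := by
    intro v hv
    have h1 : B ^ 3 *ᵥ v = 0 := by
      rw [pow_three, ← Matrix.mulVec_mulVec, ← Matrix.mulVec_mulVec, hv]
      simp
    rw [hB3, Matrix.smul_mulVec, Matrix.one_mulVec] at h1
    exact (smul_eq_zero.1 h1).resolve_left hb'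
  -- the projector is nonzero
  set P : Matrix (Fin 3) (Fin 3) F := A ^ 2 + p • A + (p ^ 2) • 1 with hP
  have hBAv : B * A = w • (A * B) := hBA
  have hBA2 : B * A ^ 2 = (w ^ 2) • (A ^ 2 * B) := by
    rw [pow_two A, ← mul_assoc, hBA, smul_mul_assoc, mul_assoc, hBA, mul_smul_comm, smul_smul,
      mul_assoc]
    ring_nf
  have hPne : P ≠ 0 := by
    intro h0
    -- multiply by B on the left
    have hBinv : ∀ M : Matrix (Fin 3) (Fin 3) F, M * B = 0 → M = 0 := by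
      intro M hM
      have h1 : M * B ^ 3 = 0 := by
        rw [pow_three, ← mul_assoc, hM, zero_mul]
      rw [hB3, mul_smul_comm, mul_one] at h1
      exact (smul_eq_zero.1 h1).resolve_left hb'
    have step : ∀ q : F, A ^ 2 + q • A + (q ^ 2) • (1 : Matrix (Fin 3) (Fin 3) F) = 0 →
        (w ^ 2) • A ^ 2 + (q * w) • A + (q ^ 2) • (1 : Matrix (Fin 3) (Fin 3) F) = 0 := by
      intro q hq
      apply hBinv
      have h1 : B * (A ^ 2 + q • A + (q ^ 2) • (1 : Matrix (Fin 3) (Fin 3) F)) = 0 := by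
        rw [hq, mul_zero]
      rw [mul_add, mul_add, hBA2, mul_smul_comm, hBA, mul_smul_comm, mul_one, smul_smul] at h1
      rw [add_mul, add_mul, smul_mul_assoc, smul_mul_assoc, smul_mul_assoc, one_mul]
      exact h1
    have e0 : A ^ 2 + p • A + (p ^ 2) • (1 : Matrix (Fin 3) (Fin 3) F) = 0 := h0
    have e1 := step p e0
    -- scale to apply the step again
    have e1' : A ^ 2 + (w ^ 2 * p) • A + ((w ^ 2 * p) ^ 2) • (1 : Matrix (Fin 3) (Fin 3) F) = 0 := by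
      have h1 : w • ((w ^ 2) • A ^ 2 + (p * w) • A + (p ^ 2) • (1 : Matrix (Fin 3) (Fin 3) F)) = 0 := by
        rw [e1, smul_zero]
      rw [smul_add, smul_add, smul_smul, smul_smul, smul_smul] at h1
      have c1 : w * w ^ 2 = 1 := by rw [← hw3]; ring
      have c2 : w * (p * w) = w ^ 2 * p := by ring
      have c3 : w * p ^ 2 = (w ^ 2 * p) ^ 2 := by
        have : (w ^ 2 * p) ^ 2 = w ^ 3 * w * p ^ 2 := by ring
        rw [this, hw3]; ring
      rw [c1, c2, c3, one_smul] at h1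
      exact h1
    have e2 := step _ e1'
    have h3A : (3 : F) • A ^ 2 = 0 := by
      have h1 : (A ^ 2 + p • A + (p ^ 2) • (1 : Matrix (Fin 3) (Fin 3) F))
          + (A ^ 2 + (w ^ 2 * p) • A + ((w ^ 2 * p) ^ 2) • (1 : Matrix (Fin 3) (Fin 3) F))
          + w • ((w ^ 2) • A ^ 2 + ((w ^ 2 * p) * w) • A
            + ((w ^ 2 * p) ^ 2) • (1 : Matrix (Fin 3) (Fin 3) F)) = 0 := by
        rw [e0, e1', e2]; simp
      have h2 : (A ^ 2 + p • A + (p ^ 2) • (1 : Matrix (Fin 3) (Fin 3) F))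
          + (A ^ 2 + (w ^ 2 * p) • A + ((w ^ 2 * p) ^ 2) • (1 : Matrix (Fin 3) (Fin 3) F))
          + w • ((w ^ 2) • A ^ 2 + ((w ^ 2 * p) * w) • A
            + ((w ^ 2 * p) ^ 2) • (1 : Matrix (Fin 3) (Fin 3) F))
          = (2 + w ^ 3) • A ^ 2 + (p * (1 + w ^ 2 + w ^ 3 * w)) • A
            + (p ^ 2 * (1 + w ^ 3 * w + w ^ 3 * w ^ 2)) • (1 : Matrix (Fin 3) (Fin 3) F) := by
        module
      rw [h2, hw3] at h1
      have c1 : (1 + w ^ 2 + 1 * w : F) = 0 := by linear_combination hwq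
      have c2 : (1 + 1 * w + 1 * w ^ 2 : F) = 0 := by linear_combination hwq
      rw [c1, c2, mul_zero, mul_zero, zero_smul, zero_smul, add_zero, add_zero] at h1
      have c3 : (2 + 1 : F) = 3 := by norm_num
      rwa [c3] at h1
    have hA2 : A ^ 2 = 0 := (smul_eq_zero.1 h3A).resolve_left hF3
    have hA30 : A ^ 3 = 0 := by rw [pow_succ, hA2, zero_mul]
    rw [hA3] at hA30
    have := congrFun (congrFun hA30 0) 0
    simp at this
    exact ha (hinj (by rw [map_zero]; simpa using this))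
  -- an eigenvector
  have hAP : A * P = p • P := by
    have h1 : A * P - p • P = A ^ 3 - (p ^ 3) • (1 : Matrix (Fin 3) (Fin 3) F) := by
      rw [hP, mul_add, mul_add, mul_smul_comm, mul_smul_comm, mul_one, smul_add, smul_add,
        smul_smul, smul_smul]
      have c1 : A * A ^ 2 = A ^ 3 := by rw [pow_succ' A 2]
      have c2 : A * A = A ^ 2 := by rw [pow_two]
      rw [c1, c2]
      module
    rw [hA3, hp, sub_self] at h1
    exact sub_eq_zero.1 h1
  obtain ⟨e, he, hAe'⟩ : ∃ e : Fin 3 → F, e ≠ 0 ∧ A *ᵥ e = p • e := by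
    by_contra hcon
    push Not at hcon
    apply hPne
    ext i j
    have h1 : P *ᵥ (Pi.single j 1) = 0 := by
      by_contra hne
      apply hcon _ hne
      rw [Matrix.mulVec_mulVec, hAP, Matrix.smul_mulVec]
    have h2 := congrFun h1 i
    rw [Matrix.mulVec_single_one] at h2
    simpa using h2
  -- the action of B on eigenvectors
  have hAB : ∀ (v : Fin 3 → F) (q : F), A *ᵥ v = q • v → A *ᵥ (B *ᵥ v) = (w ^ 2 * q) • (B *ᵥ v) := by
    intro v q hv
    have h1 : A * B = (w ^ 2) • (B * A) := by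
      rw [hBA, smul_smul]
      have : w ^ 2 * w = 1 := by rw [← hw3]; ring
      rw [this, one_smul]
    rw [Matrix.mulVec_mulVec, h1, Matrix.smul_mulVec, ← Matrix.mulVec_mulVec, hv,
      Matrix.mulVec_smul, smul_smul]
  have hBe1 : B *ᵥ e ≠ 0 := fun h => he (hBinj _ h)
  have hBe2 : B *ᵥ (B *ᵥ e) ≠ 0 := fun h => hBe1 (hBinj _ h)
  have hABe := hAB e p hAe'
  have hABBe := hAB _ _ hABe
  have c4 : w ^ 2 * (w ^ 2 * p) = w * p := by
    have : w ^ 2 * (w ^ 2 * p) = w ^ 3 * (w * p) := by ring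
    rw [this, hw3, one_mul]
  rw [c4] at hABBe
  -- distinct eigenvalues
  have d1 : p ≠ w ^ 2 * p := by
    intro h
    apply hw2
    have : (w ^ 2 - 1) * p = 0 := by linear_combination -h
    exact sub_eq_zero.1 ((mul_eq_zero.1 this).resolve_right hp0)
  have d2 : p ≠ w * p := by
    intro h
    apply hw1
    have : (w - 1) * p = 0 := by linear_combination -h
    exact sub_eq_zero.1 ((mul_eq_zero.1 this).resolve_right hp0)
  have d3 : w ^ 2 * p ≠ w * p := by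
    intro h
    apply hw1
    have : (w - 1) * (w * p) = 0 := by linear_combination h
    exact sub_eq_zero.1 ((mul_eq_zero.1 this).resolve_right (mul_ne_zero hw0 hp0))
  -- the semilinear map
  have hσA : ∀ v : Fin 3 → F, (fun i => σ ((A *ᵥ v) i)) = A *ᵥ (fun i => σ (v i)) := by
    intro v
    funext i
    simp only [Matrix.mulVec, dotProduct, map_sum, map_mul, hA, Matrix.map_apply]
    refine Finset.sum_congr rfl fun j _ => ?_
    rw [hφ, σ.commutes]
  have hσB : ∀ v : Fin 3 → F, (fun i => σ ((B *ᵥ v) i)) = B *ᵥ (fun i => σ (v i)) := by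
    intro v
    funext i
    simp only [Matrix.mulVec, dotProduct, map_sum, map_mul, hB, Matrix.map_apply]
    refine Finset.sum_congr rfl fun j _ => ?_
    rw [hφ, σ.commutes]
  set e1 : Fin 3 → F := fun i => σ (e i) with he1
  have hAe1 : A *ᵥ e1 = (w * p) • e1 := by
    rw [he1, ← hσA, hAe']
    funext i
    simp [hσp, hw]
  have hg : A *ᵥ (B *ᵥ e1) = p • (B *ᵥ e1) := by
    rw [hAB e1 _ hAe1]
    congr 1
    have : w ^ 2 * (w * p) = w ^ 3 * p := by ring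
    rw [this, hw3, one_mul]
  obtain ⟨γ, hγ⟩ := splitNorm_eig A p (w ^ 2 * p) (w * p) d1 d2 d3 e (B *ᵥ e) (B *ᵥ (B *ᵥ e))
    (B *ᵥ e1) he hBe1 hBe2 hAe' hABe hABBe hg
  refine ⟨γ, ?_⟩
  -- B σ(e) = γ e, B σ²(e) = σ(γ) σ(e)
  set e2 : Fin 3 → F := fun i => σ (e1 i) with he2
  have k1 : B *ᵥ e2 = σ γ • e1 := by
    rw [he2, ← hσB, hγ]
    funext i
    simp [he1]
  have k2 : B *ᵥ e = σ (σ γ) • e2 := by
    have h1 : (fun i => σ (e2 i)) = e := by
      funext i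
      simp [he2, he1, hσ3]
    rw [← h1, ← hσB, k1]
    funext i
    simp [he2]
  have k3 : B ^ 3 *ᵥ e = (γ * σ γ * σ (σ γ)) • e := by
    rw [pow_three, ← Matrix.mulVec_mulVec, ← Matrix.mulVec_mulVec, k2, Matrix.mulVec_smul, k1,
      smul_smul, Matrix.mulVec_smul, hγ, smul_smul]
    congr 1
    ring
  rw [hB3, Matrix.smul_mulVec, Matrix.one_mulVec] at k3
  obtain ⟨i, hi⟩ := Function.ne_iff.1 he
  have k4 := congrFun k3 i
  simp only [Pi.smul_apply, smul_eq_mul] at k4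
  exact mul_right_cancel₀ hi k4

end Pool.Agent.Work.MP_c5a777_ag

end

section

set_option autoImplicit false

namespace Pool.Agent.Work.MP_c5a777_ag

open Polynomial

theorem trdeg_three :
    Algebra.trdeg ℂ (FractionRing (Polynomial (Polynomial (RatFunc ℂ)))) = 3 := by
  have h1 : Algebra.trdeg ℂ (Polynomial ℂ) = 1 := Polynomial.trdeg_of_isDomain
  have h2 : Algebra.trdeg ℂ (RatFunc ℂ) = 1 := by
    have h := _root_.trdeg_add_eq ℂ (Polynomial ℂ) (A := RatFunc ℂ)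
    have : Algebra.IsAlgebraic (Polynomial ℂ) (RatFunc ℂ) :=
      IsLocalization.isAlgebraic (RatFunc ℂ) (nonZeroDivisors (Polynomial ℂ))
    rw [h1, trdeg_eq_zero (R := Polynomial ℂ), add_zero] at h
    exact h.symm
  have h3 : Algebra.trdeg ℂ (Polynomial (RatFunc ℂ)) = 2 := by
    have h := _root_.trdeg_add_eq ℂ (RatFunc ℂ) (A := Polynomial (RatFunc ℂ))
    rw [h2, Polynomial.trdeg_of_isDomain] at h
    rw [← h]; norm_num
  have h4 : Algebra.trdeg ℂ (Polynomial (Polynomial (RatFunc ℂ))) = 3 := by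
    have h := _root_.trdeg_add_eq ℂ (Polynomial (RatFunc ℂ))
      (A := Polynomial (Polynomial (RatFunc ℂ)))
    rw [h3, Polynomial.trdeg_of_isDomain] at h
    rw [← h]; norm_num
  have h := _root_.trdeg_add_eq ℂ (Polynomial (Polynomial (RatFunc ℂ)))
    (A := FractionRing (Polynomial (Polynomial (RatFunc ℂ))))
  have : Algebra.IsAlgebraic (Polynomial (Polynomial (RatFunc ℂ)))
      (FractionRing (Polynomial (Polynomial (RatFunc ℂ)))) :=
    IsLocalization.isAlgebraic _ (nonZeroDivisors (Polynomial (Polynomial (RatFunc ℂ))))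
  rw [h4, trdeg_eq_zero (R := Polynomial (Polynomial (RatFunc ℂ))), add_zero] at h
  exact h.symm

theorem trdeg_of_algebraic {F : Type*} [Field F] [Algebra ℂ F] (n : Cardinal)
    (hF : Algebra.trdeg ℂ F = n) (L : IntermediateField ℂ F) [Algebra.IsAlgebraic L F] :
    Algebra.trdeg ℂ L = n := by
  have h := _root_.trdeg_add_eq ℂ L (A := F)
  rw [trdeg_eq_zero (R := L), add_zero] at h
  rw [h, hF]

theorem trdeg_three_sub
    (L : IntermediateField ℂ (FractionRing (Polynomial (Polynomial (RatFunc ℂ)))))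
    [Algebra.IsAlgebraic L (FractionRing (Polynomial (Polynomial (RatFunc ℂ))))] :
    Algebra.trdeg ℂ L = 3 :=
  trdeg_of_algebraic 3 trdeg_three L

end Pool.Agent.Work.MP_c5a777_ag

end

section

/-!
# Elements of unit norm under an automorphism of order three of a factorial ring
-/

namespace Pool.Agent.Work.MP_c5a777_ag

theorem unit_of_norm_unit_aux {R F : Type*} [CommRing R] [IsDomain R] [UniqueFactorizationMonoid R]
    [Field F] [Algebra R F] [IsFractionRing R F]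
    (s : R ≃+* R) (hs : ∀ r, s (s (s r)) = r)
    (σ : F ≃+* F) (hσ : ∀ r, σ (algebraMap R F r) = algebraMap R F (s r)) (a : R) :
    ∀ (b : R) (v : Rˣ), a ≠ 0 → b ≠ 0 →
      a * s a * s (s a) = (v : R) * (b * s b * s (s b)) →
      ∃ (u : Rˣ) (c : F), c ≠ 0 ∧
        algebraMap R F a * σ c = algebraMap R F (u : R) * c * algebraMap R F b := by
  classical
  have hinj : Function.Injective (algebraMap R F) := IsFractionRing.injective R F
  have hne : ∀ {r : R}, r ≠ 0 → algebraMap R F r ≠ 0 := fun h h0 =>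
    h (hinj (by rw [h0, map_zero]))
  have hs0 : ∀ {r : R}, r ≠ 0 → s r ≠ 0 := fun h h0 => h (s.injective (by rw [h0, map_zero]))
  induction a using UniqueFactorizationMonoid.induction_on_prime with
  | h₁ => intro b v h0; exact absurd rfl h0
  | h₂ x hx =>
    intro b v hx0 hb h
    have hu : IsUnit (x * s x * s (s x)) :=
      (hx.mul (hx.map s)).mul ((hx.map s).map s)
    rw [h] at hu
    have hbu : IsUnit b := by
      have h1 := isUnit_of_mul_isUnit_right hu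
      exact isUnit_of_mul_isUnit_left (isUnit_of_mul_isUnit_left h1)
    refine ⟨hx.unit * hbu.unit⁻¹, 1, one_ne_zero, ?_⟩
    have h2 : ((hx.unit * hbu.unit⁻¹ : Rˣ) : R) * b = x := by
      rw [Units.val_mul, mul_assoc]
      have : ((hbu.unit⁻¹ : Rˣ) : R) * b = 1 := IsUnit.val_inv_mul hbu
      rw [this, mul_one]; rfl
    rw [map_one, mul_one, mul_one, ← map_mul, h2]
  | h₃ a' π ha' hπ ih =>
    intro b v h0 hb h
    have hπ0 : π ≠ 0 := hπ.ne_zero
    have hdvd : π ∣ b * s b * s (s b) := by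
      have h1 : π ∣ (v : R) * (b * s b * s (s b)) := by
        rw [← h]
        exact ⟨a' * s (π * a') * s (s (π * a')), by ring⟩
      exact (IsUnit.dvd_mul_left v.isUnit).1 h1
    have hsπ : s π ≠ 0 := hs0 hπ0
    have hssπ : s (s π) ≠ 0 := hs0 hsπ
    have hN : π * s π * s (s π) ≠ 0 := mul_ne_zero (mul_ne_zero hπ0 hsπ) hssπ
    rcases (hπ.dvd_or_dvd hdvd) with h1 | h1
    · rcases hπ.dvd_or_dvd h1 with h2 | h2
      · -- π divides b
        obtain ⟨b', rfl⟩ := h2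
        have hb' : b' ≠ 0 := fun h => hb (by rw [h, mul_zero])
        have h3 : a' * s a' * s (s a') = (v : R) * (b' * s b' * s (s b')) := by
          apply mul_left_cancel₀ hN
          simp only [map_mul] at h
          linear_combination h
        obtain ⟨u, c, hc, h4⟩ := ih b' v ha' hb' h3
        refine ⟨u, c, hc, ?_⟩
        rw [map_mul, map_mul]
        linear_combination (algebraMap R F π) * h4
      · -- π divides s b, so s (s π) divides b
        have h3 : s (s π) ∣ b := by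
          have := map_dvd s (map_dvd s h2)
          rwa [hs] at this
        obtain ⟨b', rfl⟩ := h3
        have hb' : b' ≠ 0 := fun h => hb (by rw [h, mul_zero])
        have h3 : a' * s a' * s (s a') = (v : R) * (b' * s b' * s (s b')) := by
          apply mul_left_cancel₀ hN
          simp only [map_mul, hs] at h
          linear_combination h
        obtain ⟨u, c, hc, h4⟩ := ih b' v ha' hb' h3
        refine ⟨u, algebraMap R F (π * s π) * c, mul_ne_zero (hne (mul_ne_zero hπ0 hsπ)) hc, ?_⟩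
        rw [map_mul σ, hσ, map_mul s]
        simp only [map_mul]
        linear_combination (algebraMap R F π * algebraMap R F (s π) *
          algebraMap R F (s (s π))) * h4
    · -- π divides s (s b), so s π divides b
      have h3 : s π ∣ b := by
        have := map_dvd s h1
        rwa [hs] at this
      obtain ⟨b', rfl⟩ := h3
      have hb' : b' ≠ 0 := fun h => hb (by rw [h, mul_zero])
      have h3 : a' * s a' * s (s a') = (v : R) * (b' * s b' * s (s b')) := by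
        apply mul_left_cancel₀ hN
        simp only [map_mul, hs] at h
        linear_combination h
      obtain ⟨u, c, hc, h4⟩ := ih b' v ha' hb' h3
      refine ⟨u, algebraMap R F π * c, mul_ne_zero (hne hπ0) hc, ?_⟩
      rw [map_mul σ, hσ]
      simp only [map_mul]
      linear_combination (algebraMap R F π * algebraMap R F (s π)) * h4

theorem unit_of_norm_unit {R F : Type*} [CommRing R] [IsDomain R] [UniqueFactorizationMonoid R]
    [Field F] [Algebra R F] [IsFractionRing R F]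
    (s : R ≃+* R) (hs : ∀ r, s (s (s r)) = r)
    (σ : F ≃+* F) (hσ : ∀ r, σ (algebraMap R F r) = algebraMap R F (s r))
    (γ : F) (v : Rˣ) (h : γ * σ γ * σ (σ γ) = algebraMap R F (v : R)) :
    ∃ (u : Rˣ) (c : F), c ≠ 0 ∧ γ * σ c = algebraMap R F (u : R) * c := by
  have hinj : Function.Injective (algebraMap R F) := IsFractionRing.injective R F
  have hv0 : algebraMap R F (v : R) ≠ 0 := by
    intro h0
    have : (v : R) = 0 := hinj (by rw [h0, map_zero])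
    exact v.ne_zero this
  have hγ : γ ≠ 0 := by
    rintro rfl
    apply hv0
    rw [← h]; simp
  obtain ⟨a, b, hb, rfl⟩ := IsFractionRing.div_surjective (A := R) γ
  have hb0 : b ≠ 0 := nonZeroDivisors.ne_zero hb
  have hbF : algebraMap R F b ≠ 0 := fun h0 => hb0 (hinj (by rw [h0, map_zero]))
  have ha0 : a ≠ 0 := by
    rintro rfl
    apply hγ; simp
  have hsb : algebraMap R F (s b) ≠ 0 := fun h0 => by
    have h1 : s b = 0 := hinj (by rw [h0, map_zero])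
    exact hb0 (s.injective (by rw [h1, map_zero]))
  have hssb : algebraMap R F (s (s b)) ≠ 0 := fun h0 => by
    have h1 : s (s b) = 0 := hinj (by rw [h0, map_zero])
    have h2 : s b = 0 := s.injective (by rw [h1, map_zero])
    exact hb0 (s.injective (by rw [h2, map_zero]))
  have hnorm : a * s a * s (s a) = (v : R) * (b * s b * s (s b)) := by
    apply hinj
    simp only [map_mul]
    rw [map_div₀, map_div₀, hσ, hσ, hσ, hσ] at h
    field_simp at h
    linear_combination h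
  obtain ⟨u, c, hc, h4⟩ := unit_of_norm_unit_aux s hs σ hσ a b v ha0 hb0 hnorm
  refine ⟨u, c, hc, ?_⟩
  field_simp
  linear_combination h4

end Pool.Agent.Work.MP_c5a777_ag

end

section

/-!
Polynomial identities, third part: the two remaining compositions, in a domain.
-/

namespace Pool.Agent.Work.MP_c5a777_ag

variable {R : Type*} [CommRing R]

theorem pC_eq {ω : R} (hω : ω^2 + ω + 1 = 0) (T e0 e1 e2 : R) :
    pC ω T e0 e1 e2 =
      ω^2 * (pN T e0 e1 e2 * pT ω T e0 e1 e2) - ω * pK ω T e0 e1 e2 := by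
  simp only [pN, pC, pK, pT]
  linear_combination (3*ω*T^4*e2^6 - 18*ω*T^3*e0*e1*e2^4 + 6*ω*T^3*e1^3*e2^3 + 6*ω*T^2*e0^3*e2^3 +
    27*ω*T^2*e0^2*e1^2*e2^2 - 18*ω*T^2*e0*e1^4*e2 + 3*ω*T^2*e1^6 - 18*ω*T*e0^4*e1*e2 +
    6*ω*T*e0^3*e1^3 + 3*ω*e0^6 - 3*T^4*e2^6 - 9*T^3*e0*e1*e2^4 - 6*T^3*e1^3*e2^3 -
    6*T^2*e0^3*e2^3 + 54*T^2*e0^2*e1^2*e2^2 - 9*T^2*e0*e1^4*e2 - 3*T^2*e1^6 - 9*T*e0^4*e1*e2 -
    6*T*e0^3*e1^3 - 3*e0^6) * hω

theorem pXZ_eq {ω : R} (hω : ω^2 + ω + 1 = 0) (T e0 e1 e2 : R) :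
    (1-ω)^3 * (T * pX ω T e0 e1 e2^3 + pZ ω T e0 e1 e2^3) =
      -(T * pN T e0 e1 e2 * pC ω T e0 e1 e2) := by
  simp only [pX, pZ, pN, pC]
  linear_combination (-ω^13*T^6*e1^3*e2^6 + 7*ω^12*T^6*e1^3*e2^6 - 3*ω^12*T^5*e0^2*e1^2*e2^5 -
    21*ω^11*T^6*e1^3*e2^6 + 21*ω^11*T^5*e0^2*e1^2*e2^5 - 3*ω^11*T^5*e0*e1^4*e2^4 -
    3*ω^11*T^4*e0^4*e1*e2^4 + 34*ω^10*T^6*e1^3*e2^6 - 63*ω^10*T^5*e0^2*e1^2*e2^5 +
    21*ω^10*T^5*e0*e1^4*e2^4 + 21*ω^10*T^4*e0^4*e1*e2^4 - 6*ω^10*T^4*e0^3*e1^3*e2^3 -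
    ω^10*T^3*e0^6*e2^3 - 28*ω^9*T^6*e1^3*e2^6 + 102*ω^9*T^5*e0^2*e1^2*e2^5 -
    63*ω^9*T^5*e0*e1^4*e2^4 - 63*ω^9*T^4*e0^4*e1*e2^4 + 42*ω^9*T^4*e0^3*e1^3*e2^3 -
    3*ω^9*T^4*e0^2*e1^5*e2^2 + 7*ω^9*T^3*e0^6*e2^3 - 3*ω^9*T^3*e0^5*e1^2*e2^2 -
    84*ω^8*T^5*e0^2*e1^2*e2^5 + 102*ω^8*T^5*e0*e1^4*e2^4 + 102*ω^8*T^4*e0^4*e1*e2^4 -
    126*ω^8*T^4*e0^3*e1^3*e2^3 + 21*ω^8*T^4*e0^2*e1^5*e2^2 - 21*ω^8*T^3*e0^6*e2^3 +
    21*ω^8*T^3*e0^5*e1^2*e2^2 - 3*ω^8*T^3*e0^4*e1^4*e2 + 27*ω^7*T^6*e1^3*e2^6 -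
    84*ω^7*T^5*e0*e1^4*e2^4 - 84*ω^7*T^4*e0^4*e1*e2^4 + 204*ω^7*T^4*e0^3*e1^3*e2^3 -
    63*ω^7*T^4*e0^2*e1^5*e2^2 + ω^7*T^4*e1^9 + 34*ω^7*T^3*e0^6*e2^3 -
    63*ω^7*T^3*e0^5*e1^2*e2^2 + 21*ω^7*T^3*e0^4*e1^4*e2 - ω^7*T^3*e0^3*e1^6 -
    27*ω^6*T^6*e1^3*e2^6 + 81*ω^6*T^5*e0^2*e1^2*e2^5 + 3*ω^6*T^5*e1^6*e2^3 -
    168*ω^6*T^4*e0^3*e1^3*e2^3 + 102*ω^6*T^4*e0^2*e1^5*e2^2 - 4*ω^6*T^4*e1^9 -
    28*ω^6*T^3*e0^6*e2^3 + 102*ω^6*T^3*e0^5*e1^2*e2^2 - 63*ω^6*T^3*e0^4*e1^4*e2 +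
    7*ω^6*T^3*e0^3*e1^6 + 3*ω^5*T^6*e1^3*e2^6 - 81*ω^5*T^5*e0^2*e1^2*e2^5 +
    81*ω^5*T^5*e0*e1^4*e2^4 - 12*ω^5*T^5*e1^6*e2^3 + 81*ω^5*T^4*e0^4*e1*e2^4 -
    84*ω^5*T^4*e0^2*e1^5*e2^2 + 6*ω^5*T^4*e1^9 - 84*ω^5*T^3*e0^5*e1^2*e2^2 +
    102*ω^5*T^3*e0^4*e1^4*e2 - 18*ω^5*T^3*e0^3*e1^6 + ω^4*T^7*e2^9 + 15*ω^4*T^6*e1^3*e2^6 -
    81*ω^4*T^5*e0*e1^4*e2^4 + 18*ω^4*T^5*e1^6*e2^3 - 81*ω^4*T^4*e0^4*e1*e2^4 +
    168*ω^4*T^4*e0^3*e1^3*e2^3 - 3*ω^4*T^4*e1^9 + 27*ω^4*T^3*e0^6*e2^3 -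
    84*ω^4*T^3*e0^4*e1^4*e2 + 22*ω^4*T^3*e0^3*e1^6 - 4*ω^3*T^7*e2^9 - 9*ω^3*T^6*e1^3*e2^6 +
    3*ω^3*T^5*e0^3*e2^6 + 81*ω^3*T^5*e0^2*e1^2*e2^5 - 9*ω^3*T^5*e1^6*e2^3 -
    186*ω^3*T^4*e0^3*e1^3*e2^3 + 81*ω^3*T^4*e0^2*e1^5*e2^2 - 3*ω^3*T^4*e1^9 -
    27*ω^3*T^3*e0^6*e2^3 + 81*ω^3*T^3*e0^5*e1^2*e2^2 - 10*ω^3*T^3*e0^3*e1^6 +
    3*ω^3*T^2*e0^6*e1^3 + 6*ω^2*T^7*e2^9 - 9*ω^2*T^6*e1^3*e2^6 - 12*ω^2*T^5*e0^3*e2^6 -
    81*ω^2*T^5*e0^2*e1^2*e2^5 + 81*ω^2*T^5*e0*e1^4*e2^4 - 9*ω^2*T^5*e1^6*e2^3 +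
    81*ω^2*T^4*e0^4*e1*e2^4 + 36*ω^2*T^4*e0^3*e1^3*e2^3 - 81*ω^2*T^4*e0^2*e1^5*e2^2 +
    6*ω^2*T^4*e1^9 + 3*ω^2*T^3*e0^6*e2^3 - 81*ω^2*T^3*e0^5*e1^2*e2^2 + 81*ω^2*T^3*e0^4*e1^4*e2
    - 9*ω^2*T^3*e0^3*e1^6 - 12*ω^2*T^2*e0^6*e1^3 - 3*ω*T^7*e2^9 + 18*ω*T^6*e1^3*e2^6 +
    18*ω*T^5*e0^3*e2^6 - 81*ω*T^5*e0*e1^4*e2^4 + 18*ω*T^5*e1^6*e2^3 - 81*ω*T^4*e0^4*e1*e2^4 +
    144*ω*T^4*e0^3*e1^3*e2^3 - 3*ω*T^4*e1^9 + 15*ω*T^3*e0^6*e2^3 - 81*ω*T^3*e0^4*e1^4*e2 +
    18*ω*T^3*e0^3*e1^6 + 18*ω*T^2*e0^6*e1^3 + ω*T*e0^9 - 3*T^7*e2^9 - 9*T^6*e1^3*e2^6 -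
    9*T^5*e0^3*e2^6 + 81*T^5*e0^2*e1^2*e2^5 - 9*T^5*e1^6*e2^3 - 180*T^4*e0^3*e1^3*e2^3 +
    81*T^4*e0^2*e1^5*e2^2 - 3*T^4*e1^9 - 9*T^3*e0^6*e2^3 + 81*T^3*e0^5*e1^2*e2^2 -
    9*T^3*e0^3*e1^6 - 9*T^2*e0^6*e1^3 - 4*T*e0^9) * hω

theorem pC_P [IsDomain R] {ω : R} (hω : ω^2 + ω + 1 = 0) {T e0 e1 e2 : R} (hT : T ≠ 0)
    (hN : pN T e0 e1 e2 ≠ 0) (hC : pC ω T e0 e1 e2 ≠ 0) :
    pC ω T (pP0 ω T e0 e1 e2) (pP1 ω T e0 e1 e2) (pP2 ω T e0 e1 e2) =
      T^2 * pN T e0 e1 e2 ^ 2 * pK ω T e0 e1 e2 ^ 3 := by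
  have h1 := pXZ_eq hω T (pP0 ω T e0 e1 e2) (pP1 ω T e0 e1 e2) (pP2 ω T e0 e1 e2)
  have h2 := pXZ_eq hω T e0 e1 e2
  rw [pX_P hω, pZ_P hω, pN_P hω] at h1
  have h3 : T * (T * pN T e0 e1 e2 ^ 2 * pC ω T e0 e1 e2) ≠ 0 :=
    mul_ne_zero hT (mul_ne_zero (mul_ne_zero hT (pow_ne_zero _ hN)) hC)
  refine mul_left_cancel₀ h3 ?_
  have hω3 : ω^3 = 1 := by linear_combination (ω - 1) * hω
  have hω6 : ω^6 = 1 := by linear_combination (ω^3 + 1) * hω3
  have h4 : (1-ω)^3 * (T * (ω * T * pN T e0 e1 e2 * pK ω T e0 e1 e2 * pX ω T e0 e1 e2)^3 +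
      (ω^2 * T * pN T e0 e1 e2 * pK ω T e0 e1 e2 * pZ ω T e0 e1 e2)^3) =
      (T * pN T e0 e1 e2 * pK ω T e0 e1 e2)^3 *
      ((1-ω)^3 * (T * pX ω T e0 e1 e2^3 + pZ ω T e0 e1 e2^3)) := by
    linear_combination ((1-ω)^3 * T * (T * pN T e0 e1 e2 * pK ω T e0 e1 e2 * pX ω T e0 e1 e2)^3) * hω3
      + ((1-ω)^3 * (T * pN T e0 e1 e2 * pK ω T e0 e1 e2 * pZ ω T e0 e1 e2)^3) * hω6
  rw [h4, h2] at h1
  linear_combination h1

theorem pK_P [IsDomain R] {ω : R} (hω : ω^2 + ω + 1 = 0) {T e0 e1 e2 : R} (hT : T ≠ 0)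
    (hN : pN T e0 e1 e2 ≠ 0) (hC : pC ω T e0 e1 e2 ≠ 0) :
    pK ω T (pP0 ω T e0 e1 e2) (pP1 ω T e0 e1 e2) (pP2 ω T e0 e1 e2) =
      -T^2 * pN T e0 e1 e2 ^ 3 * pK ω T e0 e1 e2 ^ 2 * pT ω T e0 e1 e2 := by
  have h1 := pC_eq hω T (pP0 ω T e0 e1 e2) (pP1 ω T e0 e1 e2) (pP2 ω T e0 e1 e2)
  have h2 := pC_eq hω T e0 e1 e2
  rw [pC_P hω hT hN hC, pN_P hω, pT_P hω] at h1
  have hω3 : ω^3 = 1 := by linear_combination (ω - 1) * hω
  have h3 : pK ω T (pP0 ω T e0 e1 e2) (pP1 ω T e0 e1 e2) (pP2 ω T e0 e1 e2) =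
      ω * ((T * pN T e0 e1 e2 ^ 2 * pC ω T e0 e1 e2) * (-T * pK ω T e0 e1 e2 ^ 2)) -
      ω^2 * (T^2 * pN T e0 e1 e2 ^ 2 * pK ω T e0 e1 e2 ^ 3) := by
    linear_combination ω^2 * h1 - (pK ω T (pP0 ω T e0 e1 e2) (pP1 ω T e0 e1 e2)
      (pP2 ω T e0 e1 e2) - ω * ((T * pN T e0 e1 e2 ^ 2 * pC ω T e0 e1 e2) *
      (-T * pK ω T e0 e1 e2 ^ 2))) * hω3
  rw [h3]
  linear_combination (-ω * T^2 * pN T e0 e1 e2^2 * pK ω T e0 e1 e2^2) * h2 -
    (T^2 * pN T e0 e1 e2 ^ 3 * pK ω T e0 e1 e2 ^ 2 * pT ω T e0 e1 e2) * hω3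

end Pool.Agent.Work.MP_c5a777_ag

end
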