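import Pool.Agent.Work.MP_c5a777_ag.Defs
import Pool.Agent.Work.MP_c5a777_ag.Bd.B02

/-! Bundle of small proof modules (one section per former module). -/

section

/-!
Leading forms of the explicit polynomials.
-/

open Polynomial

namespace Pool.Agent.Work.MP_c5a777_ag

section T3b
variable {K : Type*} [Field K] {ω T : K}

theorem lead_phi_X : phi (K := K) X = C X * X := by
  simp [phi]

theorem lead_phi_CX : phi (K := K) (C X) = X := by
  simp [phi]

theorem lead_phi_cc (k : K) : phi (cc k) = C (C k) := by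
  simp [phi, cc]

theorem lead_aux {R : Type*} [CommRing R] {f g : R[X]} {a : R} {n : ℕ}
    (h : f = C a * X ^ n + g) (ha : a ≠ 0) (hg : g.natDegree < n) :
    f.natDegree = n ∧ f.leadingCoeff = a := by
  have h1 : f.natDegree = n := by
    rw [h]
    have h2 : (C a * X ^ n : R[X]).natDegree = n := natDegree_C_mul_X_pow n a ha
    rw [natDegree_add_eq_left_of_natDegree_lt (by rw [h2]; exact hg), h2]
  refine ⟨h1, ?_⟩
  rw [leadingCoeff, h1, h]
  simp [coeff_eq_zero_of_natDegree_lt hg]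

theorem lead_two_ω (hω : ω ^ 2 + ω + 1 = 0) (h3 : (3 : K) ≠ 0) : 2 * ω + 1 ≠ 0 := by
  intro h
  apply h3
  linear_combination 4 * hω - (2 * ω + 1) * h

theorem lead_one_sub (hω : ω ^ 2 + ω + 1 = 0) (h3 : (3 : K) ≠ 0) : 1 - ω ≠ 0 := by
  intro h
  apply h3
  linear_combination hω + (2 + ω) * h

theorem lead_add_two (hω : ω ^ 2 + ω + 1 = 0) (h3 : (3 : K) ≠ 0) : ω + 2 ≠ 0 := by
  intro h
  apply h3
  linear_combination hω + (1 - ω) * h

theorem lead_cube_ne (a : K) : (X ^ 3 - C a : K[X]) ≠ 0 := X_pow_sub_C_ne_zero (by norm_num) a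

theorem phi_gN (hT : T ≠ 0) : (phi (gN T)).natDegree = 3 ∧
    (phi (gN T)).leadingCoeff = C T * (X ^ 3 - C (-T)) := by
  refine lead_aux (g := C (-3 * C T * X) * X ^ 2 + C 1) ?_ ?_ ?_
  · simp only [gN, pN, map_add, map_sub, map_mul, map_pow, map_one, map_ofNat, map_neg,
      lead_phi_X, lead_phi_CX, lead_phi_cc]
    ring
  · exact mul_ne_zero (C_ne_zero.mpr hT) (lead_cube_ne _)
  · refine Nat.lt_succ_of_le ?_
    compute_degree

theorem phi_gT (hω : ω ^ 2 + ω + 1 = 0) (h3 : (3 : K) ≠ 0) (hT : T ≠ 0) :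
    (phi (gT ω T)).natDegree = 3 ∧
    (phi (gT ω T)).leadingCoeff = C (3 * (1 - ω) * T) * (X ^ 3 - C (-T)) := by
  refine lead_aux (g := C ((18 + 9 * C ω) * C T * X) * X ^ 2 + C (3 - 3 * C ω)) ?_ ?_ ?_
  · simp only [gT, pT, map_add, map_sub, map_mul, map_pow, map_one, map_ofNat, map_neg,
      lead_phi_X, lead_phi_CX, lead_phi_cc]
    ring
  · refine mul_ne_zero (C_ne_zero.mpr ?_) (lead_cube_ne _)
    exact mul_ne_zero (mul_ne_zero h3 (lead_one_sub hω h3)) hT
  · refine Nat.lt_succ_of_le ?_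
    compute_degree

/-- here `θ` is a root of `θ² - (1 - 3 ω²) θ + 1 = 0` -/
theorem phi_gC (hω : ω ^ 2 + ω + 1 = 0) (h3 : (3 : K) ≠ 0) (hT : T ≠ 0) (θ : K)
    (hθ : θ ^ 2 - (1 - 3 * ω ^ 2) * θ + 1 = 0) :
    (phi (gC ω T)).natDegree = 6 ∧
    (phi (gC ω T)).leadingCoeff =
      C ((-6 * ω - 3) * T ^ 2) *
        ((X ^ 3 - C (θ * T)) * (X ^ 3 - C ((1 - 3 * ω ^ 2 - θ) * T))) := by
  have hω' := congrArg (fun a : K => (C (C a) : K[X][X])) hω
  have hθ' := congrArg (fun a : K => (C (C a) : K[X][X])) hθ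
  simp only [map_add, map_sub, map_mul, map_pow, map_one, map_ofNat, map_neg, map_zero] at hω' hθ'
  refine lead_aux (g :=
    C ((-9 - 18 * C ω) * C T ^ 3 * X + (-9 - 18 * C ω) * C T ^ 2 * X ^ 4) * X ^ 5 +
    C ((54 + 27 * C ω) * C T ^ 2 * X ^ 2) * X ^ 4 +
    C ((-6 + 15 * C ω) * C T ^ 2 + (-6 + 15 * C ω) * C T * X ^ 3) * X ^ 3 +
    C ((-9 - 18 * C ω) * C T * X) * X ^ 2 + C (-3 - 6 * C ω)) ?_ ?_ ?_
  · simp only [gC, pC, map_add, map_sub, map_mul, map_pow, map_one, map_ofNat, map_neg,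
      lead_phi_X, lead_phi_CX, lead_phi_cc]
    linear_combination (C (C T) ^ 3 * C X ^ 3 * (18 * C (C ω) - 9) * X ^ 6) * hω' +
      (C (C T) ^ 4 * (-3 - 6 * C (C ω)) * X ^ 6) * hθ'
  · refine mul_ne_zero (C_ne_zero.mpr ?_) (mul_ne_zero (lead_cube_ne _) (lead_cube_ne _))
    refine mul_ne_zero ?_ (pow_ne_zero _ hT)
    have h1 : -6 * ω - 3 = -(3 * (2 * ω + 1)) := by ring
    rw [h1]
    exact neg_ne_zero.mpr (mul_ne_zero h3 (lead_two_ω hω h3))
  · refine Nat.lt_succ_of_le ?_
    compute_degree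

/-- here `θ` is a root of `θ² - (1 - 3 ω) θ + 1 = 0` -/
theorem phi_gK (hω : ω ^ 2 + ω + 1 = 0) (h3 : (3 : K) ≠ 0) (hT : T ≠ 0) (θ : K)
    (hθ : θ ^ 2 - (1 - 3 * ω) * θ + 1 = 0) :
    (phi (gK ω T)).natDegree = 6 ∧
    (phi (gK ω T)).leadingCoeff =
      C ((3 * ω + 6) * T ^ 2) * ((X ^ 3 - C (θ * T)) * (X ^ 3 - C ((1 - 3 * ω - θ) * T))) := by
  have hω' := congrArg (fun a : K => (C (C a) : K[X][X])) hω
  have hθ' := congrArg (fun a : K => (C (C a) : K[X][X])) hθ
  simp only [map_add, map_sub, map_mul, map_pow, map_one, map_ofNat, map_neg, map_zero] at hω' hθ'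
  refine lead_aux (g :=
    C ((-9 - 18 * C ω) * C T ^ 3 * X + (-9 - 18 * C ω) * C T ^ 2 * X ^ 4) * X ^ 5 +
    C ((54 + 27 * C ω) * C T ^ 2 * X ^ 2) * X ^ 4 +
    C ((-15 + 6 * C ω) * C T ^ 2 + (-15 + 6 * C ω) * C T * X ^ 3) * X ^ 3 +
    C ((-9 - 18 * C ω) * C T * X) * X ^ 2 + C (6 + 3 * C ω)) ?_ ?_ ?_
  · simp only [gK, pK, map_add, map_sub, map_mul, map_pow, map_one, map_ofNat, map_neg,
      lead_phi_X, lead_phi_CX, lead_phi_cc]
    linear_combination (-9 * C (C T) ^ 3 * C X ^ 3 * X ^ 6) * hω' +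
      (C (C T) ^ 4 * (6 + 3 * C (C ω)) * X ^ 6) * hθ'
  · refine mul_ne_zero (C_ne_zero.mpr ?_) (mul_ne_zero (lead_cube_ne _) (lead_cube_ne _))
    refine mul_ne_zero ?_ (pow_ne_zero _ hT)
    have h1 : 3 * ω + 6 = 3 * (ω + 2) := by ring
    rw [h1]
    exact mul_ne_zero h3 (lead_add_two hω h3)
  · refine Nat.lt_succ_of_le ?_
    compute_degree

theorem phi_gP0 (hω : ω ^ 2 + ω + 1 = 0) (h3 : (3 : K) ≠ 0) (hT : T ≠ 0) :
    (phi (gP0 ω T)).natDegree = 4 ∧
    (phi (gP0 ω T)).leadingCoeff =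
      C ((2 * ω + 1) * T ^ 2) * (X ^ 3 - C (-ω ^ 2 * T)) := by
  have hω' := congrArg (fun a : K => (C (C a) : K[X][X])) hω
  simp only [map_add, map_sub, map_mul, map_pow, map_one, map_ofNat, map_neg, map_zero] at hω'
  refine lead_aux (g :=
    C (-3 * C T ^ 2 * X) * X ^ 3 + C (-3 * C ω * C T * X ^ 2) * X ^ 2 +
      C (C T * (1 + 2 * C ω)) * X) ?_ ?_ ?_
  · simp only [gP0, pP0, map_add, map_sub, map_mul, map_pow, map_one, map_ofNat, map_neg,
      lead_phi_X, lead_phi_CX, lead_phi_cc]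
    linear_combination (-C (C T) ^ 3 * (2 * C (C ω) - 1) * X ^ 4) * hω'
  · refine mul_ne_zero (C_ne_zero.mpr ?_) (lead_cube_ne _)
    exact mul_ne_zero (lead_two_ω hω h3) (pow_ne_zero _ hT)
  · refine Nat.lt_succ_of_le ?_
    compute_degree

theorem phi_gQ0 (hω : ω ^ 2 + ω + 1 = 0) (h3 : (3 : K) ≠ 0) (hT : T ≠ 0) :
    (phi (gQ0 ω T)).natDegree = 4 ∧
    (phi (gQ0 ω T)).leadingCoeff =
      C (-3 * T ^ 2) * (X * (X ^ 3 - C (-ω ^ 2 * T))) := by
  have hω' := congrArg (fun a : K => (C (C a) : K[X][X])) hω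
  simp only [map_add, map_sub, map_mul, map_pow, map_one, map_ofNat, map_neg, map_zero] at hω'
  refine lead_aux (g :=
    C ((-6 - 3 * C ω) * C T ^ 2 * X ^ 2) * X ^ 3 + C ((3 - 3 * C ω) * C T ^ 2) * X ^ 2 +
      C ((3 + 3 * C ω) * C T * X) * X) ?_ ?_ ?_
  · simp only [gQ0, pQ0, map_add, map_sub, map_mul, map_pow, map_one, map_ofNat, map_neg,
      lead_phi_X, lead_phi_CX, lead_phi_cc]
    linear_combination (3 * C (C T) ^ 3 * C X * X ^ 4) * hω'
  · refine mul_ne_zero (C_ne_zero.mpr ?_) (mul_ne_zero X_ne_zero (lead_cube_ne _))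
    exact mul_ne_zero (neg_ne_zero.mpr h3) (pow_ne_zero _ hT)
  · refine Nat.lt_succ_of_le ?_
    compute_degree

theorem phi_deg_le (hT : T ≠ 0) :
    (phi (gP1 ω T)).natDegree ≤ 4 ∧ (phi (gP2 ω T)).natDegree ≤ 4 ∧
    (phi (gQ1 ω T)).natDegree ≤ 4 ∧ (phi (gQ2 ω T)).natDegree ≤ 4 := by
  refine ⟨?_, ?_, ?_, ?_⟩
  · have h : phi (gP1 ω T) = C (-3 * C ω * C T ^ 2 * X ^ 2) * X ^ 4 +
      C (C T ^ 2 * (1 + 2 * C ω) + C T * (1 + 2 * C ω) * X ^ 3) * X ^ 3 +
      C (-3 * C T * X) * X ^ 2 + C (1 - C ω) := by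
      simp only [gP1, pP1, map_add, map_sub, map_mul, map_pow, map_one, map_ofNat, map_neg,
        lead_phi_X, lead_phi_CX, lead_phi_cc]
      ring
    rw [h]
    compute_degree
  · have h : phi (gP2 ω T) = C ((1 + 2 * C ω) * C T ^ 2 * X + (1 - C ω) * C T * X ^ 4) * X ^ 4 +
      C (-3 * C T * X ^ 2) * X ^ 3 +
      C (-3 * C ω * C T) * X ^ 2 + C ((1 + 2 * C ω) * X) * X := by
      simp only [gP2, pP2, map_add, map_sub, map_mul, map_pow, map_one, map_ofNat, map_neg,
        lead_phi_X, lead_phi_CX, lead_phi_cc]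
      ring
    rw [h]
    compute_degree
  · have h : phi (gQ1 ω T) = C (-3 * C T ^ 3 + (3 + 3 * C ω) * C T ^ 2 * X ^ 3) * X ^ 4 +
      C ((-6 - 3 * C ω) * C T ^ 2 * X) * X ^ 3 +
      C ((3 - 3 * C ω) * C T * X ^ 2) * X ^ 2 + C ((3 + 3 * C ω) * C T) * X := by
      simp only [gQ1, pQ1, map_add, map_sub, map_mul, map_pow, map_one, map_ofNat, map_neg,
        lead_phi_X, lead_phi_CX, lead_phi_cc]
      ring
    rw [h]
    compute_degree
  · have h : phi (gQ2 ω T) = C ((3 - 3 * C ω) * C T ^ 2 * X ^ 2) * X ^ 4 +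
      C ((3 + 3 * C ω) * C T ^ 2 + (3 + 3 * C ω) * C T * X ^ 3) * X ^ 3 +
      C ((-6 - 3 * C ω) * C T * X) * X ^ 2 + C (-3) := by
      simp only [gQ2, pQ2, map_add, map_sub, map_mul, map_pow, map_one, map_ofNat, map_neg,
        lead_phi_X, lead_phi_CX, lead_phi_cc]
      ring
    rw [h]
    compute_degree

end T3b

end Pool.Agent.Work.MP_c5a777_ag

end

section

open Polynomial

namespace Pool.Agent.Work.MP_c5a777_ag

section T3a
variable {K : Type*} [Field K]

theorem phi_monomial (n : ℕ) (q : K[X]) :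
    phi (monomial n q) = q.map C * (C (X ^ n) * X ^ n) := by
  rw [phi, coe_eval₂RingHom, eval₂_monomial, coe_mapRingHom, mul_pow, ← C_pow]

theorem phi_coeff (a : K[X][X]) (n j : ℕ) :
    ((phi a).coeff n).coeff j = if j ≤ n then (a.coeff j).coeff (n - j) else 0 := by
  induction a using Polynomial.induction_on' with
  | add p q hp hq =>
    rw [map_add, coeff_add, coeff_add, hp, hq, coeff_add, coeff_add]
    split_ifs <;> simp
  | monomial m q =>
    rw [phi_monomial, ← mul_assoc, coeff_mul_X_pow']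
    by_cases hmn : m ≤ n
    · rw [if_pos hmn, coeff_mul_C, coeff_map, coeff_C_mul, coeff_X_pow, coeff_monomial]
      by_cases hjm : j = m
      · subst hjm
        rw [if_pos rfl, if_pos hmn, if_pos rfl, mul_one]
      · rw [if_neg hjm, if_neg (Ne.symm hjm), coeff_zero, mul_zero, ite_self]
    · rw [if_neg hmn, coeff_zero, coeff_monomial]
      by_cases hjn : j ≤ n
      · rw [if_pos hjn, if_neg (by omega), coeff_zero]
      · rw [if_neg hjn]

theorem coeff_phi_add (a : K[X][X]) (i j : ℕ) :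
    ((phi a).coeff (i + j)).coeff j = (a.coeff j).coeff i := by
  rw [phi_coeff, if_pos (Nat.le_add_left j i), Nat.add_sub_cancel]

theorem phi_injective : Function.Injective (phi (K := K)) := by
  rw [injective_iff_map_eq_zero]
  intro a ha
  ext j i
  rw [← coeff_phi_add, ha]
  simp

theorem natDegree_lc_le (a : K[X][X]) :
    (phi a).leadingCoeff.natDegree ≤ (phi a).natDegree := by
  rw [natDegree_le_iff_coeff_eq_zero]
  intro N hN
  rw [leadingCoeff, phi_coeff, if_neg (by omega)]

/-- divisors of a polynomial whose top form is `Good` and of full degree in `X` -/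
theorem three_dvd_of_good {P : K[X][X]} (hP : P ≠ 0)
    (hE : (phi P).leadingCoeff.natDegree = (phi P).natDegree)
    (hG : Good (phi P).leadingCoeff) {π : K[X][X]} (hπ : π ∣ P) :
    3 ∣ (phi π).natDegree := by
  obtain ⟨ρ, rfl⟩ := hπ
  have h1 : π ≠ 0 := left_ne_zero_of_mul hP
  have h2 : ρ ≠ 0 := right_ne_zero_of_mul hP
  have p1 : phi π ≠ 0 := by
    rw [Ne, map_eq_zero_iff _ phi_injective]; exact h1
  have p2 : phi ρ ≠ 0 := by
    rw [Ne, map_eq_zero_iff _ phi_injective]; exact h2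
  rw [map_mul] at hE hG
  rw [leadingCoeff_mul, natDegree_mul (leadingCoeff_ne_zero.mpr p1) (leadingCoeff_ne_zero.mpr p2),
    natDegree_mul p1 p2] at hE
  rw [leadingCoeff_mul] at hG
  have e1 := natDegree_lc_le π
  have e2 := natDegree_lc_le ρ
  have e3 : (phi π).leadingCoeff.natDegree = (phi π).natDegree := by omega
  rw [← e3]
  exact hG _ (dvd_mul_right _ _)

/-- elements with D ≤ 1 -/
theorem linear_of_natDegree_le_one {a : K[X][X]} (h : (phi a).natDegree ≤ 1) :
    ∃ k0 k1 k2 : K, a = cc k0 + cc k1 * X + cc k2 * C X ∧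
      (phi a).coeff 1 = C k1 * X + C k2 := by
  have hz : ∀ i j : ℕ, 2 ≤ i + j → (a.coeff j).coeff i = 0 := by
    intro i j hij
    have h0 : (phi a).coeff (i + j) = 0 := coeff_eq_zero_of_natDegree_lt (by omega)
    rw [← coeff_phi_add, h0, coeff_zero]
  refine ⟨(a.coeff 0).coeff 0, (a.coeff 1).coeff 0, (a.coeff 0).coeff 1, ?_, ?_⟩
  · ext j i
    simp only [cc, RingHom.comp_apply, coeff_add, coeff_C_mul, coeff_X]
    rcases j with _ | _ | j
    · rcases i with _ | _ | i
      · simp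
      · simp
      · rw [hz _ _ (by omega)]
        simp [coeff_X]
    · rcases i with _ | i
      · simp
      · rw [hz _ _ (by omega)]
        simp [coeff_one]
    · rw [hz _ _ (by omega)]
      simp
  · ext j
    rw [phi_coeff]
    rcases j with _ | _ | j
    · simp
    · simp
    · simp

end T3a

end Pool.Agent.Work.MP_c5a777_ag

end

section

/-!
# The tame symbol of `(t, f0)` is a cube at every valuation ring
-/

set_option autoImplicit false

namespace Pool.Agent.Work.MP_c5a777_ag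

namespace Tame

variable {L : Type*} [Field L] (A : ValuationSubring L)

/-- `s` is congruent to a cube -/
def CR (s : L) : Prop := ∃ r : L, A.valuation r ≤ 1 ∧ A.valuation (s - r ^ 3) < 1

theorem pi_lt {π : A} (hπ : Irreducible π) : A.valuation (π : L) < 1 := by
  rw [← A.valuation_lt_one_iff, IsLocalRing.mem_maximalIdeal]
  exact hπ.not_isUnit

theorem pi_ne {π : A} (hπ : Irreducible π) : ((π : A) : L) ≠ 0 := by
  intro h
  apply hπ.ne_zero
  exact Subtype.ext h

theorem le_pi {π : A} (hπ : Irreducible π) {x : L} (hx : A.valuation x < 1) :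
    A.valuation x ≤ A.valuation (π : L) := by
  have hxA : x ∈ A := A.mem_of_valuation_le_one x hx.le
  rcases ValuationRing.dvd_total (⟨x, hxA⟩ : A) π with h | h
  · obtain ⟨y, hy⟩ := h
    rcases hπ.isUnit_or_isUnit hy with h1 | h1
    · exfalso
      have := (A.valuation_eq_one_iff _).mp h1
      exact hx.ne this
    · have h2 := (A.valuation_eq_one_iff _).mp h1
      have h3 : ((π : A) : L) = x * (y : L) := congrArg Subtype.val hy
      rw [h3, map_mul, h2, mul_one]
  · obtain ⟨y, hy⟩ := h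
    have h3 : x = ((π : A) : L) * (y : L) := congrArg Subtype.val hy
    rw [h3, map_mul]
    exact mul_le_of_le_one_right' (A.valuation_le_one y)

theorem cube_exp {π : A} (hπ : Irreducible π) (g : L) (m : ℤ)
    (h : A.valuation g ^ 3 = A.valuation (π : L) ^ m) :
    ∃ q : ℤ, m = 3 * q ∧ A.valuation g = A.valuation (π : L) ^ q := by
  set p := A.valuation (π : L) with hp
  have hp0 : p ≠ 0 := (Valuation.ne_zero_iff _).mpr (pi_ne A hπ)
  have hp1 : p < 1 := pi_lt A hπ
  set x : L := g / (π : L) ^ (m / 3) with hx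
  have hvx : A.valuation x = A.valuation g * p ^ (-(m / 3)) := by
    rw [hx, map_div₀, map_zpow₀, ← hp, zpow_neg, div_eq_mul_inv]
  have hx3 : A.valuation x ^ 3 = p ^ (m % 3) := by
    rw [hvx, mul_pow, h, ← zpow_natCast, ← zpow_mul, ← zpow_add₀ hp0]
    congr 1
    have := Int.emod_add_mul_ediv m 3
    push_cast
    omega
  have hm0 : 0 ≤ m % 3 := Int.emod_nonneg m (by norm_num)
  have hm3 : m % 3 < 3 := Int.emod_lt_of_pos m (by norm_num)
  have hcase : m % 3 = 0 := by
    by_contra hne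
    have hpos : 0 < m % 3 := lt_of_le_of_ne hm0 (Ne.symm hne)
    have h1 : A.valuation x ^ 3 < 1 := by
      rw [hx3]
      have h7 := zpow_lt_zpow_right_of_lt_one₀ (zero_lt_iff.mpr hp0) hp1 hpos
      rwa [zpow_zero] at h7
    have h2 : A.valuation x < 1 := by
      by_contra hc
      push Not at hc
      exact absurd h1 (not_lt.2 (one_le_pow_of_one_le' hc 3))
    have h3 : A.valuation x ≤ p := le_pi A hπ h2
    have h4 : A.valuation x ^ 3 ≤ p ^ 3 := pow_le_pow_left' h3 3
    rw [hx3] at h4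
    have h5 : p ^ (3 : ℕ) < p ^ (m % 3) := by
      rw [← zpow_natCast]
      push_cast
      exact zpow_lt_zpow_right_of_lt_one₀ (zero_lt_iff.mpr hp0) hp1 hm3
    exact absurd h4 (not_le.2 h5)
  refine ⟨m / 3, ?_, ?_⟩
  · have := Int.emod_add_mul_ediv m 3
    omega
  · rw [hcase, zpow_zero] at hx3
    have h1 : A.valuation x = 1 := (pow_eq_one_iff.mp hx3).resolve_right (by norm_num)
    rw [hvx] at h1
    have h2 : p ^ (m / 3) ≠ 0 := zpow_ne_zero _ hp0
    rw [zpow_neg] at h1
    exact (mul_inv_eq_one₀ h2).mp h1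

theorem res_cube (s : Aˣ) (r : L) (hr : A.valuation r ≤ 1)
    (h : A.valuation (((s : A) : L) - r ^ 3) < 1) :
    ∃ ρ : IsLocalRing.ResidueField A, ρ ^ 3 = IsLocalRing.residue A (s : A) := by
  have hrA : r ∈ A := A.mem_of_valuation_le_one r hr
  refine ⟨IsLocalRing.residue A ⟨r, hrA⟩, ?_⟩
  rw [← map_pow, ← sub_eq_zero, ← map_sub, IsLocalRing.residue_eq_zero_iff,
    A.valuation_lt_one_iff]
  have e : (((⟨r, hrA⟩ : A) ^ 3 - (s : A) : A) : L) = -(((s : A) : L) - r ^ 3) := by
    push_cast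
    ring
  rw [e, Valuation.map_neg]
  exact h

/-- writing an element in two ways as unit times cube -/
theorem transfer {π : A} (hπ : Irreducible π) (s : Aˣ) (m : ℤ) (a g u : L)
    (ha : a = ((s : A) : L) * ((π : A) : L) ^ m) (hg : a = g ^ 3 * u) (hu : A.valuation u = 1) :
    ∃ q : ℤ, m = 3 * q ∧ (CR A u → ∃ ρ : IsLocalRing.ResidueField A,
      ρ ^ 3 = IsLocalRing.residue A (s : A)) := by
  have hs : A.valuation ((s : A) : L) = 1 := A.valuation_unit s
  have h1 : A.valuation g ^ 3 = A.valuation (π : L) ^ m := by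
    have e1 : A.valuation a = A.valuation (π : L) ^ m := by
      rw [ha, map_mul, hs, one_mul, map_zpow₀]
    rw [← e1, hg, map_mul, hu, mul_one, map_pow]
  obtain ⟨q, hq, hgq⟩ := cube_exp A hπ g m h1
  refine ⟨q, hq, ?_⟩
  rintro ⟨r, hr, hlt⟩
  have hp0 : ((π : A) : L) ≠ 0 := pi_ne A hπ
  have hpq : ((π : A) : L) ^ q ≠ 0 := zpow_ne_zero _ hp0
  set g' : L := g / ((π : A) : L) ^ q with hg'
  have hvg' : A.valuation g' = 1 := by
    rw [hg', map_div₀, map_zpow₀, hgq]
    exact div_self (zpow_ne_zero _ ((Valuation.ne_zero_iff _).mpr hp0))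
  have hse : ((s : A) : L) = g' ^ 3 * u := by
    have e1 : ((s : A) : L) * (((π : A) : L) ^ q) ^ 3 = g ^ 3 * u := by
      rw [← hg, ha, hq]
      congr 1
      rw [← zpow_natCast, ← zpow_mul, mul_comm]
      norm_num
    rw [hg', div_pow, div_mul_eq_mul_div, eq_div_iff (pow_ne_zero 3 hpq)]
    exact e1
  apply res_cube A s (g' * r)
  · rw [map_mul, hvg', one_mul]; exact hr
  · rw [hse]
    have e : g' ^ 3 * u - (g' * r) ^ 3 = g' ^ 3 * (u - r ^ 3) := by ring
    rw [e, map_mul, map_pow, hvg', one_pow, one_mul]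
    exact hlt

theorem neg_one_zpow_cube {F : Type*} [Field F] (k : ℤ) : (((-1 : F)) ^ k) ^ 3 = (-1) ^ k := by
  rcases Int.even_or_odd k with h | h
  · rw [h.neg_one_zpow, one_pow]
  · rw [h.neg_one_zpow]; norm_num

/-- criterion (a) -/
theorem tame_a (t f g u : L) (ht : t = g ^ 3 * u) (hu : A.valuation u = 1) (hc : CR A u) :
    TameCube A t f := by
  intro π s w m n hπ hs hw
  obtain ⟨q, hq, hρ⟩ := transfer A hπ s m t g u hs ht hu
  obtain ⟨ρ, hρ⟩ := hρ hc
  refine ⟨(-1) ^ (m * n) * ρ ^ n * IsLocalRing.residue A (w : A) ^ (-q), ?_⟩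
  rw [mul_pow, mul_pow, neg_one_zpow_cube]
  congr 1
  · congr 1
    rw [← hρ, ← zpow_natCast, ← zpow_mul, ← zpow_natCast, ← zpow_mul, mul_comm]
  · rw [← zpow_natCast, ← zpow_mul]
    congr 1
    push_cast
    omega

/-- criterion (b) -/
theorem tame_b (t f g u h w' : L) (ht : t = g ^ 3 * u) (hu : A.valuation u = 1)
    (hf : f = h ^ 3 * w') (hw' : A.valuation w' = 1) : TameCube A t f := by
  intro π s w m n hπ hs hw
  obtain ⟨q, hq, -⟩ := transfer A hπ s m t g u hs ht hu
  obtain ⟨k, hk, -⟩ := transfer A hπ w n f h w' hw hf hw'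
  refine ⟨(-1) ^ (m * n) * IsLocalRing.residue A (s : A) ^ k *
    IsLocalRing.residue A (w : A) ^ (-q), ?_⟩
  rw [mul_pow, mul_pow, neg_one_zpow_cube]
  congr 1
  · congr 1
    rw [← zpow_natCast, ← zpow_mul]
    congr 1
    push_cast
    omega
  · rw [← zpow_natCast, ← zpow_mul]
    congr 1
    push_cast
    omega

/-- criterion (c) -/
theorem tame_c (t f h w' : L) (hf : f = h ^ 3 * w') (hw' : A.valuation w' = 1)
    (hc : CR A w') : TameCube A t f := by
  intro π s w m n hπ hs hw
  obtain ⟨k, hk, hρ⟩ := transfer A hπ w n f h w' hw hf hw'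
  obtain ⟨ρ, hρ⟩ := hρ hc
  refine ⟨(-1) ^ (m * n) * IsLocalRing.residue A (s : A) ^ k * ρ ^ (-m), ?_⟩
  rw [mul_pow, mul_pow, neg_one_zpow_cube]
  congr 1
  · congr 1
    rw [← zpow_natCast, ← zpow_mul]
    congr 1
    push_cast
    omega
  · rw [← hρ, ← zpow_natCast, ← zpow_mul, ← zpow_natCast, ← zpow_mul, mul_comm]

/-- `v f = v h ^ 3` gives the form needed in criterion (b) -/
theorem tame_b' (t f g u h : L) (ht : t = g ^ 3 * u) (hu : A.valuation u = 1)
    (hh : h ≠ 0) (hf : A.valuation f = A.valuation h ^ 3) : TameCube A t f := by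
  refine tame_b A t f g u h (f / h ^ 3) ht hu ?_ ?_
  · rw [mul_div_cancel₀]
    exact pow_ne_zero 3 hh
  · rw [map_div₀, map_pow, hf]
    exact div_self (pow_ne_zero 3 ((Valuation.ne_zero_iff _).mpr hh))

section main

variable [Algebra ℂ L]

theorem const_le (hC : ∀ z : ℂ, algebraMap ℂ L z ∈ A) (z : ℂ) :
    A.valuation (algebraMap ℂ L z) ≤ 1 := A.valuation_le_one ⟨_, hC z⟩

theorem const_eq (hC : ∀ z : ℂ, algebraMap ℂ L z ∈ A) (z : ℂ) (hz : z ≠ 0) :
    A.valuation (algebraMap ℂ L z) = 1 := by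
  have h1 := const_le A hC z
  have h2 := const_le A hC z⁻¹
  apply le_antisymm h1
  have h3 : algebraMap ℂ L z * algebraMap ℂ L z⁻¹ = 1 := by
    rw [← map_mul, mul_inv_cancel₀ hz, map_one]
  have h4 : A.valuation (algebraMap ℂ L z) * A.valuation (algebraMap ℂ L z⁻¹) = 1 := by
    rw [← map_mul, h3, map_one]
  rw [← h4]
  exact mul_le_of_le_one_right' h2

omit [Algebra ℂ L] in
theorem cr_inv {u : L} (hu : A.valuation u = 1) (h : CR A u⁻¹) : CR A u := by
  obtain ⟨r, hr, hlt⟩ := h
  have hu0 : u ≠ 0 := by rintro rfl; simp at hu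
  have hvr : A.valuation r = 1 := by
    apply KeyVal.kv_pow_eq_one A.valuation (n := 3) (by norm_num)
    rw [← map_pow]
    have e : r ^ 3 = u⁻¹ + -(u⁻¹ - r ^ 3) := by ring
    rw [e]
    apply KeyVal.kv_unit_add
    · rw [map_inv₀, hu, inv_one]
    · rw [Valuation.map_neg]; exact hlt
  have hr0 : r ≠ 0 := by rintro rfl; simp at hvr
  refine ⟨r⁻¹, by rw [map_inv₀, hvr, inv_one], ?_⟩
  have e : u - r⁻¹ ^ 3 = -(u * r⁻¹ ^ 3 * (u⁻¹ - r ^ 3)) := by
    field_simp
    ring
  rw [e, Valuation.map_neg, map_mul, map_mul, hu, map_pow, map_inv₀, hvr, inv_one, one_pow,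
    one_mul, one_mul]
  exact hlt

end main

end Tame

open Tame

/-- T4b -/
theorem tame_main {L : Type*} [Field L] [Algebra ℂ L] (A : ValuationSubring L)
    (hC : ∀ z : ℂ, algebraMap ℂ L z ∈ A) (ω : ℂ) (hω : ω ^ 2 + ω + 1 = 0)
    (t x y z : L) (ht0 : t ≠ 0) (ht1 : t ≠ 1)
    (hx : x ^ 3 + t⁻¹ * y ^ 3 + t / (t - 1) * z ^ 3 + (t - 1) = 0)
    (hf : t / (t - 1) * z ^ 3 - algebraMap ℂ L ω ^ 2 * (t - 1)
      - (1 - algebraMap ℂ L ω) * (y * z) ≠ 0) :
    TameCube A t (t / (t - 1) * z ^ 3 - algebraMap ℂ L ω ^ 2 * (t - 1)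
      - (1 - algebraMap ℂ L ω) * (y * z)) := by
  classical
  set v := A.valuation with hv
  set W := algebraMap ℂ L ω with hW
  have hWeq : W ^ 2 + W + 1 = 0 := by
    rw [hW, ← map_pow, ← map_add, ← map_one (algebraMap ℂ L), ← map_add, hω, map_zero]
  have h3 : v (3 : L) = 1 := by
    have := const_eq A hC 3 (by norm_num)
    rwa [map_ofNat] at this
  have hω0 : ω ≠ 0 := by rintro rfl; norm_num at hω
  have hvW : v W = 1 := const_eq A hC ω hω0
  have h1W : v (1 - W) ≤ 1 := by
    have := const_le A hC (1 - ω)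
    rwa [map_sub, map_one] at this
  have hd0 : t - 1 ≠ 0 := sub_ne_zero.mpr ht1
  have hvt0 : v t ≠ 0 := (Valuation.ne_zero_iff v).mpr ht0
  have hvd0 : v (t - 1) ≠ 0 := (Valuation.ne_zero_iff v).mpr hd0
  set f := t / (t - 1) * z ^ 3 - W ^ 2 * (t - 1) - (1 - W) * (y * z) with hfdef
  -- Case 1
  by_cases h1 : v (t - 1) < 1
  · have hvt : v t = 1 := by
      have e : t = 1 + (t - 1) := by ring
      rw [e]
      exact KeyVal.kv_unit_add v (map_one v) h1
    refine tame_a A t f 1 t (by ring) hvt ⟨1, (map_one v).le, ?_⟩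
    rw [one_pow]; exact h1
  -- Case 2
  by_cases h2 : ∃ g : L, v t = v g ^ 3
  · obtain ⟨g, hg⟩ := h2
    rcases lt_trichotomy (v t) 1 with hlt | heq | hgt
    · -- v t < 1
      have hg0 : g ≠ 0 := by
        rintro rfl
        rw [map_zero, zero_pow (by norm_num)] at hg
        exact hvt0 hg
      set u := t / g ^ 3 with hu
      have hu0 : u ≠ 0 := div_ne_zero ht0 (pow_ne_zero 3 hg0)
      have hvu : v u = 1 := by
        rw [hu, map_div₀, map_pow, hg]
        exact div_self (pow_ne_zero 3 ((Valuation.ne_zero_iff v).mpr hg0))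
      have htu : t = g ^ 3 * u := by rw [hu, mul_div_cancel₀ _ (pow_ne_zero 3 hg0)]
      by_cases hc : CR A u
      · exact tame_a A t f g u htu hvu hc
      have hvd : v (t - 1) = 1 := by
        have e : t - 1 = -1 + t := by ring
        rw [e]
        apply KeyVal.kv_unit_add v _ hlt
        rw [Valuation.map_neg, map_one]
      have e1 : u⁻¹ * (y / g) ^ 3 = t⁻¹ * y ^ 3 := by rw [hu]; field_simp
      have e2 : u / (t - 1) * (g * z) ^ 3 = t / (t - 1) * z ^ 3 := by rw [hu]; field_simp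
      have e3 : y / g * (g * z) * 1 = y * z := by field_simp
      have hkey := key_valuation A W hWeq h3 u⁻¹ (u / (t - 1)) (t - 1) x (y / g) (g * z) 1
        (by rw [map_inv₀, ← hv, hvu, inv_one])
        (by rw [map_div₀, ← hv, hvu, hvd, div_one]) hvd
        (by field_simp)
        (by rw [e1, e2, one_pow, mul_one]; exact hx)
        (fun r hr hlt' => hc (cr_inv A hvu ⟨r, hr, hlt'⟩))
        (by rw [e2, e3, one_pow, mul_one]; exact hf)
      rw [e2, e3, one_pow, mul_one] at hkey
      obtain ⟨h, hh0, hh⟩ := hkey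
      exact tame_b' A t f g u h htu hvu hh0 hh
    · -- v t = 1
      by_cases hc : CR A t
      · exact tame_a A t f 1 t (by ring) heq hc
      have hvd : v (t - 1) = 1 := by
        apply le_antisymm _ (not_lt.mp h1)
        exact v.map_sub_le heq.le (map_one v).le
      have hkey := key_valuation A W hWeq h3 t⁻¹ (t / (t - 1)) (t - 1) x y z 1
        (by rw [map_inv₀, ← hv, heq, inv_one])
        (by rw [map_div₀, ← hv, heq, hvd, div_one]) hvd
        (by field_simp)
        (by rw [one_pow, mul_one]; exact hx)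
        (fun r hr hlt' => hc (cr_inv A heq ⟨r, hr, hlt'⟩))
        (by rw [one_pow, mul_one, mul_one]; exact hf)
      rw [one_pow, mul_one, mul_one] at hkey
      obtain ⟨h, hh0, hh⟩ := hkey
      exact tame_b' A t f 1 t h (by ring) heq hh0 hh
    · -- v t > 1
      have hg0 : g ≠ 0 := by
        rintro rfl
        rw [map_zero, zero_pow (by norm_num)] at hg
        exact hvt0 hg
      set u := t / g ^ 3 with hu
      have hu0 : u ≠ 0 := div_ne_zero ht0 (pow_ne_zero 3 hg0)
      have hvu : v u = 1 := by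
        rw [hu, map_div₀, map_pow, hg]
        exact div_self (pow_ne_zero 3 ((Valuation.ne_zero_iff v).mpr hg0))
      have htu : t = g ^ 3 * u := by rw [hu, mul_div_cancel₀ _ (pow_ne_zero 3 hg0)]
      by_cases hc : CR A u
      · exact tame_a A t f g u htu hvu hc
      have hvd : v (t - 1) = v t := by
        have e : t - 1 = t + -1 := by ring
        rw [e]
        apply v.map_add_eq_of_lt_left
        rw [Valuation.map_neg, map_one]; exact hgt
      have e1 : u⁻¹ * (y / g) ^ 3 = t⁻¹ * y ^ 3 := by rw [hu]; field_simp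
      have e2 : u * ((t - 1) / t) * g ^ 3 = t - 1 := by rw [hu]; field_simp
      have e2' : W ^ 2 * (u * ((t - 1) / t)) * g ^ 3 = W ^ 2 * (t - 1) := by
        rw [mul_assoc, e2]
      have e3 : y / g * z * g = y * z := by field_simp
      have hkey := key_valuation A W hWeq h3 u⁻¹ (t / (t - 1)) (u * ((t - 1) / t)) x (y / g) z g
        (by rw [map_inv₀, ← hv, hvu, inv_one])
        (by rw [map_div₀, ← hv, hvd]; exact div_self hvt0)
        (by rw [map_mul, ← hv, hvu, one_mul, map_div₀, hvd]; exact div_self hvt0)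
        (by field_simp)
        (by rw [e1, e2]; exact hx)
        (fun r hr hlt' => hc (cr_inv A hvu ⟨r, hr, hlt'⟩))
        (by rw [e2', e3]; exact hf)
      rw [e2', e3] at hkey
      obtain ⟨h, hh0, hh⟩ := hkey
      exact tame_b' A t f g u h htu hvu hh0 hh
  -- cases 3, 4: the value of `t` is not a cube of a value
  push Not at h2
  have h2' : ∀ a b : L, b ≠ 0 → v t * v b ^ 3 ≠ v a ^ 3 := by
    intro a b hb he
    apply h2 (a / b)
    have hvb : v b ≠ 0 := (Valuation.ne_zero_iff v).mpr hb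
    rw [map_div₀, div_pow, ← he, mul_div_cancel_right₀ _ (pow_ne_zero 3 hvb)]
  have h2'' : ∀ a b : L, b ≠ 0 → v t ^ 2 * v b ^ 3 ≠ v a ^ 3 := by
    intro a b hb he
    -- then `v t = (v (t * b / a)) ^ 3`
    have hvb : v b ≠ 0 := (Valuation.ne_zero_iff v).mpr hb
    have hva : v a ^ 3 ≠ 0 := by
      rw [← he]
      exact mul_ne_zero (pow_ne_zero 2 hvt0) (pow_ne_zero 3 hvb)
    apply h2 (t * b / a)
    rw [map_div₀, map_mul, div_pow, mul_pow, ← he, eq_div_iff (by rw [he]; exact hva),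
      ← mul_assoc, ← pow_succ']
  set B := t⁻¹ * y ^ 3 with hB
  set C := t / (t - 1) * z ^ 3 with hCdef
  have hvB : v B * v t = v y ^ 3 := by
    rw [hB, map_mul, map_inv₀, map_pow]
    field_simp
  have hM3 : (y * z) ^ 3 = B * C * (t - 1) := by rw [hB, hCdef]; field_simp
  rcases lt_trichotomy (v t) 1 with hlt | heq | hgt
  · -- Case 3
    have hvd : v (t - 1) = 1 := by
      have e : t - 1 = -1 + t := by ring
      rw [e]
      apply KeyVal.kv_unit_add v _ hlt
      rw [Valuation.map_neg, map_one]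
    have hvC : v C = v t * v z ^ 3 := by
      rw [hCdef, map_mul, map_div₀, hvd, div_one, map_pow]
    have hmax : v B < 1 ∧ v C < 1 := by
      by_contra hcon
      have hcon' : 1 ≤ v B ∨ 1 ≤ v C := by
        by_contra h
        push Not at h
        exact hcon h
      -- the larger of `B` and `C`
      have key : ∀ E F : L, B + C = E + F → v F < v E → 1 < v E →
          (∀ a : L, v E ≠ v a ^ 3) → False := by
        intro E F hEF hFE hE hne
        have e1 : v (E + F) = v E := v.map_add_eq_of_lt_left hFE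
        have e2 : v (B + C + (t - 1)) = v E := by
          rw [hEF, v.map_add_eq_of_lt_left, e1]
          rw [e1, hvd]; exact hE
        have e3 : x ^ 3 = -(B + C + (t - 1)) := by linear_combination hx
        apply hne x
        rw [← map_pow, e3, Valuation.map_neg, e2]
      have hBne : ∀ a : L, v B = v a ^ 3 → v B = 0 := by
        intro a ha
        by_contra hB0
        have ha0 : a ≠ 0 := by
          rintro rfl
          rw [map_zero, zero_pow (by norm_num)] at ha
          exact hB0 ha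
        apply h2' y a ha0
        rw [← ha, mul_comm]; exact hvB
      have hCne : ∀ a : L, v C = v a ^ 3 → v C = 0 := by
        intro a ha
        by_contra hC0
        have hz0 : z ≠ 0 := by
          rintro rfl
          rw [hvC, map_zero, zero_pow (by norm_num), mul_zero] at hC0
          exact hC0 rfl
        exact h2' a z hz0 (by rw [← hvC]; exact ha)
      have hBC : v B = v C → v B = 0 := by
        intro h
        by_contra hB0
        have hC0 : v C ≠ 0 := by rw [← h]; exact hB0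
        have hz0 : z ≠ 0 := by
          rintro rfl
          rw [hvC, map_zero, zero_pow (by norm_num), mul_zero] at hC0
          exact hC0 rfl
        apply h2'' y z hz0
        rw [← hvB, h, hvC, sq, mul_assoc, mul_assoc, mul_comm (v z ^ 3) (v t)]
      have h01 : (0 : A.ValueGroup) < 1 := zero_lt_one
      rcases lt_trichotomy (v B) (v C) with h | h | h
      · have hC1 : 1 ≤ v C := hcon'.elim (fun h' => h'.trans h.le) id
        have hC0 : v C ≠ 0 := (h01.trans_le hC1).ne'
        have hC1' : 1 < v C := by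
          refine lt_of_le_of_ne hC1 fun h' => hC0 (hCne 1 ?_)
          rw [← h', map_one, one_pow]
        exact key C B (add_comm _ _) h hC1' fun a ha => hC0 (hCne a ha)
      · have hB0 : v B = 0 := hBC h
        rcases hcon' with h' | h'
        · rw [hB0] at h'; exact absurd h' (not_le.2 h01)
        · rw [← h, hB0] at h'; exact absurd h' (not_le.2 h01)
      · have hB1 : 1 ≤ v B := hcon'.elim id (fun h' => h'.trans h.le)
        have hB0 : v B ≠ 0 := (h01.trans_le hB1).ne'
        have hB1' : 1 < v B := by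
          refine lt_of_le_of_ne hB1 fun h' => hB0 (hBne 1 ?_)
          rw [← h', map_one, one_pow]
        exact key B C rfl h hB1' fun a ha => hB0 (hBne a ha)
    have hvM : v (y * z) < 1 := by
      apply KeyVal.kv_of_cube_lt
      rw [hM3, map_mul, hvd, mul_one]
      exact KeyVal.kv_mul_lt v hmax.1.le hmax.2
    obtain ⟨ζ, hζ⟩ : ∃ ζ : ℂ, ζ ^ 3 = ω ^ 2 := IsAlgClosed.exists_pow_nat_eq _ (by norm_num)
    set Z := algebraMap ℂ L ζ with hZ
    have hZ3 : Z ^ 3 = W ^ 2 := by rw [hZ, hW, ← map_pow, hζ, map_pow]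
    have hsm : v (f - W ^ 2) < 1 := by
      have e : f - W ^ 2 = C - W ^ 2 * t - (1 - W) * (y * z) := by rw [hfdef]; ring
      rw [e]
      refine v.map_sub_lt (v.map_sub_lt hmax.2 ?_) (KeyVal.kv_mul_lt v h1W hvM)
      exact KeyVal.kv_mul_lt v (by rw [map_pow, hvW, one_pow]) hlt
    refine tame_c A t f 1 f (by ring) ?_ ⟨Z, const_le A hC ζ, by rw [hZ3]; exact hsm⟩
    have e : f = W ^ 2 + (f - W ^ 2) := by ring
    rw [e]
    exact KeyVal.kv_unit_add v (by rw [map_pow, hvW, one_pow]) hsm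
  · exact absurd (by rw [heq, map_one, one_pow]) (h2 1)
  · -- Case 4
    have hvd : v (t - 1) = v t := by
      have e : t - 1 = t + -1 := by ring
      rw [e]
      apply v.map_add_eq_of_lt_left
      rw [Valuation.map_neg, map_one]; exact hgt
    have hvC : v C = v z ^ 3 := by
      rw [hCdef, map_mul, map_div₀, hvd, div_self hvt0, one_mul, map_pow]
    have hBD : v B ≠ v (t - 1) := by
      intro h
      rw [hvd] at h
      rw [h] at hvB
      apply h2'' y 1 one_ne_zero
      rw [map_one, one_pow, mul_one, sq]; exact hvB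
    have hBne : ∀ a : L, v B = v a ^ 3 → v B = 0 := by
      intro a ha
      by_contra hB0
      have ha0 : a ≠ 0 := by
        rintro rfl
        rw [map_zero, zero_pow (by norm_num)] at ha
        exact hB0 ha
      apply h2' y a ha0
      rw [← ha, mul_comm]; exact hvB
    have hDne : ∀ a : L, v (t - 1) ≠ v a ^ 3 := by
      intro a ha
      rw [hvd] at ha
      exact h2 a ha
    -- the value of `B + D`
    have hE : ∃ E : A.ValueGroup, v (B + (t - 1)) = E ∧ v B ≤ E ∧ v (t - 1) ≤ E ∧ E ≠ 0 ∧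
        ∀ a : L, E ≠ v a ^ 3 := by
      rcases lt_or_gt_of_ne hBD with h | h
      · refine ⟨v (t - 1), ?_, h.le, le_rfl, hvd0, hDne⟩
        exact v.map_add_eq_of_lt_right h
      · refine ⟨v B, v.map_add_eq_of_lt_left h, le_rfl, h.le, ?_, ?_⟩
        · exact (lt_of_le_of_lt zero_le h).ne'
        · intro a ha
          have := hBne a ha
          rw [this] at h
          exact absurd h (not_lt.2 zero_le)
    obtain ⟨E, hE1, hEB, hED, hE0, hEne⟩ := hE
    have hCE : E < v C := by
      by_contra hcon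
      push Not at hcon
      have hlt' : v C < E := lt_of_le_of_ne hcon fun h => hEne z (by rw [← h, hvC])
      apply hEne x
      have e : x ^ 3 = -((B + (t - 1)) + C) := by linear_combination hx
      rw [← map_pow, e, Valuation.map_neg, v.map_add_eq_of_lt_left (by rw [hE1]; exact hlt'), hE1]
    have hB1 : v B < v C := lt_of_le_of_lt hEB hCE
    have hD1 : v (t - 1) < v C := lt_of_le_of_lt hED hCE
    have hC0 : v C ≠ 0 := (lt_of_le_of_lt zero_le hB1).ne'
    have hz0 : z ≠ 0 := by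
      rintro rfl
      rw [hvC, map_zero, zero_pow (by norm_num)] at hC0
      exact hC0 rfl
    have hCne : C ≠ 0 := (Valuation.ne_zero_iff v).mp hC0
    have hM1 : v (y * z) < v C := by
      have e1 : v (y * z / C) < 1 := by
        apply KeyVal.kv_of_cube_lt
        have e2 : (y * z / C) ^ 3 = (B / C) * ((t - 1) / C) := by
          rw [div_pow, hM3]; field_simp
        rw [e2]
        apply KeyVal.kv_mul_lt
        · rw [map_div₀]; exact ((div_lt_one₀ (zero_lt_iff.mpr hC0)).mpr hB1).le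
        · rw [map_div₀]; exact (div_lt_one₀ (zero_lt_iff.mpr hC0)).mpr hD1
      rw [map_div₀] at e1
      exact (div_lt_one₀ (zero_lt_iff.mpr hC0)).mp e1
    have hz3 : z ^ 3 ≠ 0 := pow_ne_zero 3 hz0
    have hvz3 : v (z ^ 3) = v C := by rw [map_pow, hvC]
    have hsm : v (f / z ^ 3 - 1) < 1 := by
      have e : f / z ^ 3 - 1 = (z ^ 3 / (t - 1) - W ^ 2 * (t - 1) - (1 - W) * (y * z)) / z ^ 3 := by
        rw [hfdef, hCdef]
        field_simp
        ring
      rw [e, map_div₀, hvz3, div_lt_one₀ (zero_lt_iff.mpr hC0)]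
      refine v.map_sub_lt (v.map_sub_lt ?_ ?_) ?_
      · rw [map_div₀, hvz3, hvd, div_lt_iff₀ (zero_lt_iff.mpr hvt0)]
        exact lt_mul_of_one_lt_right (zero_lt_iff.mpr hC0) hgt
      · rw [map_mul, map_pow, hvW, one_pow, one_mul]; exact hD1
      · rw [map_mul]
        exact lt_of_le_of_lt (mul_le_of_le_one_left' h1W) hM1
    refine tame_c A t f z (f / z ^ 3) ?_ ?_ ⟨1, (map_one v).le, by rw [one_pow]; exact hsm⟩
    · rw [mul_div_cancel₀ _ hz3]
    · have e : f / z ^ 3 = 1 + (f / z ^ 3 - 1) := by ring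
      rw [e]
      exact KeyVal.kv_unit_add v (map_one v) hsm

end Pool.Agent.Work.MP_c5a777_ag

end

section

/-!
The degree function on the fraction field of `K[e2][e1]`.
-/

open Polynomial

namespace Pool.Agent.Work.MP_c5a777_ag

section

variable {K : Type*} [Field K]

/-- the embedding of `K[e2][e1]` into `K(X)(s)` -/
noncomputable def toW : K[X][X] →+* RatFunc (RatFunc K) :=
  (algebraMap (RatFunc K)[X] (RatFunc (RatFunc K))).comp
    ((mapRingHom (algebraMap K[X] (RatFunc K))).comp phi)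

theorem toW_injective : Function.Injective (toW (K := K)) := by
  have h1 : Function.Injective (mapRingHom (algebraMap K[X] (RatFunc K))) :=
    Polynomial.map_injective _ (RatFunc.algebraMap_injective (K := K))
  exact (RatFunc.algebraMap_injective (K := RatFunc K)).comp (h1.comp phi_injective)

variable (F : Type*) [Field F] [Algebra K[X][X] F] [IsFractionRing K[X][X] F]

/-- the embedding of the fraction field of `K[e2][e1]` into `K(X)(s)` -/
noncomputable def toWF : F →+* RatFunc (RatFunc K) :=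
  IsFractionRing.lift (A := K[X][X]) (K := F) (toW_injective (K := K))

theorem toWF_alg (a : K[X][X]) : toWF (K := K) F (algebraMap K[X][X] F a) = toW a :=
  IsFractionRing.lift_algebraMap _ _

variable {F}

/-- degree in `s` -/
noncomputable def dg (K : Type*) [Field K] {F : Type*} [Field F] [Algebra K[X][X] F]
    [IsFractionRing K[X][X] F] (z : F) : ℤ :=
  (toWF (K := K) F z).intDegree

theorem dg_mul {x y : F} (hx : x ≠ 0) (hy : y ≠ 0) : dg K (x * y) = dg K x + dg K y := by
  unfold dg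
  rw [map_mul]
  exact RatFunc.intDegree_mul ((_root_.map_ne_zero _).2 hx) ((_root_.map_ne_zero _).2 hy)

theorem dg_one : dg K (1 : F) = 0 := by
  unfold dg
  rw [map_one]
  exact RatFunc.intDegree_one

theorem dg_pow {x : F} (hx : x ≠ 0) (n : ℕ) : dg K (x ^ n) = n * dg K x := by
  induction n with
  | zero => simp [dg_one]
  | succ n ih =>
    rw [pow_succ, dg_mul (pow_ne_zero _ hx) hx, ih]
    push_cast
    ring

theorem dg_neg (x : F) : dg K (-x) = dg K x := by
  unfold dg
  rw [map_neg]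
  exact RatFunc.intDegree_neg _

theorem dg_alg (a : K[X][X]) : dg K (algebraMap K[X][X] F a) = ((phi a).natDegree : ℤ) := by
  unfold dg
  rw [toWF_alg]
  unfold toW
  change RatFunc.intDegree (algebraMap (RatFunc K)[X] (RatFunc (RatFunc K))
    ((phi a).map (algebraMap K[X] (RatFunc K)))) = _
  rw [RatFunc.intDegree_polynomial,
    Polynomial.natDegree_map_eq_of_injective (RatFunc.algebraMap_injective (K := K))]

theorem dg_cc (k : K) : dg K (algebraMap K[X][X] F (cc k)) = 0 := by
  rw [dg_alg]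
  simp [phi, cc]

/-- elements of nonpositive degree -/
def Bd (K : Type*) [Field K] {F : Type*} [Field F] [Algebra K[X][X] F]
    [IsFractionRing K[X][X] F] (z : F) : Prop := z = 0 ∨ dg K z ≤ 0

theorem Bd.mul {x y : F} (hx : Bd K x) (hy : Bd K y) : Bd K (x * y) := by
  rcases eq_or_ne x 0 with rfl | hx0
  · left; simp
  rcases eq_or_ne y 0 with rfl | hy0
  · left; simp
  right
  rw [dg_mul hx0 hy0]
  have h1 := hx.resolve_left hx0
  have h2 := hy.resolve_left hy0
  omega

theorem Bd.add {x y : F} (hx : Bd K x) (hy : Bd K y) : Bd K (x + y) := by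
  rcases eq_or_ne (x + y) 0 with h | h
  · left; exact h
  rcases eq_or_ne y 0 with rfl | hy0
  · rwa [add_zero]
  rcases eq_or_ne x 0 with rfl | hx0
  · rwa [zero_add]
  right
  have h1 := hx.resolve_left hx0
  have h2 := hy.resolve_left hy0
  unfold dg at *
  rw [map_add]
  have hxy : toWF (K := K) F x + toWF (K := K) F y ≠ 0 := by
    rw [← map_add]; exact (_root_.map_ne_zero _).2 h
  have := RatFunc.intDegree_add_le ((_root_.map_ne_zero (toWF (K := K) F)).2 hy0) hxy
  exact this.trans (max_le h1 h2)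

theorem Bd.pow {x : F} (hx : Bd K x) (n : ℕ) : Bd K (x ^ n) := by
  induction n with
  | zero => right; rw [pow_zero, dg_one]
  | succ n ih => rw [pow_succ]; exact ih.mul hx

theorem bd_of_hom (h : K[X][X] →+* F) (hc : ∀ k : K, Bd K (h (cc k))) (h1 : Bd K (h X))
    (h2 : Bd K (h (C X))) (a : K[X][X]) : Bd K (h a) := by
  induction a using Polynomial.induction_on' with
  | add p q hp hq => rw [map_add]; exact hp.add hq
  | monomial n p =>
    rw [← Polynomial.C_mul_X_pow_eq_monomial, map_mul, map_pow]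
    refine Bd.mul ?_ (h1.pow n)
    induction p using Polynomial.induction_on' with
    | add p q hp hq => rw [map_add, map_add]; exact hp.add hq
    | monomial m k =>
      rw [← Polynomial.C_mul_X_pow_eq_monomial, map_mul, map_pow, map_mul, map_pow]
      exact (hc k).mul (h2.pow m)

theorem dg_eq_zero_of_mul {x y : F} (hx : Bd K x) (hy : Bd K y) (hx0 : x ≠ 0) (hy0 : y ≠ 0)
    (h : dg K (x * y) = 0) : dg K x = 0 := by
  rw [dg_mul hx0 hy0] at h
  have h1 := hx.resolve_left hx0
  have h2 := hy.resolve_left hy0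
  omega

end

end Pool.Agent.Work.MP_c5a777_ag

end
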