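import Pool.Agent.Work.MP_c5a777_ag.Bd.B04
import Pool.Agent.Work.MP_c5a777_ag.Sigma2
import Pool.Agent.Work.MP_c5a777_ag.Irr
import Pool.Agent.Work.MP_c5a777_ag.Bd.B02

/-! Bundle of small proof modules (one section per former module). -/

section

/-!
The element `f` is not a norm.
-/

set_option linter.unusedSectionVars false

open Polynomial

namespace Pool.Agent.Work.MP_c5a777_ag

section

variable {K : Type*} [Field K]
variable (s0 : K ≃+* K) (ω T : K) (hω : ω ^ 2 + ω + 1 = 0) (h3 : (3 : K) ≠ 0) (hT : T ≠ 0)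
  (hs0ω : s0 ω = ω) (hs0T : s0 T = T) (hs03 : ∀ k, s0 (s0 (s0 k)) = k)
variable (R1 : Type*) [CommRing R1] [IsDomain R1] [Algebra K[X][X] R1]
  [IsLocalization.Away (gM ω T) R1]
variable {F : Type*} [Field F] [Algebra K[X][X] F] [IsFractionRing K[X][X] F]
  [Algebra R1 F] [IsFractionRing R1 F] [IsScalarTower K[X][X] R1 F]
variable (σ : F ≃+* F)
  (hσ : ∀ r : R1, σ (algebraMap R1 F r) =
    algebraMap R1 F (psi s0 ω T hω hT hs0ω hs0T R1 r))

/-- the total degree over an orbit -/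
noncomputable def Ph (K : Type*) [Field K] {F : Type*} [Field F] [Algebra K[X][X] F]
    [IsFractionRing K[X][X] F] (σ : F ≃+* F) (z : F) : ℤ :=
  dg K z + dg K (σ z) + dg K (σ (σ z))

omit [Algebra R1 F] [IsFractionRing R1 F] [IsScalarTower K[X][X] R1 F] in
theorem Ph_mul {x y : F} (hx : x ≠ 0) (hy : y ≠ 0) :
    Ph K σ (x * y) = Ph K σ x + Ph K σ y := by
  unfold Ph
  have h1 : σ x ≠ 0 := (_root_.map_ne_zero σ).2 hx
  have h2 : σ y ≠ 0 := (_root_.map_ne_zero σ).2 hy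
  have h3 : σ (σ x) ≠ 0 := (_root_.map_ne_zero σ).2 h1
  have h4 : σ (σ y) ≠ 0 := (_root_.map_ne_zero σ).2 h2
  rw [map_mul, map_mul, dg_mul hx hy, dg_mul h1 h2, dg_mul h3 h4]
  ring

/-- value in the field -/
noncomputable def fv (K : Type*) [Field K] (R1 : Type*) [CommRing R1] [Algebra K[X][X] R1]
    (F : Type*) [Field F] [Algebra R1 F] (r : R1) : F := algebraMap R1 F r

include hσ in
theorem sig_alg (a : K[X][X]) :
    σ (algebraMap K[X][X] F a) = algebraMap R1 F (rho s0 ω T hω R1 a) := by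
  rw [IsScalarTower.algebraMap_apply K[X][X] R1 F, hσ, psi_alg]

theorem algR_inj : Function.Injective (algebraMap R1 F) := IsFractionRing.injective R1 F

theorem dg_T : dg K (algebraMap R1 F (basePt ω T hω R1).T) = 0 := by
  change dg K (algebraMap R1 F (algebraMap K[X][X] R1 (cc T))) = 0
  rw [← IsScalarTower.algebraMap_apply K[X][X] R1 F, dg_cc]

theorem dg_ω : dg K (algebraMap R1 F (basePt ω T hω R1).ω) = 0 := by
  change dg K (algebraMap R1 F (algebraMap K[X][X] R1 (cc ω))) = 0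
  rw [← IsScalarTower.algebraMap_apply K[X][X] R1 F, dg_cc]

include hT in
theorem dg_N : dg K (algebraMap R1 F (basePt ω T hω R1).N) = 3 := by
  rw [basePt_N, ← IsScalarTower.algebraMap_apply K[X][X] R1 F, dg_alg, (phi_gN hT).1]
  rfl

include h3 hT in
theorem dg_Tt : dg K (algebraMap R1 F (basePt ω T hω R1).Tt) = 3 := by
  rw [basePt_T, ← IsScalarTower.algebraMap_apply K[X][X] R1 F, dg_alg, (phi_gT hω h3 hT).1]
  rfl

include h3 hT in
theorem dg_C (θ : K) (hθ : θ ^ 2 - (1 - 3 * ω ^ 2) * θ + 1 = 0) :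
    dg K (algebraMap R1 F (basePt ω T hω R1).Cc) = 6 := by
  rw [basePt_C, ← IsScalarTower.algebraMap_apply K[X][X] R1 F, dg_alg,
    (phi_gC hω h3 hT θ hθ).1]
  rfl

include h3 hT in
theorem dg_K (θ : K) (hθ : θ ^ 2 - (1 - 3 * ω) * θ + 1 = 0) :
    dg K (algebraMap R1 F (basePt ω T hω R1).Kk) = 6 := by
  rw [basePt_K, ← IsScalarTower.algebraMap_apply K[X][X] R1 F, dg_alg,
    (phi_gK hω h3 hT θ hθ).1]
  rfl

include h3 hT in
theorem dg_P0 : dg K (algebraMap R1 F (basePt ω T hω R1).P0) = 4 := by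
  rw [basePt_P0, ← IsScalarTower.algebraMap_apply K[X][X] R1 F, dg_alg, (phi_gP0 hω h3 hT).1]
  rfl

include h3 hT in
theorem dg_Q0 : dg K (algebraMap R1 F (basePt ω T hω R1).Q0) = 4 := by
  rw [basePt_Q0, ← IsScalarTower.algebraMap_apply K[X][X] R1 F, dg_alg, (phi_gQ0 hω h3 hT).1]
  rfl

theorem ne_of_isUnit {r : R1} (h : IsUnit r) : algebraMap R1 F r ≠ 0 :=
  (h.map (algebraMap R1 F)).ne_zero

include h3 hT in
theorem dg_g : dg K (algebraMap R1 F (basePt ω T hω R1).g) = -4 := by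
  have h := congrArg (algebraMap R1 F) (basePt ω T hω R1).hg'
  rw [map_mul, map_one] at h
  have h1 := congrArg (dg K) h
  rw [dg_mul (ne_of_isUnit R1 (isUnit_P0 ω T hω R1)) (ne_of_isUnit R1 (isUnit_g ω T hω R1)),
    dg_one, dg_P0 ω T hω h3 hT R1] at h1
  omega


/-! ### images under the automorphism -/

include hσ hs0ω hs0T in
theorem sig_P0 : σ (algebraMap R1 F (basePt ω T hω R1).P0) = algebraMap R1 F
    ((basePt ω T hω R1).g ^ 4 * ((basePt ω T hω R1).T * (basePt ω T hω R1).N ^ 2 *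
      (basePt ω T hω R1).Kk * (basePt ω T hω R1).Q0)) := by
  rw [hσ, psi_P0]

include hσ hs0ω hs0T in
theorem sig_Q0 : σ (algebraMap R1 F (basePt ω T hω R1).Q0) = algebraMap R1 F
    ((basePt ω T hω R1).g ^ 4 * ((basePt ω T hω R1).T ^ 2 * (basePt ω T hω R1).N *
      (basePt ω T hω R1).Kk ^ 2)) := by
  rw [hσ, psi_Q0]

include hσ hs0T in
theorem sig_N : σ (algebraMap R1 F (basePt ω T hω R1).N) = algebraMap R1 F
    ((basePt ω T hω R1).g ^ 3 * ((basePt ω T hω R1).T * (basePt ω T hω R1).N ^ 2 *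
      (basePt ω T hω R1).Cc)) := by
  rw [hσ, basePt_N, psi_alg, rho_gN s0 ω T hω hs0T, basePt_N]

include hσ hs0ω hs0T in
theorem sig_Tt : σ (algebraMap R1 F (basePt ω T hω R1).Tt) = algebraMap R1 F
    ((basePt ω T hω R1).g ^ 3 * (-(basePt ω T hω R1).T * (basePt ω T hω R1).Kk ^ 2)) := by
  rw [hσ, basePt_T, psi_alg, rho_gT s0 ω T hω hs0ω hs0T]

include hσ hs0ω hs0T hT in
theorem sig_C : σ (algebraMap R1 F (basePt ω T hω R1).Cc) = algebraMap R1 F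
    ((basePt ω T hω R1).g ^ 6 * ((basePt ω T hω R1).T ^ 2 * (basePt ω T hω R1).N ^ 2 *
      (basePt ω T hω R1).Kk ^ 3)) := by
  rw [hσ, basePt_C, psi_alg, rho_gC s0 ω T hω hT hs0ω hs0T]

include hσ hs0ω hs0T hT in
theorem sig_K : σ (algebraMap R1 F (basePt ω T hω R1).Kk) = algebraMap R1 F
    ((basePt ω T hω R1).g ^ 6 * (-(basePt ω T hω R1).T ^ 2 * (basePt ω T hω R1).N ^ 3 *
      (basePt ω T hω R1).Kk ^ 2 * (basePt ω T hω R1).Tt)) := by
  rw [hσ, basePt_K, psi_alg, rho_gK s0 ω T hω hT hs0ω hs0T, basePt_K]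


/-- degree of (the image of) an element of the localized ring -/
noncomputable def dr (K : Type*) [Field K] (R1 : Type*) [CommRing R1] (F : Type*) [Field F]
    [Algebra K[X][X] F] [IsFractionRing K[X][X] F] [Algebra R1 F] (r : R1) : ℤ :=
  dg K (algebraMap R1 F r)

theorem dr_mul {a b : R1} (ha : IsUnit a) (hb : IsUnit b) :
    dr K R1 F (a * b) = dr K R1 F a + dr K R1 F b := by
  unfold dr
  rw [map_mul, dg_mul (ha.map _).ne_zero (hb.map _).ne_zero]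

theorem dr_pow {a : R1} (ha : IsUnit a) (n : ℕ) : dr K R1 F (a ^ n) = n * dr K R1 F a := by
  unfold dr
  rw [map_pow, dg_pow (ha.map _).ne_zero]

theorem dr_neg (a : R1) : dr K R1 F (-a) = dr K R1 F a := by
  unfold dr
  rw [map_neg, dg_neg]

variable (θ : K) (hθ : θ ^ 2 - (1 - 3 * ω ^ 2) * θ + 1 = 0)
  (η : K) (hη : η ^ 2 - (1 - 3 * ω) * η + 1 = 0)

section One

include hσ hs0ω hs0T hT h3 hθ hη

theorem dsP0 : dg K (σ (algebraMap R1 F (basePt ω T hω R1).P0)) = 0 := by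
  have uT := isUnit_T' ω T hω R1 hT
  have ug := isUnit_g ω T hω R1
  have uN := isUnit_N ω T hω R1
  have uK := isUnit_K ω T hω R1
  have uQ := isUnit_Q0 ω T hω R1
  rw [sig_P0 s0 ω T hω hT hs0ω hs0T R1 σ hσ]
  change dr K R1 F _ = 0
  rw [dr_mul R1 (ug.pow 4) (((uT.mul (uN.pow 2)).mul uK).mul uQ), dr_pow R1 ug,
    dr_mul R1 ((uT.mul (uN.pow 2)).mul uK) uQ, dr_mul R1 (uT.mul (uN.pow 2)) uK,
    dr_mul R1 uT (uN.pow 2), dr_pow R1 uN]
  unfold dr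
  rw [dg_g ω T hω h3 hT R1, dg_T ω T hω R1, dg_N ω T hω hT R1, dg_K ω T hω h3 hT R1 η hη,
    dg_Q0 ω T hω h3 hT R1]
  norm_num

theorem dsQ0 : dg K (σ (algebraMap R1 F (basePt ω T hω R1).Q0)) = -1 := by
  have uT := isUnit_T' ω T hω R1 hT
  have ug := isUnit_g ω T hω R1
  have uN := isUnit_N ω T hω R1
  have uK := isUnit_K ω T hω R1
  rw [sig_Q0 s0 ω T hω hT hs0ω hs0T R1 σ hσ]
  change dr K R1 F _ = -1
  rw [dr_mul R1 (ug.pow 4) (((uT.pow 2).mul uN).mul (uK.pow 2)), dr_pow R1 ug,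
    dr_mul R1 ((uT.pow 2).mul uN) (uK.pow 2), dr_mul R1 (uT.pow 2) uN,
    dr_pow R1 uT, dr_pow R1 uK]
  unfold dr
  rw [dg_g ω T hω h3 hT R1, dg_T ω T hω R1, dg_N ω T hω hT R1, dg_K ω T hω h3 hT R1 η hη]
  norm_num

theorem dsN : dg K (σ (algebraMap R1 F (basePt ω T hω R1).N)) = 0 := by
  have uT := isUnit_T' ω T hω R1 hT
  have ug := isUnit_g ω T hω R1
  have uN := isUnit_N ω T hω R1
  have uC := isUnit_C ω T hω R1
  rw [sig_N s0 ω T hω hT hs0ω hs0T R1 σ hσ]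
  change dr K R1 F _ = 0
  rw [dr_mul R1 (ug.pow 3) ((uT.mul (uN.pow 2)).mul uC), dr_pow R1 ug,
    dr_mul R1 (uT.mul (uN.pow 2)) uC, dr_mul R1 uT (uN.pow 2), dr_pow R1 uN]
  unfold dr
  rw [dg_g ω T hω h3 hT R1, dg_T ω T hω R1, dg_N ω T hω hT R1, dg_C ω T hω h3 hT R1 θ hθ]
  norm_num

theorem dsTt : dg K (σ (algebraMap R1 F (basePt ω T hω R1).Tt)) = 0 := by
  have uT := isUnit_T' ω T hω R1 hT
  have ug := isUnit_g ω T hω R1
  have uK := isUnit_K ω T hω R1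
  rw [sig_Tt s0 ω T hω hT hs0ω hs0T R1 σ hσ]
  change dr K R1 F _ = 0
  rw [dr_mul R1 (ug.pow 3) (uT.neg.mul (uK.pow 2)), dr_pow R1 ug,
    dr_mul R1 uT.neg (uK.pow 2), dr_neg, dr_pow R1 uK]
  unfold dr
  rw [dg_g ω T hω h3 hT R1, dg_T ω T hω R1, dg_K ω T hω h3 hT R1 η hη]
  norm_num

theorem dsC : dg K (σ (algebraMap R1 F (basePt ω T hω R1).Cc)) = 0 := by
  have uT := isUnit_T' ω T hω R1 hT
  have ug := isUnit_g ω T hω R1
  have uN := isUnit_N ω T hω R1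
  have uK := isUnit_K ω T hω R1
  rw [sig_C s0 ω T hω hT hs0ω hs0T R1 σ hσ]
  change dr K R1 F _ = 0
  rw [dr_mul R1 (ug.pow 6) (((uT.pow 2).mul (uN.pow 2)).mul (uK.pow 3)), dr_pow R1 ug,
    dr_mul R1 ((uT.pow 2).mul (uN.pow 2)) (uK.pow 3), dr_mul R1 (uT.pow 2) (uN.pow 2),
    dr_pow R1 uT, dr_pow R1 uN, dr_pow R1 uK]
  unfold dr
  rw [dg_g ω T hω h3 hT R1, dg_T ω T hω R1, dg_N ω T hω hT R1, dg_K ω T hω h3 hT R1 η hη]
  norm_num

theorem dsK : dg K (σ (algebraMap R1 F (basePt ω T hω R1).Kk)) = 0 := by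
  have uT := isUnit_T' ω T hω R1 hT
  have ug := isUnit_g ω T hω R1
  have uN := isUnit_N ω T hω R1
  have uK := isUnit_K ω T hω R1
  have ut := isUnit_Tt ω T hω R1
  rw [sig_K s0 ω T hω hT hs0ω hs0T R1 σ hσ]
  change dr K R1 F _ = 0
  rw [dr_mul R1 (ug.pow 6) ((((uT.pow 2).neg.mul (uN.pow 3)).mul (uK.pow 2)).mul ut),
    dr_pow R1 ug, dr_mul R1 (((uT.pow 2).neg.mul (uN.pow 3)).mul (uK.pow 2)) ut,
    dr_mul R1 ((uT.pow 2).neg.mul (uN.pow 3)) (uK.pow 2),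
    dr_mul R1 (uT.pow 2).neg (uN.pow 3), dr_neg, dr_pow R1 uT, dr_pow R1 uN, dr_pow R1 uK]
  unfold dr
  rw [dg_g ω T hω h3 hT R1, dg_T ω T hω R1, dg_N ω T hω hT R1, dg_K ω T hω h3 hT R1 η hη,
    dg_Tt ω T hω h3 hT R1]
  norm_num


end One

/-- degree of the conjugate of (the image of) an element of the localized ring -/
noncomputable def ds (K : Type*) [Field K] (R1 : Type*) [CommRing R1] {F : Type*} [Field F]
    [Algebra K[X][X] F] [IsFractionRing K[X][X] F] [Algebra R1 F] (σ : F ≃+* F) (r : R1) : ℤ :=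
  dg K (σ (algebraMap R1 F r))

theorem ds_mul {a b : R1} (ha : IsUnit a) (hb : IsUnit b) :
    ds K R1 σ (a * b) = ds K R1 σ a + ds K R1 σ b := by
  unfold ds
  rw [map_mul, map_mul, dg_mul ((_root_.map_ne_zero σ).2 (ha.map _).ne_zero)
    ((_root_.map_ne_zero σ).2 (hb.map _).ne_zero)]

theorem ds_pow {a : R1} (ha : IsUnit a) (n : ℕ) : ds K R1 σ (a ^ n) = n * ds K R1 σ a := by
  unfold ds
  rw [map_pow, map_pow, dg_pow ((_root_.map_ne_zero σ).2 (ha.map _).ne_zero)]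

theorem ds_neg (a : R1) : ds K R1 σ (-a) = ds K R1 σ a := by
  unfold ds
  rw [map_neg, map_neg, dg_neg]

section Two

include hσ

theorem ds_cc (k : K) : ds K R1 σ (algebraMap K[X][X] R1 (cc k)) = 0 := by
  unfold ds
  rw [hσ, psi_cc, ← IsScalarTower.algebraMap_apply K[X][X] R1 F, dg_cc]

theorem ds_T : ds K R1 σ (basePt ω T hω R1).T = 0 := ds_cc s0 ω T hω hT hs0ω hs0T R1 σ hσ T

theorem ds_ω : ds K R1 σ (basePt ω T hω R1).ω = 0 := ds_cc s0 ω T hω hT hs0ω hs0T R1 σ hσ ω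

include h3 hθ hη

theorem ds_g : ds K R1 σ (basePt ω T hω R1).g = 0 := by
  have h := congrArg (ds K R1 σ) (basePt ω T hω R1).hg'
  rw [ds_mul R1 σ (isUnit_P0 ω T hω R1) (isUnit_g ω T hω R1)] at h
  have h1 : ds K R1 σ (1 : R1) = 0 := by
    unfold ds; rw [map_one, map_one, dg_one]
  have h2 : ds K R1 σ (basePt ω T hω R1).P0 = 0 :=
    dsP0 s0 ω T hω h3 hT hs0ω hs0T R1 σ hσ θ hθ η hη
  omega

theorem dssN : dg K (σ (σ (algebraMap R1 F (basePt ω T hω R1).N))) = 0 := by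
  have uT := isUnit_T' ω T hω R1 hT
  have ug := isUnit_g ω T hω R1
  have uN := isUnit_N ω T hω R1
  have uC := isUnit_C ω T hω R1
  rw [sig_N s0 ω T hω hT hs0ω hs0T R1 σ hσ]
  change ds K R1 σ _ = 0
  rw [ds_mul R1 σ (ug.pow 3) ((uT.mul (uN.pow 2)).mul uC), ds_pow R1 σ ug,
    ds_mul R1 σ (uT.mul (uN.pow 2)) uC, ds_mul R1 σ uT (uN.pow 2), ds_pow R1 σ uN,
    ds_T s0 ω T hω hT hs0ω hs0T R1 σ hσ, ds_g s0 ω T hω h3 hT hs0ω hs0T R1 σ hσ θ hθ η hη]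
  unfold ds
  rw [dsN s0 ω T hω h3 hT hs0ω hs0T R1 σ hσ θ hθ η hη,
    dsC s0 ω T hω h3 hT hs0ω hs0T R1 σ hσ θ hθ η hη]
  norm_num

theorem dssTt : dg K (σ (σ (algebraMap R1 F (basePt ω T hω R1).Tt))) = 0 := by
  have uT := isUnit_T' ω T hω R1 hT
  have ug := isUnit_g ω T hω R1
  have uK := isUnit_K ω T hω R1
  rw [sig_Tt s0 ω T hω hT hs0ω hs0T R1 σ hσ]
  change ds K R1 σ _ = 0
  rw [ds_mul R1 σ (ug.pow 3) (uT.neg.mul (uK.pow 2)), ds_pow R1 σ ug,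
    ds_mul R1 σ uT.neg (uK.pow 2), ds_neg, ds_pow R1 σ uK,
    ds_T s0 ω T hω hT hs0ω hs0T R1 σ hσ, ds_g s0 ω T hω h3 hT hs0ω hs0T R1 σ hσ θ hθ η hη]
  unfold ds
  rw [dsK s0 ω T hω h3 hT hs0ω hs0T R1 σ hσ θ hθ η hη]
  norm_num

theorem dssC : dg K (σ (σ (algebraMap R1 F (basePt ω T hω R1).Cc))) = 0 := by
  have uT := isUnit_T' ω T hω R1 hT
  have ug := isUnit_g ω T hω R1
  have uN := isUnit_N ω T hω R1
  have uK := isUnit_K ω T hω R1
  rw [sig_C s0 ω T hω hT hs0ω hs0T R1 σ hσ]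
  change ds K R1 σ _ = 0
  rw [ds_mul R1 σ (ug.pow 6) (((uT.pow 2).mul (uN.pow 2)).mul (uK.pow 3)), ds_pow R1 σ ug,
    ds_mul R1 σ ((uT.pow 2).mul (uN.pow 2)) (uK.pow 3), ds_mul R1 σ (uT.pow 2) (uN.pow 2),
    ds_pow R1 σ uT, ds_pow R1 σ uN, ds_pow R1 σ uK,
    ds_T s0 ω T hω hT hs0ω hs0T R1 σ hσ, ds_g s0 ω T hω h3 hT hs0ω hs0T R1 σ hσ θ hθ η hη]
  unfold ds
  rw [dsN s0 ω T hω h3 hT hs0ω hs0T R1 σ hσ θ hθ η hη,
    dsK s0 ω T hω h3 hT hs0ω hs0T R1 σ hσ θ hθ η hη]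
  norm_num

theorem dssK : dg K (σ (σ (algebraMap R1 F (basePt ω T hω R1).Kk))) = 0 := by
  have uT := isUnit_T' ω T hω R1 hT
  have ug := isUnit_g ω T hω R1
  have uN := isUnit_N ω T hω R1
  have uK := isUnit_K ω T hω R1
  have ut := isUnit_Tt ω T hω R1
  rw [sig_K s0 ω T hω hT hs0ω hs0T R1 σ hσ]
  change ds K R1 σ _ = 0
  rw [ds_mul R1 σ (ug.pow 6) ((((uT.pow 2).neg.mul (uN.pow 3)).mul (uK.pow 2)).mul ut),
    ds_pow R1 σ ug, ds_mul R1 σ (((uT.pow 2).neg.mul (uN.pow 3)).mul (uK.pow 2)) ut,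
    ds_mul R1 σ ((uT.pow 2).neg.mul (uN.pow 3)) (uK.pow 2),
    ds_mul R1 σ (uT.pow 2).neg (uN.pow 3), ds_neg, ds_pow R1 σ uT, ds_pow R1 σ uN,
    ds_pow R1 σ uK,
    ds_T s0 ω T hω hT hs0ω hs0T R1 σ hσ, ds_g s0 ω T hω h3 hT hs0ω hs0T R1 σ hσ θ hθ η hη]
  unfold ds
  rw [dsN s0 ω T hω h3 hT hs0ω hs0T R1 σ hσ θ hθ η hη,
    dsK s0 ω T hω h3 hT hs0ω hs0T R1 σ hσ θ hθ η hη,
    dsTt s0 ω T hω h3 hT hs0ω hs0T R1 σ hσ θ hθ η hη]
  norm_num

theorem dssP0 : dg K (σ (σ (algebraMap R1 F (basePt ω T hω R1).P0))) = -1 := by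
  have uT := isUnit_T' ω T hω R1 hT
  have ug := isUnit_g ω T hω R1
  have uN := isUnit_N ω T hω R1
  have uK := isUnit_K ω T hω R1
  have uQ := isUnit_Q0 ω T hω R1
  rw [sig_P0 s0 ω T hω hT hs0ω hs0T R1 σ hσ]
  change ds K R1 σ _ = -1
  rw [ds_mul R1 σ (ug.pow 4) (((uT.mul (uN.pow 2)).mul uK).mul uQ), ds_pow R1 σ ug,
    ds_mul R1 σ ((uT.mul (uN.pow 2)).mul uK) uQ, ds_mul R1 σ (uT.mul (uN.pow 2)) uK,
    ds_mul R1 σ uT (uN.pow 2), ds_pow R1 σ uN,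
    ds_T s0 ω T hω hT hs0ω hs0T R1 σ hσ, ds_g s0 ω T hω h3 hT hs0ω hs0T R1 σ hσ θ hθ η hη]
  unfold ds
  rw [dsN s0 ω T hω h3 hT hs0ω hs0T R1 σ hσ θ hθ η hη,
    dsK s0 ω T hω h3 hT hs0ω hs0T R1 σ hσ θ hθ η hη,
    dsQ0 s0 ω T hω h3 hT hs0ω hs0T R1 σ hσ θ hθ η hη]
  norm_num

theorem dssQ0 : dg K (σ (σ (algebraMap R1 F (basePt ω T hω R1).Q0))) = 0 := by
  have uT := isUnit_T' ω T hω R1 hT
  have ug := isUnit_g ω T hω R1
  have uN := isUnit_N ω T hω R1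
  have uK := isUnit_K ω T hω R1
  rw [sig_Q0 s0 ω T hω hT hs0ω hs0T R1 σ hσ]
  change ds K R1 σ _ = 0
  rw [ds_mul R1 σ (ug.pow 4) (((uT.pow 2).mul uN).mul (uK.pow 2)), ds_pow R1 σ ug,
    ds_mul R1 σ ((uT.pow 2).mul uN) (uK.pow 2), ds_mul R1 σ (uT.pow 2) uN,
    ds_pow R1 σ uT, ds_pow R1 σ uK,
    ds_T s0 ω T hω hT hs0ω hs0T R1 σ hσ, ds_g s0 ω T hω h3 hT hs0ω hs0T R1 σ hσ θ hθ η hη]
  unfold ds
  rw [dsN s0 ω T hω h3 hT hs0ω hs0T R1 σ hσ θ hθ η hη,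
    dsK s0 ω T hω h3 hT hs0ω hs0T R1 σ hσ θ hθ η hη]
  norm_num


theorem bd1 (a : K[X][X]) : Bd K (σ (algebraMap K[X][X] F a)) := by
  have hdeg := phi_deg_le (K := K) (ω := ω) (T := T)
  refine bd_of_hom ((σ : F →+* F).comp (algebraMap K[X][X] F)) ?_ ?_ ?_ a
  · intro k
    right
    change dg K (σ (algebraMap K[X][X] F (cc k))) ≤ 0
    rw [IsScalarTower.algebraMap_apply K[X][X] R1 F]
    exact (ds_cc s0 ω T hω hT hs0ω hs0T R1 σ hσ k).le
  · change Bd K (σ (algebraMap K[X][X] F X))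
    rw [sig_alg s0 ω T hω hT hs0ω hs0T R1 σ hσ, rho_X]
    rcases eq_or_ne (algebraMap R1 F (basePt ω T hω R1).P1) 0 with h | h
    · left
      change algebraMap R1 F ((basePt ω T hω R1).P1 * (basePt ω T hω R1).g) = 0
      rw [map_mul, h, zero_mul]
    · right
      change dg K (algebraMap R1 F ((basePt ω T hω R1).P1 * (basePt ω T hω R1).g)) ≤ 0
      rw [map_mul, dg_mul h ((isUnit_g ω T hω R1).map (algebraMap R1 F)).ne_zero,
        dg_g ω T hω h3 hT R1, basePt_P1, ← IsScalarTower.algebraMap_apply K[X][X] R1 F, dg_alg]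
      have := (hdeg hT).1
      omega
  · change Bd K (σ (algebraMap K[X][X] F (C X)))
    rw [sig_alg s0 ω T hω hT hs0ω hs0T R1 σ hσ, rho_CX]
    rcases eq_or_ne (algebraMap R1 F (basePt ω T hω R1).P2) 0 with h | h
    · left
      change algebraMap R1 F ((basePt ω T hω R1).P2 * (basePt ω T hω R1).g) = 0
      rw [map_mul, h, zero_mul]
    · right
      change dg K (algebraMap R1 F ((basePt ω T hω R1).P2 * (basePt ω T hω R1).g)) ≤ 0
      rw [map_mul, dg_mul h ((isUnit_g ω T hω R1).map (algebraMap R1 F)).ne_zero,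
        dg_g ω T hω h3 hT R1, basePt_P2, ← IsScalarTower.algebraMap_apply K[X][X] R1 F, dg_alg]
      have := (hdeg hT).2.1
      omega

theorem bd2 (a : K[X][X]) : Bd K (σ (σ (algebraMap K[X][X] F a))) := by
  have hdeg := phi_deg_le (K := K) (ω := ω) (T := T)
  refine bd_of_hom (((σ : F →+* F).comp (σ : F →+* F)).comp (algebraMap K[X][X] F)) ?_ ?_ ?_ a
  · intro k
    right
    change dg K (σ (σ (algebraMap K[X][X] F (cc k)))) ≤ 0
    rw [sig_alg s0 ω T hω hT hs0ω hs0T R1 σ hσ, rho_cc]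
    exact (ds_cc s0 ω T hω hT hs0ω hs0T R1 σ hσ (s0 k)).le
  · change Bd K (σ (σ (algebraMap K[X][X] F X)))
    rw [sig_alg s0 ω T hω hT hs0ω hs0T R1 σ hσ, rho_X, hσ]
    have h := congrArg (algebraMap R1 F) (psi_x s0 ω T hω hT hs0ω hs0T R1)
    rw [map_mul] at h
    have hQ := ((isUnit_Q0 ω T hω R1).map (algebraMap R1 F)).ne_zero
    rcases eq_or_ne (algebraMap R1 F (psi s0 ω T hω hT hs0ω hs0T R1
      (basePt ω T hω R1).x)) 0 with h0 | h0
    · left; exact h0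
    · right
      have h1 := congrArg (dg K) h
      rw [dg_mul h0 hQ, dg_Q0 ω T hω h3 hT R1, basePt_Q1,
        ← IsScalarTower.algebraMap_apply K[X][X] R1 F, dg_alg] at h1
      have := (hdeg hT).2.2.1
      omega
  · change Bd K (σ (σ (algebraMap K[X][X] F (C X))))
    rw [sig_alg s0 ω T hω hT hs0ω hs0T R1 σ hσ, rho_CX, hσ]
    have h := congrArg (algebraMap R1 F) (psi_y s0 ω T hω hT hs0ω hs0T R1)
    rw [map_mul] at h
    have hQ := ((isUnit_Q0 ω T hω R1).map (algebraMap R1 F)).ne_zero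
    rcases eq_or_ne (algebraMap R1 F (psi s0 ω T hω hT hs0ω hs0T R1
      (basePt ω T hω R1).y)) 0 with h0 | h0
    · left; exact h0
    · right
      have h1 := congrArg (dg K) h
      rw [dg_mul h0 hQ, dg_Q0 ω T hω h3 hT R1, basePt_Q2,
        ← IsScalarTower.algebraMap_apply K[X][X] R1 F, dg_alg] at h1
      have := (hdeg hT).2.2.2
      omega

/-- divisors of a polynomial of the first kind -/
theorem three_dvd_Ph_of_dvd {P π : K[X][X]} (hP : P ≠ 0)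
    (hE : (phi P).leadingCoeff.natDegree = (phi P).natDegree)
    (hG : Good (phi P).leadingCoeff)
    (h1 : dg K (σ (algebraMap K[X][X] F P)) = 0)
    (h2 : dg K (σ (σ (algebraMap K[X][X] F P))) = 0) (hπ : π ∣ P) :
    3 ∣ Ph K σ (algebraMap K[X][X] F π) := by
  have hd := three_dvd_of_good hP hE hG hπ
  obtain ⟨ρ, rfl⟩ := hπ
  have hπ0 : π ≠ 0 := left_ne_zero_of_mul hP
  have hρ0 : ρ ≠ 0 := right_ne_zero_of_mul hP
  have inj := IsFractionRing.injective K[X][X] F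
  have a1 : algebraMap K[X][X] F π ≠ 0 := (map_ne_zero_iff _ inj).2 hπ0
  have a2 : algebraMap K[X][X] F ρ ≠ 0 := (map_ne_zero_iff _ inj).2 hρ0
  have b1 : σ (algebraMap K[X][X] F π) ≠ 0 := (_root_.map_ne_zero σ).2 a1
  have b2 : σ (algebraMap K[X][X] F ρ) ≠ 0 := (_root_.map_ne_zero σ).2 a2
  have c1 : σ (σ (algebraMap K[X][X] F π)) ≠ 0 := (_root_.map_ne_zero σ).2 b1
  have c2 : σ (σ (algebraMap K[X][X] F ρ)) ≠ 0 := (_root_.map_ne_zero σ).2 b2
  rw [map_mul, map_mul] at h1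
  rw [map_mul, map_mul, map_mul] at h2
  have e1 := dg_eq_zero_of_mul (bd1 s0 ω T hω h3 hT hs0ω hs0T R1 σ hσ θ hθ η hη π)
    (bd1 s0 ω T hω h3 hT hs0ω hs0T R1 σ hσ θ hθ η hη ρ) b1 b2 h1
  have e2 := dg_eq_zero_of_mul (bd2 s0 ω T hω h3 hT hs0ω hs0T R1 σ hσ θ hθ η hη π)
    (bd2 s0 ω T hω h3 hT hs0ω hs0T R1 σ hσ θ hθ η hη ρ) c1 c2 h2
  unfold Ph
  rw [e1, e2, dg_alg, add_zero, add_zero]
  exact_mod_cast hd

end Two

end

end Pool.Agent.Work.MP_c5a777_ag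

end

section

/-!
The element `f` is not a norm, continued.
-/

set_option linter.unusedSectionVars false

open Polynomial

namespace Pool.Agent.Work.MP_c5a777_ag

section

variable {K : Type*} [Field K]
variable (s0 : K ≃+* K) (ω T : K) (hω : ω ^ 2 + ω + 1 = 0) (h3 : (3 : K) ≠ 0) (hT : T ≠ 0)
  (hs0ω : s0 ω = ω) (hs0T : s0 T = T) (hs03 : ∀ k, s0 (s0 (s0 k)) = k)
variable (R1 : Type*) [CommRing R1] [IsDomain R1] [Algebra K[X][X] R1]
  [IsLocalization.Away (gM ω T) R1]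
variable {F : Type*} [Field F] [Algebra K[X][X] F] [IsFractionRing K[X][X] F]
  [Algebra R1 F] [IsFractionRing R1 F] [IsScalarTower K[X][X] R1 F]
variable (σ : F ≃+* F)
  (hσ : ∀ r : R1, σ (algebraMap R1 F r) =
    algebraMap R1 F (psi s0 ω T hω hT hs0ω hs0T R1 r))
variable (θ : K) (hθ : θ ^ 2 - (1 - 3 * ω ^ 2) * θ + 1 = 0)
  (η : K) (hη : η ^ 2 - (1 - 3 * ω) * η + 1 = 0)
variable (k0 : Subfield K) (hωk : ω ∈ k0) (hθk : θ ∈ k0) (hηk : η ∈ k0)
  (hcube : ∀ γ ∈ k0, γ ≠ 0 → ∀ b : K, b ^ 3 ≠ γ * T)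

theorem natDeg_Xcub (a : K) : (X ^ 3 - C a : K[X]).natDegree = 3 := by
  compute_degree!

theorem Xcub_ne (a : K) : (X ^ 3 - C a : K[X]) ≠ 0 := by
  intro h
  have := natDeg_Xcub a
  rw [h] at this
  simp at this

theorem ne_zero_of_natDegree {a : K[X][X]} {n : ℕ} (h : (phi a).natDegree = n + 1) : a ≠ 0 := by
  rintro rfl
  rw [map_zero, natDegree_zero] at h
  omega

theorem good_Cmul {a : K} (ha : a ≠ 0) {Q : K[X]} (hQ : Good Q) (hQ0 : Q ≠ 0) :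
    Good (C a * Q) := good_mul (good_C a ha) hQ (C_ne_zero.2 ha) hQ0

include hcube

theorem good_X {γ : K} (hγ : γ ∈ k0) (hγ0 : γ ≠ 0) : Good (X ^ 3 - C (γ * T)) :=
  good_cubic _ (hcube γ hγ hγ0)

include hT in
theorem good_gN : Good (phi (gN T)).leadingCoeff := by
  rw [(phi_gN hT).2]
  refine good_Cmul hT ?_ (Xcub_ne _)
  have h := good_X T k0 hcube (γ := -1) (neg_mem (one_mem k0)) (by norm_num)
  simpa using h

include hω h3 hT in
theorem good_gT : Good (phi (gT ω T)).leadingCoeff := by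
  have h1 : (1 - ω) ≠ 0 := by
    intro h
    apply h3
    have : ω = 1 := by linear_combination -h
    rw [this] at hω
    linear_combination hω
  rw [(phi_gT hω h3 hT).2]
  refine good_Cmul (mul_ne_zero (mul_ne_zero h3 h1) hT) ?_ (Xcub_ne _)
  have h := good_X T k0 hcube (γ := -1) (neg_mem (one_mem k0)) (by norm_num)
  simpa using h

theorem three_mem : (3 : K) ∈ k0 := by
  have : (3 : K) = 1 + 1 + 1 := by norm_num
  rw [this]
  exact add_mem (add_mem (one_mem _) (one_mem _)) (one_mem _)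

include hω h3 hT hθ hωk hθk in
theorem good_gC : Good (phi (gC ω T)).leadingCoeff := by
  rw [(phi_gC hω h3 hT θ hθ).2]
  have h1 : (-6 * ω - 3) ≠ 0 := by
    intro h
    apply h3
    have h2 : (-6 * ω - 3) ^ 2 = -27 := by linear_combination 36 * hω
    rw [h] at h2
    have h4 : (3 : K) ^ 3 = 0 := by linear_combination h2
    exact pow_eq_zero_iff (by norm_num) |>.1 h4
  have hθ0 : θ ≠ 0 := by rintro rfl; simp at hθ
  have hθ' : θ * (1 - 3 * ω ^ 2 - θ) = 1 := by linear_combination -hθ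
  refine good_Cmul (mul_ne_zero h1 (pow_ne_zero _ hT)) (good_mul ?_ ?_ (Xcub_ne _) (Xcub_ne _))
    (mul_ne_zero (Xcub_ne _) (Xcub_ne _))
  · exact good_X T k0 hcube hθk hθ0
  · refine good_X T k0 hcube ?_ (right_ne_zero_of_mul_eq_one hθ')
    exact sub_mem (sub_mem (one_mem _) (mul_mem (three_mem T k0 hcube) (pow_mem hωk 2))) hθk

include hω h3 hT hη hωk hηk in
theorem good_gK : Good (phi (gK ω T)).leadingCoeff := by
  rw [(phi_gK hω h3 hT η hη).2]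
  have h1 : (3 * ω + 6) ≠ 0 := by
    intro h
    apply h3
    have h2 : (3 * ω + 6) * (-3 * ω + 3) = 27 := by linear_combination -9 * hω
    rw [h, zero_mul] at h2
    have h4 : (3 : K) ^ 3 = 0 := by linear_combination -h2
    exact pow_eq_zero_iff (by norm_num) |>.1 h4
  have hη0 : η ≠ 0 := by rintro rfl; simp at hη
  have hη' : η * (1 - 3 * ω - η) = 1 := by linear_combination -hη
  refine good_Cmul (mul_ne_zero h1 (pow_ne_zero _ hT)) (good_mul ?_ ?_ (Xcub_ne _) (Xcub_ne _))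
    (mul_ne_zero (Xcub_ne _) (Xcub_ne _))
  · exact good_X T k0 hcube hηk hη0
  · refine good_X T k0 hcube ?_ (right_ne_zero_of_mul_eq_one hη')
    exact sub_mem (sub_mem (one_mem _) (mul_mem (three_mem T k0 hcube) hωk)) hηk


omit hcube in
theorem lc_deg_N (hT : T ≠ 0) :
    (phi (gN T)).leadingCoeff.natDegree = (phi (gN T)).natDegree := by
  rw [(phi_gN hT).1, (phi_gN hT).2, natDegree_C_mul hT, natDeg_Xcub]

omit hcube in
theorem lc_deg_T (hω : ω ^ 2 + ω + 1 = 0) (h3 : (3 : K) ≠ 0) (hT : T ≠ 0) :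
    (phi (gT ω T)).leadingCoeff.natDegree = (phi (gT ω T)).natDegree := by
  have h1 : (1 - ω) ≠ 0 := by
    intro h
    apply h3
    have : ω = 1 := by linear_combination -h
    rw [this] at hω
    linear_combination hω
  rw [(phi_gT hω h3 hT).1, (phi_gT hω h3 hT).2,
    natDegree_C_mul (mul_ne_zero (mul_ne_zero h3 h1) hT), natDeg_Xcub]

omit hcube in
theorem lc_deg_C (hω : ω ^ 2 + ω + 1 = 0) (h3 : (3 : K) ≠ 0) (hT : T ≠ 0)
    (hθ : θ ^ 2 - (1 - 3 * ω ^ 2) * θ + 1 = 0) :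
    (phi (gC ω T)).leadingCoeff.natDegree = (phi (gC ω T)).natDegree := by
  have h1 : (-6 * ω - 3) ≠ 0 := by
    intro h
    apply h3
    have h2 : (-6 * ω - 3) ^ 2 = -27 := by linear_combination 36 * hω
    rw [h] at h2
    have h4 : (3 : K) ^ 3 = 0 := by linear_combination h2
    exact pow_eq_zero_iff (by norm_num) |>.1 h4
  rw [(phi_gC hω h3 hT θ hθ).1, (phi_gC hω h3 hT θ hθ).2,
    natDegree_C_mul (mul_ne_zero h1 (pow_ne_zero _ hT)),
    natDegree_mul (Xcub_ne _) (Xcub_ne _), natDeg_Xcub, natDeg_Xcub]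

omit hcube in
theorem lc_deg_K (hω : ω ^ 2 + ω + 1 = 0) (h3 : (3 : K) ≠ 0) (hT : T ≠ 0)
    (hη : η ^ 2 - (1 - 3 * ω) * η + 1 = 0) :
    (phi (gK ω T)).leadingCoeff.natDegree = (phi (gK ω T)).natDegree := by
  have h1 : (3 * ω + 6) ≠ 0 := by
    intro h
    apply h3
    have h2 : (3 * ω + 6) * (-3 * ω + 3) = 27 := by linear_combination -9 * hω
    rw [h, zero_mul] at h2
    have h4 : (3 : K) ^ 3 = 0 := by linear_combination -h2
    exact pow_eq_zero_iff (by norm_num) |>.1 h4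
  rw [(phi_gK hω h3 hT η hη).1, (phi_gK hω h3 hT η hη).2,
    natDegree_C_mul (mul_ne_zero h1 (pow_ne_zero _ hT)),
    natDegree_mul (Xcub_ne _) (Xcub_ne _), natDeg_Xcub, natDeg_Xcub]

omit hcube in
include hω h3 hT hθ hη in
theorem gM_ne_zero : gM ω T ≠ 0 := by
  unfold gM
  refine mul_ne_zero (mul_ne_zero (mul_ne_zero (mul_ne_zero (mul_ne_zero ?_ ?_) ?_) ?_) ?_) ?_
  · exact ne_zero_of_natDegree (phi_gN hT).1
  · exact ne_zero_of_natDegree (phi_gC hω h3 hT θ hθ).1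
  · exact ne_zero_of_natDegree (phi_gK hω h3 hT η hη).1
  · exact ne_zero_of_natDegree (phi_gT hω h3 hT).1
  · exact ne_zero_of_natDegree (phi_gP0 hω h3 hT).1
  · exact ne_zero_of_natDegree (phi_gQ0 hω h3 hT).1

section Three

include hσ hs0ω hs0T h3 hθ hη

omit hcube in
theorem Ph_cc {k : K} (hk : k ≠ 0) : Ph K σ (algebraMap K[X][X] F (cc k)) = 0 := by
  unfold Ph
  have h1 : dg K (σ (algebraMap K[X][X] F (cc k))) = 0 := by
    rw [IsScalarTower.algebraMap_apply K[X][X] R1 F]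
    exact ds_cc s0 ω T hω hT hs0ω hs0T R1 σ hσ k
  have h2 : dg K (σ (σ (algebraMap K[X][X] F (cc k)))) = 0 := by
    rw [sig_alg s0 ω T hω hT hs0ω hs0T R1 σ hσ, rho_cc]
    exact ds_cc s0 ω T hω hT hs0ω hs0T R1 σ hσ (s0 k)
  rw [dg_cc, h1, h2]
  rfl

include hωk hθk hηk hcube

theorem Ph_dvd_irr {P : K[X][X]} (hP0 : P ≠ 0)
    (hP : ∀ π π' : K[X][X], π * π' = P →
      (∃ k : K, k ≠ 0 ∧ π = cc k) ∨ (∃ k : K, k ≠ 0 ∧ π' = cc k))
    (h : 3 ∣ Ph K σ (algebraMap K[X][X] F P)) {π : K[X][X]} (hπ : π ∣ P) :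
    3 ∣ Ph K σ (algebraMap K[X][X] F π) := by
  obtain ⟨ρ, hρ⟩ := hπ
  have inj := IsFractionRing.injective K[X][X] F
  rcases hP π ρ hρ.symm with ⟨k, hk, rfl⟩ | ⟨k, hk, rfl⟩
  · rw [Ph_cc s0 ω T hω h3 hT hs0ω hs0T R1 σ hσ θ hθ η hη hk]
    exact dvd_zero 3
  · have hπ0 : π ≠ 0 := by rintro rfl; rw [zero_mul] at hρ; exact hP0 hρ
    have hk0 : (cc k : K[X][X]) ≠ 0 := by
      intro h0; rw [h0, mul_zero] at hρ; exact hP0 hρ
    rw [hρ, map_mul, Ph_mul σ ((map_ne_zero_iff _ inj).2 hπ0) ((map_ne_zero_iff _ inj).2 hk0),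
      Ph_cc s0 ω T hω h3 hT hs0ω hs0T R1 σ hσ θ hθ η hη hk, add_zero] at h
    exact h

theorem three_dvd_prime {π : K[X][X]} (hπ : Prime π) (h : π ∣ gM ω T) :
    3 ∣ Ph K σ (algebraMap K[X][X] F π) := by
  have nP0 : gP0 ω T ≠ 0 := ne_zero_of_natDegree (phi_gP0 hω h3 hT).1
  have nQ0 : gQ0 ω T ≠ 0 := ne_zero_of_natDegree (phi_gQ0 hω h3 hT).1
  have nN : gN T ≠ 0 := ne_zero_of_natDegree (phi_gN hT).1
  have nC : gC ω T ≠ 0 := ne_zero_of_natDegree (phi_gC hω h3 hT θ hθ).1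
  have nK : gK ω T ≠ 0 := ne_zero_of_natDegree (phi_gK hω h3 hT η hη).1
  have nT : gT ω T ≠ 0 := ne_zero_of_natDegree (phi_gT hω h3 hT).1
  have hω0 : ω ≠ 0 := by rintro rfl; simp at hω
  have hcω : ∀ b : K, b ^ 3 ≠ -ω ^ 2 * T :=
    hcube _ (neg_mem (pow_mem hωk 2)) (neg_ne_zero.2 (pow_ne_zero _ hω0))
  unfold gM at h
  rcases hπ.dvd_or_dvd h with h | h
  · rcases hπ.dvd_or_dvd h with h | h
    · rcases hπ.dvd_or_dvd h with h | h
      · rcases hπ.dvd_or_dvd h with h | h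
        · rcases hπ.dvd_or_dvd h with h | h
          · refine three_dvd_Ph_of_dvd s0 ω T hω h3 hT hs0ω hs0T R1 σ hσ θ hθ η hη nN
              (lc_deg_N T hT) (good_gN T hT k0 hcube) ?_ ?_ h
            · rw [IsScalarTower.algebraMap_apply K[X][X] R1 F, ← basePt_N ω T hω R1]
              exact dsN s0 ω T hω h3 hT hs0ω hs0T R1 σ hσ θ hθ η hη
            · rw [IsScalarTower.algebraMap_apply K[X][X] R1 F, ← basePt_N ω T hω R1]
              exact dssN s0 ω T hω h3 hT hs0ω hs0T R1 σ hσ θ hθ η hη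
          · refine three_dvd_Ph_of_dvd s0 ω T hω h3 hT hs0ω hs0T R1 σ hσ θ hθ η hη nC
              (lc_deg_C ω T θ hω h3 hT hθ)
              (good_gC ω T hω h3 hT θ hθ k0 hωk hθk hcube) ?_ ?_ h
            · rw [IsScalarTower.algebraMap_apply K[X][X] R1 F, ← basePt_C ω T hω R1]
              exact dsC s0 ω T hω h3 hT hs0ω hs0T R1 σ hσ θ hθ η hη
            · rw [IsScalarTower.algebraMap_apply K[X][X] R1 F, ← basePt_C ω T hω R1]
              exact dssC s0 ω T hω h3 hT hs0ω hs0T R1 σ hσ θ hθ η hη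
        · refine three_dvd_Ph_of_dvd s0 ω T hω h3 hT hs0ω hs0T R1 σ hσ θ hθ η hη nK
            (lc_deg_K ω T η hω h3 hT hη)
            (good_gK ω T hω h3 hT η hη k0 hωk hηk hcube) ?_ ?_ h
          · rw [IsScalarTower.algebraMap_apply K[X][X] R1 F, ← basePt_K ω T hω R1]
            exact dsK s0 ω T hω h3 hT hs0ω hs0T R1 σ hσ θ hθ η hη
          · rw [IsScalarTower.algebraMap_apply K[X][X] R1 F, ← basePt_K ω T hω R1]
            exact dssK s0 ω T hω h3 hT hs0ω hs0T R1 σ hσ θ hθ η hη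
      · refine three_dvd_Ph_of_dvd s0 ω T hω h3 hT hs0ω hs0T R1 σ hσ θ hθ η hη nT
          (lc_deg_T ω T hω h3 hT)
          (good_gT ω T hω h3 hT k0 hcube) ?_ ?_ h
        · rw [IsScalarTower.algebraMap_apply K[X][X] R1 F, ← basePt_T ω T hω R1]
          exact dsTt s0 ω T hω h3 hT hs0ω hs0T R1 σ hσ θ hθ η hη
        · rw [IsScalarTower.algebraMap_apply K[X][X] R1 F, ← basePt_T ω T hω R1]
          exact dssTt s0 ω T hω h3 hT hs0ω hs0T R1 σ hσ θ hθ η hη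
    · refine Ph_dvd_irr s0 ω T hω h3 hT hs0ω hs0T R1 σ hσ θ hθ η hη k0 hωk hθk hηk hcube
        nP0 (fun a b hab => dvd_gP0 hω h3 hT hcω hab) ?_ h
      unfold Ph
      rw [IsScalarTower.algebraMap_apply K[X][X] R1 F, ← basePt_P0 ω T hω R1,
        dg_P0 ω T hω h3 hT R1, dsP0 s0 ω T hω h3 hT hs0ω hs0T R1 σ hσ θ hθ η hη,
        dssP0 s0 ω T hω h3 hT hs0ω hs0T R1 σ hσ θ hθ η hη]
      norm_num
  · refine Ph_dvd_irr s0 ω T hω h3 hT hs0ω hs0T R1 σ hσ θ hθ η hη k0 hωk hθk hηk hcube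
      nQ0 (fun a b hab => dvd_gQ0 hω h3 hT hcω hab) ?_ h
    unfold Ph
    rw [IsScalarTower.algebraMap_apply K[X][X] R1 F, ← basePt_Q0 ω T hω R1,
      dg_Q0 ω T hω h3 hT R1, dsQ0 s0 ω T hω h3 hT hs0ω hs0T R1 σ hσ θ hθ η hη,
      dssQ0 s0 ω T hω h3 hT hs0ω hs0T R1 σ hσ θ hθ η hη]
    norm_num


theorem three_dvd_of_dvd_pow (n : ℕ) (a : K[X][X]) :
    a ∣ gM ω T ^ n → 3 ∣ Ph K σ (algebraMap K[X][X] F a) := by
  have hM : gM ω T ^ n ≠ 0 := pow_ne_zero _ (gM_ne_zero ω T hω h3 hT θ hθ η hη)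
  have inj := IsFractionRing.injective K[X][X] F
  induction a using UniqueFactorizationMonoid.induction_on_prime with
  | h₁ => intro h; exact absurd (zero_dvd_iff.1 h) hM
  | h₂ x hx =>
    intro _
    obtain ⟨r, hr, rfl⟩ := Polynomial.isUnit_iff.1 hx
    obtain ⟨k, hk, rfl⟩ := Polynomial.isUnit_iff.1 hr
    have := Ph_cc s0 ω T hω h3 hT hs0ω hs0T R1 σ hσ θ hθ η hη (F := F) hk.ne_zero
    change 3 ∣ Ph K σ (algebraMap K[X][X] F (cc k))
    rw [this]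
    exact dvd_zero 3
  | h₃ a p ha hp ih =>
    intro h
    have h1 : p ∣ gM ω T := hp.dvd_of_dvd_pow ((dvd_mul_right p a).trans h)
    have h2 : a ∣ gM ω T ^ n := (dvd_mul_left a p).trans h
    rw [map_mul, Ph_mul σ ((map_ne_zero_iff _ inj).2 hp.ne_zero)
      ((map_ne_zero_iff _ inj).2 ha)]
    exact dvd_add (three_dvd_prime s0 ω T hω h3 hT hs0ω hs0T R1 σ hσ θ hθ η hη k0 hωk hθk
      hηk hcube hp h1) (ih h2)

theorem three_dvd_unit (u : R1ˣ) : 3 ∣ Ph K σ (algebraMap R1 F (u : R1)) := by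
  have hM := gM_ne_zero ω T hω h3 hT θ hθ η hη
  have inj := IsFractionRing.injective K[X][X] F
  obtain ⟨n, a, ha⟩ := IsLocalization.Away.surj (gM ω T) (u : R1)
  have hMu : IsUnit (algebraMap K[X][X] R1 (gM ω T)) :=
    IsLocalization.Away.algebraMap_isUnit (gM ω T)
  have hau : IsUnit (algebraMap K[X][X] R1 a) := by
    rw [← ha]
    exact u.isUnit.mul (hMu.pow n)
  obtain ⟨m, hm⟩ := (IsLocalization.Away.algebraMap_isUnit_iff (gM ω T)).1 hau
  have h1 := three_dvd_of_dvd_pow s0 ω T hω h3 hT hs0ω hs0T R1 σ hσ θ hθ η hη k0 hωk hθk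
      hηk hcube m a hm
  have h2 := three_dvd_of_dvd_pow s0 ω T hω h3 hT hs0ω hs0T R1 σ hσ θ hθ η hη k0 hωk hθk
      hηk hcube n (gM ω T ^ n) dvd_rfl
  have h3' : algebraMap R1 F (u : R1) * algebraMap K[X][X] F (gM ω T ^ n) =
      algebraMap K[X][X] F a := by
    rw [IsScalarTower.algebraMap_apply K[X][X] R1 F, IsScalarTower.algebraMap_apply K[X][X] R1 F,
      ← map_mul, map_pow, ha]
  have h4 : Ph K σ (algebraMap R1 F (u : R1)) + Ph K σ (algebraMap K[X][X] F (gM ω T ^ n)) =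
      Ph K σ (algebraMap K[X][X] F a) := by
    rw [← h3', Ph_mul σ ((u.isUnit.map (algebraMap R1 F)).ne_zero)
      ((map_ne_zero_iff _ inj).2 (pow_ne_zero _ hM))]
  rw [← h4] at h1
  exact (dvd_add_left h2).1 h1

include hs03 in
/-- the key statement: `P0 Q0 / (T W^3)` is not a norm -/
theorem not_norm (γ f : F)
    (hf : f * (algebraMap K[X][X] F (cc T) *
      algebraMap K[X][X] F (pW (cc ω) (cc T) 1 X (C X)) ^ 3) =
      algebraMap K[X][X] F (gP0 ω T) * algebraMap K[X][X] F (gQ0 ω T))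
    (hW : pW (cc ω) (cc T) 1 X (C X) ≠ (0 : K[X][X])) :
    f ≠ γ * σ γ * σ (σ γ) := by
  intro hfγ
  have inj := IsFractionRing.injective K[X][X] F
  have hdom : UniqueFactorizationMonoid R1 :=
    UniqueFactorizationMonoid.of_isLocalization (Submonoid.powers (gM ω T)) R1
  set B := basePt ω T hω R1 with hB
  set a : R1 →+* F := algebraMap R1 F with ha
  have uT := isUnit_T' ω T hω R1 hT
  have ug := isUnit_g ω T hω R1
  have uN := isUnit_N ω T hω R1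
  have uK := isUnit_K ω T hω R1
  have uQ := isUnit_Q0 ω T hω R1
  have uP := isUnit_P0 ω T hω R1
  have uω : IsUnit B.ω := by
    have hω0 : ω ≠ 0 := by rintro rfl; simp at hω
    have : IsUnit (cc ω : K[X][X]) := (IsUnit.mk0 ω hω0).map cc
    exact this.map (algebraMap K[X][X] R1)
  set W : K[X][X] := pW (cc ω) (cc T) 1 X (C X) with hWdef
  set w : F := algebraMap K[X][X] F W with hw
  have hw0 : w ≠ 0 := (map_ne_zero_iff _ inj).2 hW
  -- the factor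
  set κ : R1 := B.g ^ 3 * (B.ω * B.T * B.N * B.Kk) with hκ
  have uκ : IsUnit κ := (ug.pow 3).mul (((uω.mul uT).mul uN).mul uK)
  have hσw : σ w = a κ * w := by
    rw [hw, sig_alg s0 ω T hω hT hs0ω hs0T R1 σ hσ, hWdef, map_pW,
      rho_ω s0 ω T hω hs0ω, rho_T s0 ω T hω hs0T, map_one, rho_X, rho_CX]
    have h1 := (basePt ω T hω R1).act_W
    rw [h1]
    have h2 : pW B.ω B.T 1 B.e1 B.e2 = algebraMap K[X][X] R1 W := by
      rw [hWdef, map_pW, map_one]; rfl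
    rw [h2, IsScalarTower.algebraMap_apply K[X][X] R1 F, ← map_mul, hκ]
    congr 1
    ring
  have hσσw : σ (σ w) = σ (a κ) * a κ * w := by
    rw [hσw, map_mul, hσw]; ring
  have hσκ : σ (a κ) = a (psi s0 ω T hω hT hs0ω hs0T R1 κ) := hσ κ
  have uσκ : IsUnit (psi s0 ω T hω hT hs0ω hs0T R1 κ) := uκ.map _
  -- the norm of γ w
  set v0 : R1 := B.P0 * B.Q0 * κ * κ * psi s0 ω T hω hT hs0ω hs0T R1 κ with hv0
  have uv0 : IsUnit v0 := ((((uP.mul uQ).mul uκ).mul uκ).mul uσκ)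
  obtain ⟨Ti, hTi⟩ := uT.exists_right_inv
  have uTi : IsUnit Ti := IsUnit.of_mul_eq_one _ ((mul_comm _ _).trans hTi)
  have hn : (γ * w) * σ (γ * w) * σ (σ (γ * w)) = a (v0 * Ti) := by
    have e1 : (γ * w) * σ (γ * w) * σ (σ (γ * w)) =
        (γ * σ γ * σ (σ γ)) * (w * σ w * σ (σ w)) := by
      rw [map_mul, map_mul]; ring
    have e2 : a B.T * a Ti = 1 := by rw [← map_mul, hTi, map_one]
    have e3 : algebraMap K[X][X] F (cc T) = a B.T := by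
      rw [IsScalarTower.algebraMap_apply K[X][X] R1 F]; rfl
    have e4 : algebraMap K[X][X] F (gP0 ω T) = a B.P0 := by
      rw [IsScalarTower.algebraMap_apply K[X][X] R1 F, hB, basePt_P0]
    have e5 : algebraMap K[X][X] F (gQ0 ω T) = a B.Q0 := by
      rw [IsScalarTower.algebraMap_apply K[X][X] R1 F, hB, basePt_Q0]
    rw [e3, e4, e5] at hf
    rw [e1, ← hfγ, hσσw, hσw, hσκ, hv0]
    simp only [map_mul]
    linear_combination (a Ti * a κ * a κ * a (psi s0 ω T hω hT hs0ω hs0T R1 κ)) * hf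
      - (f * w ^ 3 * a κ * a κ * a (psi s0 ω T hω hT hs0ω hs0T R1 κ)) * e2
  have uv : IsUnit (v0 * Ti) := uv0.mul uTi
  obtain ⟨u, c, hc0, huc⟩ := unit_of_norm_unit
    (psiEquiv s0 ω T hω hT hs0ω hs0T R1 hs03)
    (psiEquiv_three s0 ω T hω hT hs0ω hs0T R1 hs03) σ
    (fun r => by rw [psiEquiv_apply]; exact hσ r) (γ * w) uv.unit
    (by rw [hn]; rfl)
  -- degrees
  have hσ3 : ∀ z : F, σ (σ (σ z)) = z := by
    intro z
    obtain ⟨x, y, hy, rfl⟩ := IsFractionRing.div_surjective (A := R1) z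
    have h3x : ∀ r : R1, σ (σ (σ (algebraMap R1 F r))) = algebraMap R1 F r := by
      intro r
      rw [hσ, hσ, hσ]
      exact congrArg _ (psiEquiv_three s0 ω T hω hT hs0ω hs0T R1 hs03 r)
    rw [map_div₀, map_div₀, map_div₀, h3x, h3x]
  have hu0 : a (u : R1) ≠ 0 := (u.isUnit.map a).ne_zero
  have hγw : γ * w ≠ 0 := by
    intro h0
    rw [h0, zero_mul] at huc
    exact (mul_ne_zero hu0 hc0) huc.symm
  have hPh1 : Ph K σ (γ * w) + Ph K σ (σ c) = Ph K σ (a (u : R1)) + Ph K σ c := by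
    rw [← Ph_mul σ hγw ((_root_.map_ne_zero σ).2 hc0), huc, Ph_mul σ hu0 hc0]
  have hPh2 : Ph K σ (σ c) = Ph K σ c := by
    unfold Ph
    rw [hσ3]; ring
  have hPh3 : Ph K σ (γ * w) = dg K (a (v0 * Ti)) := by
    have n1 : σ (γ * w) ≠ 0 := (_root_.map_ne_zero σ).2 hγw
    have n2 : σ (σ (γ * w)) ≠ 0 := (_root_.map_ne_zero σ).2 n1
    rw [← hn, dg_mul (mul_ne_zero hγw n1) n2, dg_mul hγw n1]
    rfl
  have hdT : dr K R1 F (basePt ω T hω R1).T = 0 := dg_T ω T hω R1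
  have hdTi : dr K R1 F Ti = 0 := by
    have := dr_mul (K := K) (F := F) R1 uT uTi
    rw [hTi] at this
    have h1 : dr K R1 F (1 : R1) = 0 := by unfold dr; rw [map_one, dg_one]
    rw [h1] at this
    omega
  have hdκ : dr K R1 F κ = -3 := by
    rw [hκ, dr_mul R1 (ug.pow 3) (((uω.mul uT).mul uN).mul uK), dr_pow R1 ug,
      dr_mul R1 ((uω.mul uT).mul uN) uK, dr_mul R1 (uω.mul uT) uN, dr_mul R1 uω uT]
    unfold dr
    rw [dg_g ω T hω h3 hT R1, dg_T ω T hω R1, dg_ω ω T hω R1, dg_N ω T hω hT R1,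
      dg_K ω T hω h3 hT R1 η hη]
    norm_num
  have hsκ : ds K R1 σ κ = 0 := by
    rw [hκ, ds_mul R1 σ (ug.pow 3) (((uω.mul uT).mul uN).mul uK), ds_pow R1 σ ug,
      ds_mul R1 σ ((uω.mul uT).mul uN) uK, ds_mul R1 σ (uω.mul uT) uN, ds_mul R1 σ uω uT,
      ds_T s0 ω T hω hT hs0ω hs0T R1 σ hσ, ds_ω s0 ω T hω hT hs0ω hs0T R1 σ hσ,
      ds_g s0 ω T hω h3 hT hs0ω hs0T R1 σ hσ θ hθ η hη]
    unfold ds
    rw [dsN s0 ω T hω h3 hT hs0ω hs0T R1 σ hσ θ hθ η hη,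
      dsK s0 ω T hω h3 hT hs0ω hs0T R1 σ hσ θ hθ η hη]
    norm_num
  have hdv : dr K R1 F (v0 * Ti) = 2 := by
    rw [dr_mul R1 uv0 uTi, hdTi, hv0, dr_mul R1 (((uP.mul uQ).mul uκ).mul uκ) uσκ,
      dr_mul R1 ((uP.mul uQ).mul uκ) uκ, dr_mul R1 (uP.mul uQ) uκ, dr_mul R1 uP uQ, hdκ]
    have h1 : dr K R1 F (psi s0 ω T hω hT hs0ω hs0T R1 κ) = 0 := by
      unfold dr
      rw [← hσ]
      exact hsκ
    rw [h1]
    unfold dr
    rw [dg_P0 ω T hω h3 hT R1, dg_Q0 ω T hω h3 hT R1]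
    norm_num
  have hfin := three_dvd_unit s0 ω T hω h3 hT hs0ω hs0T R1 σ hσ θ hθ η hη k0 hωk hθk
      hηk hcube u
  have : Ph K σ (a (u : R1)) = 2 := by
    have h1 : dg K (a (v0 * Ti)) = 2 := hdv
    omega
  rw [ha] at this
  rw [this] at hfin
  norm_num at hfin

end Three

end

end Pool.Agent.Work.MP_c5a777_ag

end
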